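import Pool.Agent.J4.H67.AS.Defs
set_option autoImplicit false

/-! PIECE Approx (helper89). -/

namespace Pool.Agent.J4.H67.AS.NApprox

open Matrix Filter Topology

/-- Cholesky -/
theorem chol (Y : Matrix (Fin 2) (Fin 2) ℝ) (hY : Y.PosDef) :
    ∃ L : Matrix (Fin 2) (Fin 2) ℝ, L * L.transpose = Y := by
  have h0 : 0 < Y 0 0 := hY.diag_pos
  have hd : 0 < Y.det := hY.det_pos
  rw [det_fin_two] at hd
  have hs : Y 1 0 = Y 0 1 := by
    have := congrFun (congrFun hY.isHermitian 0) 1
    simpa using this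
  rw [hs] at hd
  set a := Real.sqrt (Y 0 0) with ha
  have ha0 : 0 < a := Real.sqrt_pos.2 h0
  have ha2 : a * a = Y 0 0 := Real.mul_self_sqrt h0.le
  set c := Real.sqrt (Y 1 1 - Y 0 1 * Y 0 1 / Y 0 0) with hc
  have hc0 : 0 ≤ Y 1 1 - Y 0 1 * Y 0 1 / Y 0 0 := by
    rw [sub_nonneg, div_le_iff₀ h0]
    nlinarith
  have hc2 : c * c = Y 1 1 - Y 0 1 * Y 0 1 / Y 0 0 := Real.mul_self_sqrt hc0
  refine ⟨!![a, 0; Y 0 1 / a, c], ?_⟩
  ext i j
  fin_cases i <;> fin_cases j <;> simp [Matrix.mul_apply, Fin.sum_univ_two]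
  · exact ha2
  · field_simp
  · rw [hs]
    field_simp
  · rw [hc2, ← ha2]
    field_simp
    ring

theorem sqrt3_pos : (0 : ℝ) < Real.sqrt 3 := Real.sqrt_pos.2 (by norm_num)

/-- rotation by a quarter of a right angle doubled -/
theorem rot (X : Matrix (Fin 2) (Fin 2) ℂ) (h2 : X 1 0 = X 0 1) (h3 : X 0 1 ≠ 0) :
    let O : Matrix (Fin 2) (Fin 2) ℝ := !![1 / Real.sqrt 2, -(1 / Real.sqrt 2); 1 / Real.sqrt 2, 1 / Real.sqrt 2]
    ((O.map Complex.ofReal).transpose * X * O.map Complex.ofReal) 0 0 ≠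
      ((O.map Complex.ofReal).transpose * X * O.map Complex.ofReal) 1 1 := by
  intro O hcon
  have hs : (Real.sqrt 2 : ℂ) * (Real.sqrt 2 : ℂ) = 2 := by
    rw [← Complex.ofReal_mul, Real.mul_self_sqrt (by norm_num)]
    norm_num
  have hs0 : (Real.sqrt 2 : ℂ) ≠ 0 := by
    intro h0
    rw [h0] at hs
    norm_num at hs
  simp only [O, Matrix.mul_apply, Fin.sum_univ_two, Matrix.transpose_apply, Matrix.map_apply, of_apply,
    cons_val', cons_val_zero, cons_val_one, cons_val_fin_one, Complex.ofReal_div, Complex.ofReal_one,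
    Complex.ofReal_neg, h2] at hcon
  apply h3
  have e : X 0 1 * 4 / ((Real.sqrt 2 : ℂ) * (Real.sqrt 2 : ℂ)) = 0 := by
    field_simp at hcon ⊢
    linear_combination hcon
  rw [hs] at e
  have : X 0 1 * 4 / 2 = X 0 1 * 2 := by ring
  rw [this] at e
  simpa using e

/-- PIECE Approx, first part -/
theorem exists_good_B (Y : Matrix (Fin 2) (Fin 2) ℝ) (hY : Y.PosDef) (N : Matrix (Fin 2) (Fin 2) ℂ) (hN : N.IsHermitian)
    (hN0 : N ≠ 0) :
    ∃ B : Matrix (Fin 2) (Fin 2) ℝ, IsUnit B.det ∧ B⁻¹ * Y * (B⁻¹).transpose = (Real.sqrt 3 / 2) • (1 : Matrix (Fin 2) (Fin 2) ℝ) ∧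
      (let X := (B.map Complex.ofReal).transpose * N * B.map Complex.ofReal
       X 0 0 ≠ X 1 1 ∨ (X 0 1).im ≠ 0 ∨ ∃ c : ℝ, c ≠ 0 ∧ X = (c : ℂ) • 1) := by
  have h3 := sqrt3_pos
  obtain ⟨L, hL⟩ := chol ((2 / Real.sqrt 3) • Y) (hY.smul (by positivity))
  have hYL : ∀ B : Matrix (Fin 2) (Fin 2) ℝ, B * B.transpose = (2 / Real.sqrt 3) • Y → IsUnit B.det ∧
      B⁻¹ * Y * (B⁻¹).transpose = (Real.sqrt 3 / 2) • (1 : Matrix (Fin 2) (Fin 2) ℝ) := by
    intro B hB
    have hdet : B.det * B.det = (2 / Real.sqrt 3) ^ 2 * Y.det := by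
      have := congrArg Matrix.det hB
      rw [det_mul, det_transpose, det_smul, Fintype.card_fin] at this
      exact this
    have hu : IsUnit B.det := by
      rw [isUnit_iff_ne_zero]
      intro h0
      rw [h0, mul_zero] at hdet
      have := hY.det_pos
      have h4 : 0 < (2 / Real.sqrt 3) ^ 2 * Y.det := by positivity
      linarith
    refine ⟨hu, ?_⟩
    have hY' : Y = (Real.sqrt 3 / 2) • (B * B.transpose) := by
      rw [hB, smul_smul]
      have : Real.sqrt 3 / 2 * (2 / Real.sqrt 3) = 1 := by field_simp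
      rw [this, one_smul]
    rw [hY', Matrix.mul_smul, Matrix.smul_mul]
    congr 1
    rw [Matrix.mul_assoc, Matrix.mul_assoc, ← Matrix.transpose_mul, nonsing_inv_mul B hu, transpose_one, mul_one,
      nonsing_inv_mul B hu]
  set X₀ : Matrix (Fin 2) (Fin 2) ℂ := (L.map Complex.ofReal).transpose * N * L.map Complex.ofReal with hX₀
  obtain ⟨hu, hBY⟩ := hYL L hL
  by_cases hgood : X₀ 0 0 ≠ X₀ 1 1 ∨ (X₀ 0 1).im ≠ 0 ∨ ∃ c : ℝ, c ≠ 0 ∧ X₀ = (c : ℂ) • 1
  · exact ⟨L, hu, hBY, hgood⟩
  · push Not at hgood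
    obtain ⟨hg1, hg2, hg3⟩ := hgood
    -- the matrix is hermitian and nonzero
    have hstar : ∀ i j, star (X₀ i j) = X₀ j i := by
      intro i j
      have hNij : ∀ a b, star (N a b) = N b a := fun a b => by
        have := congrFun (congrFun hN b) a
        simpa [Matrix.conjTranspose_apply] using this
      rw [hX₀]
      simp only [Matrix.mul_apply, Fin.sum_univ_two, Matrix.transpose_apply, Matrix.map_apply, star_add, star_mul',
        hNij, Complex.star_def, Complex.conj_ofReal]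
      ring
    have hL' : IsUnit (L.map Complex.ofReal).det := by
      have : (L.map Complex.ofReal).det = (L.det : ℂ) := by
        simp [det_fin_two]
      rw [this, isUnit_iff_ne_zero]
      exact_mod_cast hu.ne_zero
    have hX0 : X₀ ≠ 0 := by
      intro h0
      apply hN0
      have h1 : ((L.map Complex.ofReal).transpose)⁻¹ * X₀ * (L.map Complex.ofReal)⁻¹ = N := by
        rw [hX₀, Matrix.mul_assoc, mul_nonsing_inv_cancel_right _ _ hL',
          nonsing_inv_mul_cancel_left _ _ (by rw [det_transpose]; exact hL')]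
      rw [← h1, h0]
      simp
    have h01 : X₀ 1 0 = X₀ 0 1 := by
      have h1 := hstar 0 1
      rw [← h1]
      apply Complex.ext
      · simp
      · simp [hg2]
    have hne : X₀ 0 1 ≠ 0 := by
      intro h0
      have hre : ((X₀ 0 0).re : ℂ) = X₀ 0 0 := by
        have h1 := hstar 0 0
        exact Complex.conj_eq_iff_re.1 h1
      have hc : X₀ = (((X₀ 0 0).re : ℝ) : ℂ) • 1 := by
        rw [hre]
        ext i j
        fin_cases i <;> fin_cases j <;> simp [h0, h01, hg1]
      have hc0 : (X₀ 0 0).re ≠ 0 := by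
        intro h
        apply hX0
        rw [hc, h]
        simp
      exact hg3 _ hc0 hc
    set O : Matrix (Fin 2) (Fin 2) ℝ := !![1 / Real.sqrt 2, -(1 / Real.sqrt 2); 1 / Real.sqrt 2, 1 / Real.sqrt 2] with hO
    have hOO : O * O.transpose = 1 := by
      have hs : Real.sqrt 2 * Real.sqrt 2 = 2 := Real.mul_self_sqrt (by norm_num)
      have hs0 : Real.sqrt 2 ≠ 0 := by positivity
      have hs3 : (Real.sqrt 2)⁻¹ * (Real.sqrt 2)⁻¹ = 1 / 2 := by
        rw [← mul_inv, hs]
        norm_num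
      ext i j
      fin_cases i <;> fin_cases j <;> simp [hO, Matrix.mul_apply, Fin.sum_univ_two, hs3] <;> norm_num
    have hB : (L * O) * (L * O).transpose = (2 / Real.sqrt 3) • Y := by
      rw [transpose_mul, Matrix.mul_assoc, ← Matrix.mul_assoc O, hOO, Matrix.one_mul, hL]
    obtain ⟨hu2, hBY2⟩ := hYL _ hB
    refine ⟨L * O, hu2, hBY2, Or.inl ?_⟩
    have hmap : (L * O).map Complex.ofReal = L.map Complex.ofReal * O.map Complex.ofReal := by
      ext i j
      simp [Matrix.mul_apply, Fin.sum_univ_two]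
    have hXO : ((L * O).map Complex.ofReal).transpose * N * (L * O).map Complex.ofReal =
        (O.map Complex.ofReal).transpose * X₀ * O.map Complex.ofReal := by
      rw [hmap, transpose_mul, hX₀]
      simp only [Matrix.mul_assoc]
    rw [hXO]
    exact rot X₀ h01 hne

/-- the matrices of the parameters -/
def Bv (v : Fin 7 → ℝ) : Matrix (Fin 2) (Fin 2) ℝ := !![v 0, v 1; v 2, v 3]

def Sv (v : Fin 7 → ℝ) : Matrix (Fin 2) (Fin 2) ℝ := !![v 4, v 5; v 5, v 6]

noncomputable def Gv (Z : Matrix (Fin 2) (Fin 2) ℂ) (v : Fin 7 → ℝ) : Matrix (Fin 2) (Fin 2) ℂ :=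
  (Sv v).map Complex.ofReal + ((Bv v).map Complex.ofReal)⁻¹ * Z * (((Bv v).map Complex.ofReal)⁻¹).transpose - T0

theorem map_cont {X : Type*} [TopologicalSpace X] {f : X → Matrix (Fin 2) (Fin 2) ℝ} (hf : Continuous f) :
    Continuous (fun x => (f x).map Complex.ofReal) := by
  apply continuous_matrix
  intro i j
  exact Complex.continuous_ofReal.comp (hf.matrix_elem i j)

theorem Bv_cont : Continuous Bv := by
  apply continuous_matrix
  intro i j
  fin_cases i <;> fin_cases j <;> simp [Bv] <;> fun_prop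

theorem Sv_cont : Continuous Sv := by
  apply continuous_matrix
  intro i j
  fin_cases i <;> fin_cases j <;> simp [Sv] <;> fun_prop

theorem Gv_cont (Z : Matrix (Fin 2) (Fin 2) ℂ) (v : Fin 7 → ℝ) (h : (Bv v).det ≠ 0) : ContinuousAt (Gv Z) v := by
  have h1 : ContinuousAt (fun w => ((Bv w).map Complex.ofReal)⁻¹) v := by
    have hdet : ((Bv v).map Complex.ofReal).det ≠ 0 := by
      have : ((Bv v).map Complex.ofReal).det = ((Bv v).det : ℂ) := by simp [det_fin_two]
      rw [this]
      exact_mod_cast h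
    have h2 : ContinuousAt Inv.inv ((Bv v).map Complex.ofReal) := by
      apply continuousAt_matrix_inv
      rw [Ring.inverse_eq_inv']
      exact continuousAt_inv₀ hdet
    exact ContinuousAt.comp (f := fun w => (Bv w).map Complex.ofReal) h2 (map_cont Bv_cont).continuousAt
  unfold Gv
  have h3 : ContinuousAt (fun w => (((Bv w).map Complex.ofReal)⁻¹).transpose) v :=
    ContinuousAt.comp (f := fun w => ((Bv w).map Complex.ofReal)⁻¹) (continuous_id.matrix_transpose.continuousAt) h1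
  exact (((map_cont Sv_cont).continuousAt).add ((h1.mul continuousAt_const).mul h3)).sub continuousAt_const

/-- PIECE Approx, second part -/
theorem exists_rational (Z : Matrix (Fin 2) (Fin 2) ℂ) (hZ : Z.IsSymm) (B : Matrix (Fin 2) (Fin 2) ℝ) (hB : IsUnit B.det)
    (hBZ : B⁻¹ * Z.map Complex.im * (B⁻¹).transpose = (Real.sqrt 3 / 2) • (1 : Matrix (Fin 2) (Fin 2) ℝ)) (η : ℝ) (hη : 0 < η) :
    ∃ B' S' : Matrix (Fin 2) (Fin 2) ℚ, B'.det ≠ 0 ∧ S'.IsSymm ∧ (∀ i j, |(B' i j : ℝ) - B i j| < η) ∧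
      ∀ i j, ‖(S'.map (fun q : ℚ => (q : ℂ)) + (B'.map (fun q : ℚ => (q : ℂ)))⁻¹ * Z * ((B'.map (fun q : ℚ => (q : ℂ)))⁻¹).transpose - T0) i j‖ < η := by
  -- the exact solution
  set R : Matrix (Fin 2) (Fin 2) ℝ := B⁻¹ * Z.map Complex.re * (B⁻¹).transpose with hR
  have hRs : R 1 0 = R 0 1 := by
    have h1 : R.transpose = R := by
      have h2 : (Z.map Complex.re).transpose = Z.map Complex.re := by
        ext i j
        have := congrFun (congrFun hZ i) j
        rw [transpose_apply] at this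
        simp [this]
      rw [hR, transpose_mul, transpose_mul, transpose_transpose, h2, Matrix.mul_assoc]
    have := congrFun (congrFun h1 0) 1
    simpa using this
  set v : Fin 7 → ℝ := ![B 0 0, B 0 1, B 1 0, B 1 1, - R 0 0, 1 / 2 - R 0 1, - R 1 1] with hv
  have hBv : Bv v = B := by
    ext i j
    fin_cases i <;> fin_cases j <;> simp [Bv, hv]
  have hdet : (Bv v).det ≠ 0 := by
    rw [hBv]
    exact hB.ne_zero
  have hG0 : Gv Z v = 0 := by
    have hinv : ((Bv v).map Complex.ofReal)⁻¹ = (B⁻¹).map Complex.ofReal := by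
      rw [hBv]
      apply inv_eq_left_inv
      have h1 : (B⁻¹).map Complex.ofReal * B.map Complex.ofReal = (B⁻¹ * B).map Complex.ofReal := by
        ext i j
        simp [Matrix.mul_apply, Fin.sum_univ_two]
      rw [h1, nonsing_inv_mul B hB]
      ext i j
      fin_cases i <;> fin_cases j <;> simp
    have hsplit : (B⁻¹).map Complex.ofReal * Z * ((B⁻¹).map Complex.ofReal).transpose =
        R.map Complex.ofReal + Complex.I • ((B⁻¹ * Z.map Complex.im * (B⁻¹).transpose).map Complex.ofReal) := by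
      ext i j
      simp only [hR, Matrix.mul_apply, Fin.sum_univ_two, Matrix.add_apply, Matrix.smul_apply, Matrix.map_apply,
        Matrix.transpose_apply, smul_eq_mul, Complex.ofReal_add, Complex.ofReal_mul]
      have hz : ∀ a b, Z a b = ((Z a b).re : ℂ) + Complex.I * ((Z a b).im : ℂ) := fun a b => by
        rw [mul_comm]; exact (Complex.re_add_im _).symm
      rw [hz 0 0, hz 0 1, hz 1 0, hz 1 1]
      simp only [Complex.add_re, Complex.add_im, Complex.mul_re, Complex.mul_im, Complex.I_re, Complex.I_im,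
        Complex.ofReal_re, Complex.ofReal_im, zero_mul, mul_zero, one_mul, sub_zero, add_zero, zero_add, sub_self]
      ring
    unfold Gv
    rw [hinv, hsplit, hBZ]
    ext i j
    fin_cases i <;> fin_cases j <;> apply Complex.ext <;>
      simp [Sv, hv, T0, hRs]
  have hcont := Gv_cont Z v hdet
  have hdc : ContinuousAt (fun w => (Bv w).det) v := (Bv_cont.matrix_det).continuousAt
  have hev1 : ∀ i j, ∀ᶠ w in 𝓝 v, ‖Gv Z w i j‖ < η := by
    intro i j
    have h1 : ContinuousAt (fun w => ‖Gv Z w i j‖) v := by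
      have h2 : ContinuousAt (fun w => Gv Z w i j) v :=
        ContinuousAt.comp (f := Gv Z) (g := fun M : Matrix (Fin 2) (Fin 2) ℂ => M i j)
          ((continuous_id.matrix_elem i j).continuousAt) hcont
      exact h2.norm
    have h3 : ‖Gv Z v i j‖ < η := by
      rw [hG0]
      simpa using hη
    exact h1.eventually_lt continuousAt_const h3
  have hev2 : ∀ᶠ w in 𝓝 v, (Bv w).det ≠ 0 := hdc.eventually_ne hdet
  have hev : ∀ᶠ w in 𝓝 v, (Bv w).det ≠ 0 ∧ ∀ i j, ‖Gv Z w i j‖ < η := by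
    refine hev2.and ?_
    rw [Filter.eventually_all]
    intro i
    rw [Filter.eventually_all]
    exact hev1 i
  obtain ⟨δ, hδ, hδ2⟩ := Metric.eventually_nhds_iff.1 hev
  have hq : ∀ i : Fin 7, ∃ q : ℚ, |v i - q| < min η δ := fun i => exists_rat_near _ (lt_min hη hδ)
  choose q hq using hq
  have hd : dist (fun i => (q i : ℝ)) v < δ := by
    rw [dist_pi_lt_iff hδ]
    intro i
    rw [dist_comm, Real.dist_eq]
    exact (hq i).trans_le (min_le_right _ _)
  obtain ⟨h1, h2⟩ := hδ2 hd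
  refine ⟨!![q 0, q 1; q 2, q 3], !![q 4, q 5; q 5, q 6], ?_, ?_, ?_, ?_⟩
  · intro h0
    apply h1
    have : (Bv fun i => (q i : ℝ)).det = ((!![q 0, q 1; q 2, q 3] : Matrix (Fin 2) (Fin 2) ℚ).det : ℝ) := by
      simp [Bv, det_fin_two]
    rw [this, h0]
    simp
  · ext i j
    fin_cases i <;> fin_cases j <;> simp
  · have hq' : ∀ i, |(q i : ℝ) - v i| < η := fun i => by
      rw [abs_sub_comm]
      exact (hq i).trans_le (min_le_left _ _)
    intro i j
    fin_cases i <;> fin_cases j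
    · simpa [hv] using hq' 0
    · simpa [hv] using hq' 1
    · simpa [hv] using hq' 2
    · simpa [hv] using hq' 3
  · intro i j
    have e1 : (!![q 0, q 1; q 2, q 3] : Matrix (Fin 2) (Fin 2) ℚ).map (fun q : ℚ => (q : ℂ)) =
        (Bv fun i => (q i : ℝ)).map Complex.ofReal := by
      ext i j
      fin_cases i <;> fin_cases j <;> simp [Bv]
    have e2 : (!![q 4, q 5; q 5, q 6] : Matrix (Fin 2) (Fin 2) ℚ).map (fun q : ℚ => (q : ℂ)) =
        (Sv fun i => (q i : ℝ)).map Complex.ofReal := by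
      ext i j
      fin_cases i <;> fin_cases j <;> simp [Sv]
    rw [e1, e2]
    exact h2 i j

end Pool.Agent.J4.H67.AS.NApprox
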