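import Pool.Agent.J4.H67.AS.RegCalc
set_option autoImplicit false

/-!
The regulator integrals for `y² = 1 - x⁶`.
-/

namespace Pool.Agent.J4.H67.AS.NB67

open MeasureTheory Set
open scoped ComplexConjugate Topology

lemma Pa_zk (x : ℂ) : Pa zk x = 1 - x ^ 6 := by
  have h : zt ^ 2 - zt + 1 = 0 := by
    rw [zt2]
    apply Complex.ext <;> simp [zt]
    norm_num
  have hinv : ∀ j : ℕ, j ≤ 6 → x / zt ^ j = x * zt ^ (6 - j) := by
    intro j hj
    rw [div_eq_iff (pow_ne_zero j zt_ne), mul_assoc, ← pow_add, Nat.sub_add_cancel hj, zt6, mul_one]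
  unfold Pa zk
  rw [Fin.prod_univ_six]
  have e0 : ((0 : Fin 6) : ℕ) = 0 := rfl
  have e1 : ((1 : Fin 6) : ℕ) = 1 := rfl
  have e2 : ((2 : Fin 6) : ℕ) = 2 := rfl
  have e3 : ((3 : Fin 6) : ℕ) = 3 := rfl
  have e4 : ((4 : Fin 6) : ℕ) = 4 := rfl
  have e5 : ((5 : Fin 6) : ℕ) = 5 := rfl
  rw [e0, e1, e2, e3, e4, e5, hinv 0 (by norm_num), hinv 1 (by norm_num), hinv 2 (by norm_num), hinv 3 (by norm_num),
    hinv 4 (by norm_num), hinv 5 (by norm_num)]
  simp only [Nat.sub_zero, Nat.reduceSub]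
  have h3 := zt3
  have h6 := zt6
  have h5 : zt ^ 5 = -(zt - 1) := by
    rw [show zt ^ 5 = zt ^ 3 * zt ^ 2 by ring, h3]
    linear_combination -h
  have h4 : zt ^ 4 = -zt := by
    rw [show zt ^ 4 = zt ^ 3 * zt by ring, h3]
    ring
  have h2 : zt ^ 2 = zt - 1 := by linear_combination h
  rw [h6, h5, h4, h3, h2, pow_one]
  linear_combination (1 - x ^ 2) * (-2 * x ^ 2 - 2 * x ^ 4 + (zt ^ 2 - zt + 1) * x ^ 4) * h

lemma near_zk : Near zk := fun k => by
  rw [sub_self, norm_zero]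
  norm_num

lemma zk3 (i : Fin 6) : zk (i + 3) = - zk i := by
  have h : ∀ i : Fin 6, i + 3 = i + 1 + 1 + 1 := by decide
  rw [h, zk_succ, zk_succ, zk_succ]
  have := zt3
  linear_combination zk i * this

lemma zk0 : zk 0 = 1 := by
  simp [zk]

/-- the kernel -/
noncomputable def ph (x : ℂ) : ℝ := Real.log ‖x - 1‖ - Real.log ‖x + 1‖

/-- the integrand -/
noncomputable def wt (m n : Fin 2) (x : ℂ) : ℂ := (ph x : ℂ) * (x ^ (m : ℕ) * conj x ^ (n : ℕ) / (‖1 - x ^ 6‖ : ℂ))

/-- the integral -/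
noncomputable def Wm (m n : Fin 2) : ℂ := ∫ x : ℂ, wt m n x

lemma int_rot (c : ℂ) (hc : ‖c‖ = 1) (f : ℂ → ℂ) : ∫ x, f (c * x) = ∫ x, f x := by
  have h := (rotation (⟨c, mem_sphere_zero_iff_norm.2 hc⟩ : Circle)).measurePreserving.integral_comp
    (rotation (⟨c, mem_sphere_zero_iff_norm.2 hc⟩ : Circle)).toHomeomorph.measurableEmbedding f
  exact h

lemma int_conj (f : ℂ → ℂ) : ∫ x, f (conj x) = ∫ x, f x :=
  (Complex.conjLIE.measurePreserving).integral_comp Complex.conjLIE.toHomeomorph.measurableEmbedding f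

lemma U_rot (i : Fin 6) (m n : Fin 2) :
    U zk i m n - U zk (i + 3) m n = zk i ^ (m : ℕ) * conj (zk i) ^ (n : ℕ) * Wm m n := by
  unfold U Wm
  have hc : ‖zk i‖ = 1 := nrm_zk i
  rw [← integral_sub (integrable_U near_zk i m n) (integrable_U near_zk (i + 3) m n), ← integral_const_mul,
    ← int_rot (zk i) hc]
  congr 1
  ext x
  have e1 : ‖zk i * x - zk i‖ = ‖x - 1‖ := by
    rw [show zk i * x - zk i = zk i * (x - 1) by ring, norm_mul, hc, one_mul]
  have e2 : ‖zk i * x - zk (i + 3)‖ = ‖x + 1‖ := by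
    rw [zk3, show zk i * x - -zk i = zk i * (x + 1) by ring, norm_mul, hc, one_mul]
  have e3 : Pa zk (zk i * x) = 1 - x ^ 6 := by
    rw [Pa_zk, mul_pow, zk_pow_six, one_mul]
  rw [e1, e2, e3]
  unfold wt ph
  rw [mul_pow, map_mul, mul_pow]
  push_cast
  ring

lemma wt_integrable (m n : Fin 2) : Integrable (wt m n) := by
  have h := (integrable_U near_zk 0 m n).sub (integrable_U near_zk 3 m n)
  refine h.congr (Filter.Eventually.of_forall fun x => ?_)
  have e3 : zk 3 = -1 := by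
    have := zk3 0
    rw [zk0] at this
    exact this
  simp only [Pi.sub_apply, zk0, e3, Pa_zk, wt, ph, sub_neg_eq_add]
  push_cast
  ring

lemma ph_neg (x : ℂ) : ph (-1 * x) = - ph x := by
  unfold ph
  rw [show -1 * x - 1 = -(x + 1) by ring, show -1 * x + 1 = -(x - 1) by ring, norm_neg, norm_neg]
  ring

lemma ph_conj (x : ℂ) : ph (conj x) = ph x := by
  unfold ph
  have e1 : conj x - 1 = conj (x - 1) := by simp
  have e2 : conj x + 1 = conj (x + 1) := by simp
  rw [e1, e2, RCLike.norm_conj, RCLike.norm_conj]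

lemma Wm_even (m : Fin 2) : Wm m m = 0 := by
  have h : Wm m m = - Wm m m := by
    nth_rewrite 1 [Wm]
    rw [← int_rot (-1) (by simp), Wm, ← integral_neg]
    congr 1
    ext x
    unfold wt
    rw [ph_neg, show (1 - (-1 * x) ^ 6 : ℂ) = 1 - x ^ 6 by ring, map_mul, map_neg, map_one]
    have : (-1 * x) ^ (m : ℕ) * (-1 * conj x) ^ (m : ℕ) = x ^ (m : ℕ) * conj x ^ (m : ℕ) := by
      rw [mul_pow, mul_pow]
      have : (-1 : ℂ) ^ (m : ℕ) * (-1) ^ (m : ℕ) = 1 := by
        rw [← mul_pow]; norm_num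
      linear_combination (x ^ (m : ℕ) * conj x ^ (m : ℕ)) * this
    rw [this]
    push_cast
    ring
  have h2 : (2 : ℂ) * Wm m m = 0 := by linear_combination h
  exact (mul_eq_zero.1 h2).resolve_left two_ne_zero

lemma norm_six_conj (x : ℂ) : ‖1 - conj x ^ 6‖ = ‖1 - x ^ 6‖ := by
  have : 1 - conj x ^ 6 = conj (1 - x ^ 6) := by simp
  rw [this, RCLike.norm_conj]

lemma Wm_symm : Wm 1 0 = Wm 0 1 := by
  unfold Wm
  rw [← int_conj]
  congr 1
  ext x
  unfold wt
  rw [ph_conj, norm_six_conj]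
  simp

/-- the real integral -/
noncomputable def Kr : ℝ := ∫ x : ℂ, ph x * (x.re / ‖1 - x ^ 6‖)

lemma kr_eq (x : ℂ) : ((ph x * (x.re / ‖1 - x ^ 6‖) : ℝ) : ℂ) = 1 / 2 * (wt 1 0 x + wt 0 1 x) := by
  unfold wt
  have h : (x.re : ℂ) = (x + conj x) / 2 := by
    rw [Complex.re_eq_add_conj]
  push_cast
  rw [h]
  simp only [Fin.val_one, Fin.val_zero, pow_one, pow_zero, mul_one, one_mul]
  ring

lemma kr_integrable : Integrable fun x : ℂ => ph x * (x.re / ‖1 - x ^ 6‖) := by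
  have h := ((wt_integrable 1 0).add (wt_integrable 0 1)).const_mul (1 / 2 : ℂ)
  have h2 : Integrable fun x : ℂ => ((ph x * (x.re / ‖1 - x ^ 6‖) : ℝ) : ℂ) := by
    refine h.congr (Filter.Eventually.of_forall fun x => ?_)
    simp only [Pi.add_apply]
    rw [kr_eq]
  exact h2.re

lemma Wm_eq : Wm 1 0 = Kr := by
  have h : (Kr : ℂ) = 1 / 2 * (Wm 1 0 + Wm 0 1) := by
    have h1 : (Kr : ℂ) = ∫ x : ℂ, ((ph x * (x.re / ‖1 - x ^ 6‖) : ℝ) : ℂ) := integral_ofReal.symm
    rw [h1]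
    unfold Wm
    simp only [kr_eq]
    rw [integral_const_mul, integral_add (wt_integrable 1 0) (wt_integrable 0 1)]
  rw [← Wm_symm] at h
  rw [h]
  ring

lemma ph_sign (x : ℂ) (h1 : x ≠ 1) (h2 : x ≠ -1) : ph x * x.re ≤ 0 ∧ (x.re ≠ 0 → ph x * x.re < 0) := by
  have n1 : 0 < ‖x - 1‖ := norm_pos_iff.2 (sub_ne_zero.2 h1)
  have n2 : 0 < ‖x + 1‖ := by
    rw [norm_pos_iff]
    intro h
    exact h2 (eq_neg_of_add_eq_zero_left h)
  have hs : ‖x + 1‖ ^ 2 - ‖x - 1‖ ^ 2 = 4 * x.re := by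
    rw [← Complex.normSq_eq_norm_sq, ← Complex.normSq_eq_norm_sq, Complex.normSq_apply, Complex.normSq_apply]
    simp
    ring
  have key : ∀ r : ℝ, 0 < x.re → ph x < 0 := by
    intro _ h
    unfold ph
    have : ‖x - 1‖ < ‖x + 1‖ := by
      by_contra hcon
      push Not at hcon
      nlinarith
    linarith [Real.log_lt_log n1 this]
  have key' : x.re < 0 → 0 < ph x := by
    intro h
    unfold ph
    have : ‖x + 1‖ < ‖x - 1‖ := by
      by_contra hcon
      push Not at hcon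
      nlinarith
    linarith [Real.log_lt_log n2 this]
  rcases lt_trichotomy x.re 0 with h | h | h
  · have := key' h
    exact ⟨by nlinarith, fun _ => by nlinarith⟩
  · rw [h]
    exact ⟨by simp, fun h => absurd rfl h⟩
  · have := key 0 h
    exact ⟨by nlinarith, fun _ => by nlinarith⟩

lemma Kr_neg : Kr < 0 := by
  have hneg : 0 < ∫ x : ℂ, -(ph x * (x.re / ‖1 - x ^ 6‖)) := by
    have hae1 : ∀ᵐ x : ℂ, x ≠ 1 := compl_mem_ae_iff.2 (measure_singleton _)
    have hae2 : ∀ᵐ x : ℂ, x ≠ -1 := compl_mem_ae_iff.2 (measure_singleton _)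
    refine (integral_pos_iff_support_of_nonneg_ae (f := fun x : ℂ => -(ph x * (x.re / ‖1 - x ^ 6‖))) ?_ kr_integrable.neg).2 ?_
    rotate_left
    · have hball : Metric.ball ((1 : ℂ) / 2) (1 / 4) ⊆ Function.support fun x : ℂ => -(ph x * (x.re / ‖1 - x ^ 6‖)) := by
        intro x hx
        rw [Metric.mem_ball, dist_eq_norm] at hx
        have hr := (Complex.abs_re_le_norm (x - 1 / 2)).trans hx.le
        simp only [Complex.sub_re] at hr
        have hr2 : ((1 : ℂ) / 2).re = 1 / 2 := by norm_num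
        rw [hr2, abs_le] at hr
        have hxn : ‖x‖ < 1 := by
          have := norm_sub_norm_le x (1 / 2)
          have h3 : ‖(1 / 2 : ℂ)‖ = 1 / 2 := by norm_num
          rw [h3] at this
          linarith
        have h6 : 0 < ‖1 - x ^ 6‖ := by
          rw [norm_pos_iff, sub_ne_zero]
          intro h
          have : ‖x ^ 6‖ < 1 := by
            rw [norm_pow]
            exact pow_lt_one₀ (norm_nonneg _) hxn (by norm_num)
          rw [← h] at this
          simp at this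
        have h1 : x ≠ 1 := by
          rintro rfl
          simp at hxn
        have h2 : x ≠ -1 := by
          rintro rfl
          simp at hxn
        have h3 := (ph_sign x h1 h2).2 (by linarith [hr.1])
        rw [Function.mem_support]
        have h4 : -(ph x * (x.re / ‖1 - x ^ 6‖)) = -(ph x * x.re) / ‖1 - x ^ 6‖ := by ring
        rw [h4]
        exact (div_pos (by linarith) h6).ne'
      exact (Metric.measure_ball_pos volume _ (by norm_num)).trans_le (measure_mono hball)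
    · filter_upwards [hae1, hae2] with x h1 h2
      have h3 := (ph_sign x h1 h2).1
      have h4 : -(ph x * (x.re / ‖1 - x ^ 6‖)) = -(ph x * x.re) / ‖1 - x ^ 6‖ := by ring
      simp only [Pi.zero_apply]
      rw [h4]
      exact div_nonneg (by linarith) (norm_nonneg _)
  rw [integral_neg] at hneg
  unfold Kr
  linarith

theorem base_ne (X : Matrix (Fin 2) (Fin 2) ℂ) (hX : X.IsHermitian) (h01 : X 0 1 ≠ 0) :
    ∃ i : Fin 6, (X * (Um zk i - Um zk (i + 3))).trace ≠ 0 := by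
  have htr : ∀ i, (X * (Um zk i - Um zk (i + 3))).trace = ((2 * (X 0 1 * zk i).re * Kr : ℝ) : ℂ) := by
    intro i
    have hW : ∀ m n, (Um zk i - Um zk (i + 3)) m n = zk i ^ (m : ℕ) * conj (zk i) ^ (n : ℕ) * Wm m n := fun m n => U_rot i m n
    have h10 : X 1 0 = conj (X 0 1) := by
      have := hX.apply 1 0
      rw [← this]
      simp
    rw [Matrix.trace_fin_two, Matrix.mul_apply, Matrix.mul_apply, Fin.sum_univ_two, Fin.sum_univ_two, hW, hW, hW, hW,
      Wm_even, Wm_even, ← Wm_symm, Wm_eq, h10]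
    have h : ((X 0 1 * zk i).re : ℂ) = (X 0 1 * zk i + conj (X 0 1 * zk i)) / 2 := by
      rw [Complex.re_eq_add_conj]
    push_cast
    rw [h, map_mul]
    simp only [Fin.val_one, Fin.val_zero, pow_one, pow_zero, mul_one, one_mul]
    ring
  by_cases h0 : (X 0 1 * zk 0).re = 0
  · refine ⟨1, ?_⟩
    rw [htr]
    have h1 : (X 0 1 * zk 1).re ≠ 0 := by
      rw [zk0, mul_one] at h0
      have e : zk 1 = zt := by simp [zk]
      rw [e, Complex.mul_re, h0]
      simp only [zt]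
      intro h
      apply h01
      apply Complex.ext
      · exact h0
      · have := sqrt3_gt
        simp only [zero_mul, zero_sub, neg_eq_zero] at h
        rcases mul_eq_zero.1 h with h | h
        · simpa using h
        · linarith
    have := Kr_neg.ne
    exact_mod_cast mul_ne_zero (mul_ne_zero two_ne_zero h1) this
  · refine ⟨0, ?_⟩
    rw [htr]
    have := Kr_neg.ne
    exact_mod_cast mul_ne_zero (mul_ne_zero two_ne_zero h0) this

theorem base0_ne (c : ℝ) (hc : c ≠ 0) : (((c : ℂ) • (1 : Matrix (Fin 2) (Fin 2) ℂ)) * U0m zk).trace ≠ 0 := by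
  rw [Matrix.smul_mul, Matrix.one_mul, Matrix.trace_smul, Matrix.trace_fin_two, smul_eq_mul]
  apply mul_ne_zero (by exact_mod_cast hc)
  have hI0 := integrable_U0 near_zk 0 0
  have hI1 := integrable_U0 near_zk 1 1
  have e : ∀ x : ℂ, x ^ ((0 : Fin 2) : ℕ) * conj x ^ ((0 : Fin 2) : ℕ) / (‖Pa zk x‖ : ℂ) +
      x ^ ((1 : Fin 2) : ℕ) * conj x ^ ((1 : Fin 2) : ℕ) / (‖Pa zk x‖ : ℂ) = (((1 + ‖x‖ ^ 2) / ‖1 - x ^ 6‖ : ℝ) : ℂ) := by
    intro x
    rw [Pa_zk]
    have h : x * conj x = ((‖x‖ ^ 2 : ℝ) : ℂ) := by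
      rw [Complex.mul_conj, Complex.normSq_eq_norm_sq]
    simp only [Fin.val_zero, Fin.val_one, pow_zero, pow_one, mul_one, h]
    push_cast
    ring
  have hsum : U0m zk 0 0 + U0m zk 1 1 = ((∫ x : ℂ, (1 + ‖x‖ ^ 2) / ‖1 - x ^ 6‖ : ℝ) : ℂ) := by
    have h1 : U0m zk 0 0 + U0m zk 1 1 = ∫ x : ℂ, (x ^ ((0 : Fin 2) : ℕ) * conj x ^ ((0 : Fin 2) : ℕ) / (‖Pa zk x‖ : ℂ) +
      x ^ ((1 : Fin 2) : ℕ) * conj x ^ ((1 : Fin 2) : ℕ) / (‖Pa zk x‖ : ℂ)) := (integral_add hI0 hI1).symm
    rw [h1]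
    simp only [e]
    exact integral_ofReal
  rw [hsum]
  have hint : Integrable fun x : ℂ => (1 + ‖x‖ ^ 2) / ‖1 - x ^ 6‖ := by
    have h2 : Integrable fun x : ℂ => (((1 + ‖x‖ ^ 2) / ‖1 - x ^ 6‖ : ℝ) : ℂ) := by
      refine (hI0.add hI1).congr (Filter.Eventually.of_forall fun x => ?_)
      exact e x
    exact h2.re
  have hpos : 0 < ∫ x : ℂ, (1 + ‖x‖ ^ 2) / ‖1 - x ^ 6‖ := by
    rw [integral_pos_iff_support_of_nonneg (fun x => by positivity) hint]
    have hball : Metric.ball (0 : ℂ) 1 ⊆ Function.support fun x : ℂ => (1 + ‖x‖ ^ 2) / ‖1 - x ^ 6‖ := by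
      intro x hx
      rw [mem_ball_zero_iff] at hx
      have h6 : 0 < ‖1 - x ^ 6‖ := by
        rw [norm_pos_iff, sub_ne_zero]
        intro h
        have : ‖x ^ 6‖ < 1 := by
          rw [norm_pow]
          exact pow_lt_one₀ (norm_nonneg _) hx (by norm_num)
        rw [← h] at this
        simp at this
      rw [Function.mem_support]
      exact (div_pos (by positivity) h6).ne'
    exact (Metric.measure_ball_pos volume _ (by norm_num)).trans_le (measure_mono hball)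
  exact_mod_cast hpos.ne'

end Pool.Agent.J4.H67.AS.NB67
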