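import Pool.Agent.J4.H67.AS.Defs
import Pool.Agent.J4.H67.REG.Int

set_option autoImplicit false

/-!
Piece Cont (helper35): continuity of the plane integrals with moving singularities.
-/

namespace Pool.Agent.J4.H67.AS.NCont

open MeasureTheory Set Filter Topology
open scoped ComplexConjugate
open Pool.Agent.J4.H67.REG (G0 integrable_G0 integrable_G0_sub)

namespace Contaux

lemma G0_pos {t : ℝ} (ht : 0 < t) : 0 < G0 t := by
  unfold G0
  positivity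

lemma G0_nonneg {t : ℝ} (ht : 0 ≤ t) : 0 ≤ G0 t := by
  unfold G0
  positivity

lemma G0_meas : Measurable G0 := by
  unfold G0
  fun_prop

lemma G0_cont {t : ℝ} (ht : 0 < t) : ContinuousAt G0 t := by
  unfold G0
  refine ContinuousAt.mul (Real.continuousAt_rpow_const _ _ (Or.inl ht.ne')) ?_
  refine ContinuousAt.inv₀ (by fun_prop) (by linarith)

/-- the comparison sum -/
noncomputable def SS (a : Fin 6 → ℂ) (x : ℂ) : ℝ := ∑ l, G0 ‖x - a l‖

lemma SS_pos {a : Fin 6 → ℂ} {x : ℂ} (hx : ∀ j, x ≠ a j) : 0 < SS a x := by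
  unfold SS
  exact Finset.sum_pos (fun l _ => G0_pos (norm_pos_iff.2 (sub_ne_zero.2 (hx l)))) Finset.univ_nonempty

lemma SS_meas (a : Fin 6 → ℂ) : Measurable (SS a) := by
  unfold SS
  exact Finset.measurable_fun_sum _ fun l _ => G0_meas.comp (by fun_prop)

lemma ae_ne (a : Fin 6 → ℂ) : ∀ᵐ x : ℂ, ∀ j, x ≠ a j := by
  rw [ae_all_iff]
  intro j
  exact compl_mem_ae_iff.2 (measure_singleton _)

/-- continuity of integrals with moving singularities -/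
theorem cont_gen (φ : (Fin 6 → ℂ) → ℂ → ℂ) (hm : ∀ a, Measurable (φ a)) (C : ℝ)
    (hb : ∀ a, Near a → ∀ x, (∀ j, x ≠ a j) → ‖φ a x‖ ≤ C * SS a x)
    (hc : ∀ x, (∀ j, x ≠ zk j) → ContinuousAt (fun p : (Fin 6 → ℂ) × ℂ => φ p.1 p.2) (zk, x)) :
    ContinuousAt (fun a => ∫ x, φ a x) zk := by
  have hnear : ∀ᶠ a in 𝓝 zk, Near a := by
    have h : Metric.closedBall zk (1 / 50) ∈ 𝓝 zk := Metric.closedBall_mem_nhds _ (by norm_num)
    filter_upwards [h] with a ha k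
    rw [Metric.mem_closedBall, dist_eq_norm] at ha
    exact (norm_le_pi_norm (a - zk) k).trans ha
  have hC : 0 ≤ C := by
    obtain ⟨x, hx⟩ := (ae_ne zk).exists
    have h1 := hb zk (fun k => by rw [sub_self, norm_zero]; norm_num) x hx
    have h2 := SS_pos hx
    by_contra h
    push Not at h
    have : C * SS zk x < 0 := mul_neg_of_neg_of_pos h h2
    linarith [norm_nonneg (φ zk x)]
  set h : (Fin 6 → ℂ) → ℂ → ℂ := fun a x => φ a x / (SS a x : ℂ) with hh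
  have hhm : ∀ a, Measurable (h a) := fun a => (hm a).div (Complex.measurable_ofReal.comp (SS_meas a))
  have hhb : ∀ a, Near a → ∀ x, (∀ j, x ≠ a j) → ‖h a x‖ ≤ C := by
    intro a ha x hx
    rw [hh]
    simp only
    rw [norm_div, Complex.norm_real, Real.norm_of_nonneg (SS_pos hx).le, div_le_iff₀ (SS_pos hx)]
    exact hb a ha x hx
  -- the decomposition
  have hdec : ∀ a, Near a → ∫ x, φ a x = ∑ k, ∫ x, h a (x + a k) * (G0 ‖x‖ : ℂ) := by
    intro a ha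
    have e1 : ∫ x, φ a x = ∫ x, ∑ k, h a x * (G0 ‖x - a k‖ : ℂ) := by
      refine integral_congr_ae ?_
      filter_upwards [ae_ne a] with x hx
      rw [← Finset.mul_sum, hh]
      simp only
      have h2 : (SS a x : ℂ) ≠ 0 := by exact_mod_cast (SS_pos hx).ne'
      have h3 : ∑ i, ((G0 ‖x - a i‖ : ℝ) : ℂ) = (SS a x : ℂ) := by
        unfold SS
        push_cast
        rfl
      rw [h3, div_mul_cancel₀ _ h2]
    rw [e1, integral_finsetSum]
    · refine Finset.sum_congr rfl fun k _ => ?_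
      rw [← integral_add_right_eq_self (fun x => h a x * (G0 ‖x - a k‖ : ℂ)) (a k)]
      simp only [add_sub_cancel_right]
    · intro k _
      refine Integrable.mono' ((integrable_G0_sub (a k)).const_mul C) ?_ ?_
      · exact ((hhm a).mul (Complex.measurable_ofReal.comp (G0_meas.comp (by fun_prop)))).aestronglyMeasurable
      · filter_upwards [ae_ne a] with x hx
        rw [norm_mul, Complex.norm_real, Real.norm_of_nonneg (G0_nonneg (norm_nonneg _))]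
        exact mul_le_mul_of_nonneg_right (hhb a ha x hx) (G0_nonneg (norm_nonneg _))
  have hEq : (fun a => ∫ x, φ a x) =ᶠ[𝓝 zk] fun a => ∑ k, ∫ x, h a (x + a k) * (G0 ‖x‖ : ℂ) := by
    filter_upwards [hnear] with a ha using hdec a ha
  refine ContinuousAt.congr ?_ hEq.symm
  refine tendsto_finsetSum _ fun k _ => ?_
  show ContinuousAt (fun a => ∫ x, h a (x + a k) * (G0 ‖x‖ : ℂ)) zk
  have hshift : ∀ a : Fin 6 → ℂ, ∀ᵐ x : ℂ, ∀ j, x + a k ≠ a j := by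
    intro a
    rw [ae_all_iff]
    intro j
    have : {x : ℂ | x + a k ≠ a j} = {a j - a k}ᶜ := by
      ext x
      simp only [mem_ofPred_eq, mem_compl_iff, mem_singleton_iff]
      rw [not_iff_not]
      constructor
      · intro h1; rw [← h1]; ring
      · intro h1; rw [h1]; ring
    show {x : ℂ | x + a k ≠ a j} ∈ ae volume
    rw [this]
    exact compl_mem_ae_iff.2 (measure_singleton _)
  refine continuousAt_of_dominated (bound := fun x => C * G0 ‖x‖) ?_ ?_ (integrable_G0.const_mul C) ?_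
  · refine Eventually.of_forall fun a => ?_
    exact (((hhm a).comp (by fun_prop)).mul (Complex.measurable_ofReal.comp
      (G0_meas.comp (by fun_prop)))).aestronglyMeasurable
  · filter_upwards [hnear] with a ha
    filter_upwards [hshift a] with x hx
    rw [norm_mul, Complex.norm_real, Real.norm_of_nonneg (G0_nonneg (norm_nonneg _))]
    exact mul_le_mul_of_nonneg_right (hhb a ha _ hx) (G0_nonneg (norm_nonneg _))
  · filter_upwards [hshift zk] with x hx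
    refine ContinuousAt.mul ?_ continuousAt_const
    have h1 : ContinuousAt (fun a : Fin 6 → ℂ => ((a, x + a k) : (Fin 6 → ℂ) × ℂ)) zk := by fun_prop
    have h2 : ContinuousAt (fun a : Fin 6 → ℂ => φ a (x + a k)) zk :=
      ContinuousAt.comp (f := fun a : Fin 6 → ℂ => ((a, x + a k) : (Fin 6 → ℂ) × ℂ))
        (g := fun p : (Fin 6 → ℂ) × ℂ => φ p.1 p.2) (hc _ hx) h1
    have h3 : ContinuousAt (fun a : Fin 6 → ℂ => SS a (x + a k)) zk := by
      unfold SS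
      refine tendsto_finsetSum _ fun l _ => ?_
      have h4 : ContinuousAt (fun a : Fin 6 → ℂ => ‖x + a k - a l‖) zk := by fun_prop
      exact ContinuousAt.comp (f := fun a : Fin 6 → ℂ => ‖x + a k - a l‖) (g := G0)
        (G0_cont (norm_pos_iff.2 (sub_ne_zero.2 (hx l)))) h4
    refine h2.div (Complex.continuous_ofReal.continuousAt.comp h3) ?_
    exact_mod_cast (SS_pos hx).ne'


/-! ### The six roots -/

lemma sq3 : Real.sqrt 3 * Real.sqrt 3 = 3 := Real.mul_self_sqrt (by norm_num)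

lemma norm_of_sq {z : ℂ} {r : ℝ} (hr : 0 ≤ r) (h : z.re * z.re + z.im * z.im = r * r) : ‖z‖ = r := by
  rw [Complex.norm_def, Complex.normSq_apply, h, Real.sqrt_mul_self hr]

lemma norm_ge_of_sq {z : ℂ} (h : 1 ≤ z.re * z.re + z.im * z.im) : 1 ≤ ‖z‖ := by
  rw [Complex.norm_def, Complex.normSq_apply]
  exact Real.one_le_sqrt.2 h

lemma norm_zt : ‖zt‖ = 1 := by
  refine norm_of_sq zero_le_one ?_
  show (1 / 2 : ℝ) * (1 / 2) + (Real.sqrt 3 / 2) * (Real.sqrt 3 / 2) = 1 * 1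
  nlinarith [sq3]

lemma zt_sq : zt ^ 2 = zt - 1 := by
  rw [pow_two]
  apply Complex.ext
  · show (1 / 2 : ℝ) * (1 / 2) - (Real.sqrt 3 / 2) * (Real.sqrt 3 / 2) = 1 / 2 - 1
    nlinarith [sq3]
  · show (1 / 2 : ℝ) * (Real.sqrt 3 / 2) + (Real.sqrt 3 / 2) * (1 / 2) = Real.sqrt 3 / 2 - 0
    ring

lemma zt_cube : zt ^ 3 = -1 := by
  have : zt ^ 3 = zt ^ 2 * zt := by ring
  rw [this, zt_sq]
  have e : (zt - 1) * zt = zt ^ 2 - zt := by ring
  rw [e, zt_sq]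
  ring

lemma norm_zk (k : Fin 6) : ‖zk k‖ = 1 := by
  unfold zk
  rw [norm_pow, norm_zt, one_pow]

lemma zt_pow_sub (d : ℕ) (h1 : 1 ≤ d) (h5 : d ≤ 5) : 1 ≤ ‖zt ^ d - 1‖ := by
  have h2 := zt_sq
  have h3 := zt_cube
  interval_cases d
  · rw [pow_one, ← h2, norm_pow, norm_zt, one_pow]
  · rw [h2]
    refine norm_ge_of_sq ?_
    show (1 : ℝ) ≤ (1 / 2 - 1 - 1) * (1 / 2 - 1 - 1) + (Real.sqrt 3 / 2 - 0 - 0) * (Real.sqrt 3 / 2 - 0 - 0)
    nlinarith [sq3]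
  · rw [h3]
    norm_num
  · have e : zt ^ 4 = -zt := by
      rw [show zt ^ 4 = zt ^ 3 * zt by ring, h3]; ring
    rw [e]
    refine norm_ge_of_sq ?_
    show (1 : ℝ) ≤ (-(1 / 2) - 1) * (-(1 / 2) - 1) + (-(Real.sqrt 3 / 2) - 0) * (-(Real.sqrt 3 / 2) - 0)
    nlinarith [sq3]
  · have e : zt ^ 5 - 1 = -zt := by
      rw [show zt ^ 5 = zt ^ 3 * zt ^ 2 by ring, h3, h2]; ring
    rw [e, norm_neg, norm_zt]

lemma zk_sep {j l : Fin 6} (h : j ≠ l) : 1 ≤ ‖zk j - zk l‖ := by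
  wlog hlt : l < j generalizing j l with H
  · rw [norm_sub_rev]
    exact H h.symm (lt_of_le_of_ne (not_lt.1 hlt) h)
  unfold zk
  have hl : (l : ℕ) < j := hlt
  have e : zt ^ (j : ℕ) - zt ^ (l : ℕ) = zt ^ (l : ℕ) * (zt ^ ((j : ℕ) - l) - 1) := by
    rw [mul_sub, mul_one, ← pow_add]
    congr 2
    omega
  rw [e, norm_mul, norm_pow, norm_zt, one_pow, one_mul]
  exact zt_pow_sub _ (by omega) (by omega)

section

variable {a : Fin 6 → ℂ}

lemma near_norm (ha : Near a) (k : Fin 6) : ‖a k‖ ≤ 51 / 50 := by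
  have h1 := ha k
  have h2 : ‖a k‖ ≤ ‖a k - zk k‖ + ‖zk k‖ := by
    have := norm_add_le (a k - zk k) (zk k)
    rwa [sub_add_cancel] at this
  rw [norm_zk] at h2
  linarith

lemma near_ne (ha : Near a) (k : Fin 6) : a k ≠ 0 := by
  intro h
  have h1 := ha k
  rw [h, zero_sub, norm_neg, norm_zk] at h1
  norm_num at h1

lemma near_sep (ha : Near a) {j l : Fin 6} (h : j ≠ l) : 24 / 25 ≤ ‖a j - a l‖ := by
  have h1 := ha j
  have h2 := ha l
  have h3 := zk_sep h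
  have e : zk j - zk l = (a j - a l) - (a j - zk j) + (a l - zk l) := by ring
  have h4 : ‖zk j - zk l‖ ≤ ‖a j - a l‖ + ‖a j - zk j‖ + ‖a l - zk l‖ := by
    rw [e]
    exact (norm_add_le _ _).trans (add_le_add (norm_sub_le _ _) le_rfl)
  linarith

lemma far (ha : Near a) {x : ℂ} {j l : Fin 6} (h : j ≠ l) (hl : ‖x - a l‖ ≤ ‖x - a j‖) :
    12 / 25 ≤ ‖x - a j‖ ∧ 1 + ‖x‖ ≤ 6 * ‖x - a j‖ := by
  have h1 := near_sep ha h
  have h2 : ‖a j - a l‖ ≤ ‖x - a l‖ + ‖x - a j‖ := by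
    have e : a j - a l = (x - a l) - (x - a j) := by ring
    rw [e]
    exact norm_sub_le _ _
  have h3 : ‖x‖ ≤ ‖x - a j‖ + ‖a j‖ := by
    have := norm_add_le (x - a j) (a j)
    rwa [sub_add_cancel] at this
  have h4 := near_norm ha j
  constructor <;> linarith

lemma norm_Pa (a : Fin 6 → ℂ) (h0 : ∀ j, a j ≠ 0) (x : ℂ) : ‖Pa a x‖ = ∏ j, (‖x - a j‖ / ‖a j‖) := by
  unfold Pa
  rw [norm_prod]
  refine Finset.prod_congr rfl fun j _ => ?_
  rw [← norm_div, ← norm_neg]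
  congr 1
  field_simp [h0 j]
  ring

lemma Pa_ge (ha : Near a) {x : ℂ} (l : Fin 6) (hl : ∀ j, ‖x - a l‖ ≤ ‖x - a j‖) :
    ‖x - a l‖ * (1 + ‖x‖) ^ 5 ≤ 15552 * ‖Pa a x‖ := by
  have h0 := near_ne ha
  rw [norm_Pa a h0 x, ← Finset.mul_prod_erase _ _ (Finset.mem_univ l)]
  have h1 : ∀ j ∈ Finset.univ.erase l, (1 + ‖x‖) / (6 * (51 / 50)) ≤ ‖x - a j‖ / ‖a j‖ := by
    intro j hj
    have hne := (Finset.mem_erase.1 hj).1
    have h2 := (far ha hne (hl j)).2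
    have h3 := near_norm ha j
    have h4 : 0 < ‖a j‖ := norm_pos_iff.2 (h0 j)
    rw [div_le_div_iff₀ (by norm_num) h4]
    nlinarith [norm_nonneg x, norm_nonneg (x - a j)]
  have h2 : ∏ _j ∈ Finset.univ.erase l, (1 + ‖x‖) / (6 * (51 / 50)) ≤
      ∏ j ∈ Finset.univ.erase l, (‖x - a j‖ / ‖a j‖) :=
    Finset.prod_le_prod (fun j _ => by positivity) h1
  rw [Finset.prod_const, Finset.card_erase_of_mem (Finset.mem_univ l), Finset.card_univ, Fintype.card_fin] at h2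
  have h3 : ‖x - a l‖ * (50 / 51) ≤ ‖x - a l‖ / ‖a l‖ := by
    have h4 : 0 < ‖a l‖ := norm_pos_iff.2 (h0 l)
    rw [le_div_iff₀ h4]
    have h5 := near_norm ha l
    nlinarith [norm_nonneg (x - a l)]
  have h6 : (0 : ℝ) ≤ ((1 + ‖x‖) / (6 * (51 / 50))) ^ 5 := by positivity
  have h7 := mul_le_mul h3 h2 h6 (by positivity)
  have e : ‖x - a l‖ * (50 / 51) * ((1 + ‖x‖) / (6 * (51 / 50))) ^ (6 - 1) =
      ‖x - a l‖ * (1 + ‖x‖) ^ 5 * ((50 / 51) ^ 6 / 7776) := by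
    rw [show 6 - 1 = 5 from rfl, div_pow]
    ring
  rw [e] at h7
  have h8 : (1 / 2 : ℝ) / 7776 ≤ (50 / 51) ^ 6 / 7776 := by norm_num
  have h9 : 0 ≤ ‖x - a l‖ * (1 + ‖x‖) ^ 5 := by positivity
  nlinarith [mul_le_mul_of_nonneg_left h8 h9]

/-- the majorant of the weights -/
noncomputable def wg (r : ℝ) : ℝ := 2 * (r ^ (1 / 2 : ℝ) + r ^ (-(1 / 2) : ℝ))

lemma one_le_wg {r : ℝ} (hr : 0 < r) : 1 ≤ wg r := by
  unfold wg
  have h1 : 0 < r ^ (1 / 2 : ℝ) := by positivity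
  have h2 : 0 < r ^ (-(1 / 2) : ℝ) := by positivity
  rcases le_total 1 r with h | h
  · have := Real.one_le_rpow h (by norm_num : (0 : ℝ) ≤ 1 / 2)
    linarith
  · have := Real.one_le_rpow_of_pos_of_le_one_of_nonpos hr h (by norm_num : (-(1 / 2) : ℝ) ≤ 0)
    linarith

lemma log_le_wg {r : ℝ} (hr : 0 < r) : |Real.log r| ≤ wg r := by
  unfold wg
  have h1 : 0 < r ^ (1 / 2 : ℝ) := by positivity
  have h2 : 0 < r ^ (-(1 / 2) : ℝ) := by positivity
  have e1 : Real.log (r ^ (1 / 2 : ℝ)) = 1 / 2 * Real.log r := Real.log_rpow hr _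
  have e2 : Real.log (r ^ (-(1 / 2) : ℝ)) = -(1 / 2) * Real.log r := Real.log_rpow hr _
  have h3 := Real.log_le_sub_one_of_pos h1
  have h4 := Real.log_le_sub_one_of_pos h2
  rw [e1] at h3
  rw [e2] at h4
  rw [abs_le]
  constructor <;> linarith

lemma wg_mid {r X : ℝ} (h1 : 12 / 25 ≤ r) (h2 : r ≤ 3 * X) (hX : 1 ≤ X) : wg r ≤ 14 * X := by
  have hr : 0 < r := by linarith
  unfold wg
  have h3 : r ^ (1 / 2 : ℝ) ≤ 1 + r := by
    rw [← Real.sqrt_eq_rpow, Real.sqrt_le_left (by linarith)]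
    nlinarith
  have h4 : r ^ (-(1 / 2) : ℝ) ≤ 3 := by
    have h5 : r ^ (-(1 / 2) : ℝ) ≤ (12 / 25 : ℝ) ^ (-(1 / 2) : ℝ) :=
      Real.rpow_le_rpow_of_nonpos (by norm_num) h1 (by norm_num)
    refine h5.trans ?_
    rw [Real.rpow_neg (by norm_num), ← Real.sqrt_eq_rpow]
    have h6 : (1 / 3 : ℝ) ≤ Real.sqrt (12 / 25) := by
      rw [Real.le_sqrt (by norm_num) (by norm_num)]
      norm_num
    have h7 := inv_anti₀ (by norm_num : (0 : ℝ) < 1 / 3) h6
    norm_num at h7 ⊢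
    exact h7
  linarith

lemma wg_G0 {d : ℝ} (hd : 0 < d) : wg d * d⁻¹ = 2 * (d ^ (-(3 / 2) : ℝ) * (1 + d)) := by
  unfold wg
  have e1 : d ^ (1 / 2 : ℝ) * d⁻¹ = d ^ (-(3 / 2) : ℝ) * d := by
    rw [← Real.rpow_neg_one d, ← Real.rpow_add hd]
    conv_rhs => rw [← Real.rpow_one d, ← Real.rpow_mul hd.le, ← Real.rpow_add hd]
    norm_num
  have e2 : d ^ (-(1 / 2) : ℝ) * d⁻¹ = d ^ (-(3 / 2) : ℝ) := by
    rw [← Real.rpow_neg_one d, ← Real.rpow_add hd]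
    norm_num
  calc 2 * (d ^ (1 / 2 : ℝ) + d ^ (-(1 / 2) : ℝ)) * d⁻¹ =
      2 * (d ^ (1 / 2 : ℝ) * d⁻¹ + d ^ (-(1 / 2) : ℝ) * d⁻¹) := by ring
    _ = _ := by rw [e1, e2]; ring

/-- the majorant -/
lemma major (ha : Near a) {x : ℂ} (hx : ∀ j, x ≠ a j) (i : Fin 6) {w : ℝ} (hw : |w| ≤ wg ‖x - a i‖) (m n : Fin 2) :
    |w| * (‖x‖ ^ (m : ℕ) * ‖x‖ ^ (n : ℕ) / ‖Pa a x‖) ≤ 10 ^ 8 * SS a x := by
  obtain ⟨l, -, hl⟩ := Finset.exists_min_image Finset.univ (fun j => ‖x - a j‖) Finset.univ_nonempty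
  have hl' : ∀ j, ‖x - a l‖ ≤ ‖x - a j‖ := fun j => hl j (Finset.mem_univ j)
  have hd : 0 < ‖x - a l‖ := norm_pos_iff.2 (sub_ne_zero.2 (hx l))
  set d := ‖x - a l‖ with hdd
  set X := 1 + ‖x‖ with hX
  have hX1 : 1 ≤ X := by have := norm_nonneg x; linarith
  have hX0 : 0 < X := by linarith
  have hP := Pa_ge ha l hl'
  have hPpos : 0 < ‖Pa a x‖ := by
    have : 0 < d * X ^ 5 := by positivity
    linarith
  have hdX : 1 + d ≤ 3 * X := by
    have h1 : d ≤ ‖x‖ + ‖a l‖ := norm_sub_le _ _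
    have h2 := near_norm ha l
    linarith
  have hxm : ∀ m : Fin 2, ‖x‖ ^ (m : ℕ) ≤ X := by
    intro m
    fin_cases m
    · simpa using hX1
    · simp only [pow_one]
      linarith
  have h1 : ‖x‖ ^ (m : ℕ) * ‖x‖ ^ (n : ℕ) / ‖Pa a x‖ ≤ 15552 * (d⁻¹ * (X ^ 3)⁻¹) := by
    rw [div_le_iff₀ hPpos]
    have h2 : ‖x‖ ^ (m : ℕ) * ‖x‖ ^ (n : ℕ) ≤ X ^ 2 := by
      rw [pow_two]
      exact mul_le_mul (hxm m) (hxm n) (by positivity) hX0.le
    refine h2.trans ?_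
    have e : 15552 * (d⁻¹ * (X ^ 3)⁻¹) * ‖Pa a x‖ = (d⁻¹ * (X ^ 3)⁻¹) * (15552 * ‖Pa a x‖) := by ring
    rw [e]
    calc X ^ 2 = (d⁻¹ * (X ^ 3)⁻¹) * (d * X ^ 5) := by field_simp
      _ ≤ (d⁻¹ * (X ^ 3)⁻¹) * (15552 * ‖Pa a x‖) := mul_le_mul_of_nonneg_left hP (by positivity)
  have hG : G0 d ≤ SS a x := by
    unfold SS
    exact Finset.single_le_sum (f := fun j => G0 ‖x - a j‖) (fun j _ => G0_nonneg (norm_nonneg _)) (Finset.mem_univ l)
  have hG0 : G0 d = d ^ (-(3 / 2) : ℝ) * (1 + d)⁻¹ := rfl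
  have hd32 : 0 < d ^ (-(3 / 2) : ℝ) := by positivity
  have hinv : X⁻¹ ≤ 3 * (1 + d)⁻¹ := by
    rw [inv_eq_one_div, inv_eq_one_div, ← mul_div_assoc, div_le_div_iff₀ hX0 (by positivity)]
    linarith
  have key : wg ‖x - a i‖ * (d⁻¹ * (X ^ 3)⁻¹) ≤ 200 * G0 d := by
    by_cases hil : i = l
    · rw [hil, ← hdd, ← mul_assoc, wg_G0 hd, hG0]
      calc 2 * (d ^ (-(3 / 2) : ℝ) * (1 + d)) * (X ^ 3)⁻¹ ≤ 2 * (d ^ (-(3 / 2) : ℝ) * (3 * X)) * (X ^ 3)⁻¹ := by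
            gcongr
        _ = 6 * d ^ (-(3 / 2) : ℝ) * (X⁻¹ * X⁻¹) := by field_simp; ring
        _ ≤ 6 * d ^ (-(3 / 2) : ℝ) * (1 * (3 * (1 + d)⁻¹)) := by
            gcongr
            exact inv_le_one_of_one_le₀ hX1
        _ = 18 * (d ^ (-(3 / 2) : ℝ) * (1 + d)⁻¹) := by ring
        _ ≤ 200 * (d ^ (-(3 / 2) : ℝ) * (1 + d)⁻¹) := by
            have : 0 < d ^ (-(3 / 2) : ℝ) * (1 + d)⁻¹ := by positivity
            linarith
    · have h2 := (far ha hil (hl' i)).1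
      have h3 : ‖x - a i‖ ≤ 3 * X := by
        have h4 : ‖x - a i‖ ≤ ‖x‖ + ‖a i‖ := norm_sub_le _ _
        have h5 := near_norm ha i
        linarith
      have h4 := wg_mid h2 h3 hX1
      have h5 : d⁻¹ = d ^ (-(3 / 2) : ℝ) * d ^ (1 / 2 : ℝ) := by
        rw [← Real.rpow_neg_one d, ← Real.rpow_add hd]
        norm_num
      have h6 : d ^ (1 / 2 : ℝ) ≤ 3 * X := by
        refine le_trans ?_ hdX
        rw [← Real.sqrt_eq_rpow, Real.sqrt_le_left (by linarith)]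
        nlinarith
      rw [hG0]
      calc wg ‖x - a i‖ * (d⁻¹ * (X ^ 3)⁻¹) ≤ (14 * X) * ((d ^ (-(3 / 2) : ℝ) * (3 * X)) * (X ^ 3)⁻¹) := by
            rw [h5]
            gcongr
        _ = 42 * d ^ (-(3 / 2) : ℝ) * X⁻¹ := by field_simp; ring
        _ ≤ 42 * d ^ (-(3 / 2) : ℝ) * (3 * (1 + d)⁻¹) := by gcongr
        _ = 126 * (d ^ (-(3 / 2) : ℝ) * (1 + d)⁻¹) := by ring
        _ ≤ 200 * (d ^ (-(3 / 2) : ℝ) * (1 + d)⁻¹) := by
            have : 0 < d ^ (-(3 / 2) : ℝ) * (1 + d)⁻¹ := by positivity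
            linarith
  have hw0 : 0 ≤ wg ‖x - a i‖ := (abs_nonneg w).trans hw
  calc |w| * (‖x‖ ^ (m : ℕ) * ‖x‖ ^ (n : ℕ) / ‖Pa a x‖) ≤ wg ‖x - a i‖ * (15552 * (d⁻¹ * (X ^ 3)⁻¹)) :=
        mul_le_mul hw h1 (by positivity) hw0
    _ = 15552 * (wg ‖x - a i‖ * (d⁻¹ * (X ^ 3)⁻¹)) := by ring
    _ ≤ 15552 * (200 * G0 d) := by gcongr
    _ ≤ 10 ^ 8 * SS a x := by
        have : 0 ≤ G0 d := G0_nonneg hd.le
        linarith

end

lemma meas_int (a : Fin 6 → ℂ) (m n : Fin 2) :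
    Measurable fun x : ℂ => x ^ (m : ℕ) * conj x ^ (n : ℕ) / (‖Pa a x‖ : ℂ) := by
  unfold Pa
  have hc : Continuous fun x : ℂ => ∏ j, (1 - x / a j) := by fun_prop
  have hcj : Continuous fun x : ℂ => conj x := Complex.continuous_conj
  exact ((measurable_id.pow_const _).mul (hcj.measurable.pow_const _)).div
    (Complex.measurable_ofReal.comp hc.norm.measurable)

lemma cont_int (m n : Fin 2) {x : ℂ} (hx : ∀ j, x ≠ zk j) :
    ContinuousAt (fun p : (Fin 6 → ℂ) × ℂ => p.2 ^ (m : ℕ) * conj p.2 ^ (n : ℕ) / (‖Pa p.1 p.2‖ : ℂ)) (zk, x) := by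
  have h0 : ∀ j, zk j ≠ 0 := fun j h => by
    have := norm_zk j
    rw [h, norm_zero] at this
    norm_num at this
  have hP : ContinuousAt (fun p : (Fin 6 → ℂ) × ℂ => Pa p.1 p.2) (zk, x) := by
    unfold Pa
    refine tendsto_finsetProd _ fun j _ => ?_
    have h1 : ContinuousAt (fun p : (Fin 6 → ℂ) × ℂ => p.2) (zk, x) := by fun_prop
    have h2 : ContinuousAt (fun p : (Fin 6 → ℂ) × ℂ => p.1 j) (zk, x) := by fun_prop
    exact (continuousAt_const (y := (1 : ℂ))).sub (h1.div h2 (h0 j))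
  have hne : (‖Pa zk x‖ : ℂ) ≠ 0 := by
    have : ‖Pa zk x‖ ≠ 0 := by
      rw [norm_Pa zk h0 x]
      refine Finset.prod_ne_zero_iff.2 fun j _ => ?_
      exact div_ne_zero (norm_ne_zero_iff.2 (sub_ne_zero.2 (hx j))) (norm_ne_zero_iff.2 (h0 j))
    exact_mod_cast this
  have h2 : ContinuousAt (fun p : (Fin 6 → ℂ) × ℂ => p.2 ^ (m : ℕ) * conj p.2 ^ (n : ℕ)) (zk, x) := by
    have h3 : Continuous fun p : (Fin 6 → ℂ) × ℂ => conj p.2 := Complex.continuous_conj.comp continuous_snd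
    exact ((continuous_snd.pow _).mul (h3.pow _)).continuousAt
  exact h2.div (Complex.continuous_ofReal.continuousAt.comp hP.norm) hne

lemma norm_int (a : Fin 6 → ℂ) (m n : Fin 2) (x : ℂ) :
    ‖x ^ (m : ℕ) * conj x ^ (n : ℕ) / (‖Pa a x‖ : ℂ)‖ = ‖x‖ ^ (m : ℕ) * ‖x‖ ^ (n : ℕ) / ‖Pa a x‖ := by
  rw [norm_div, norm_mul, norm_pow, norm_pow, RCLike.norm_conj, Complex.norm_real, norm_norm]

end Contaux

open Contaux

theorem U0_cont (m n : Fin 2) : ContinuousAt (fun a => U0 a m n) zk := by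
  unfold U0
  refine cont_gen (fun a x => x ^ (m : ℕ) * conj x ^ (n : ℕ) / (‖Pa a x‖ : ℂ)) (fun a => meas_int a m n) (10 ^ 8)
    (fun a ha x hx => ?_) (fun x hx => cont_int m n hx)
  rw [norm_int]
  have h := major ha hx 0 (w := 1) (by
    rw [abs_one]
    exact one_le_wg (norm_pos_iff.2 (sub_ne_zero.2 (hx 0)))) m n
  rwa [abs_one, one_mul] at h

theorem U_cont (i : Fin 6) (m n : Fin 2) : ContinuousAt (fun a => U a i m n) zk := by
  unfold U
  refine cont_gen (fun a x => (Real.log ‖x - a i‖ : ℂ) * (x ^ (m : ℕ) * conj x ^ (n : ℕ) / (‖Pa a x‖ : ℂ)))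
    (fun a => ?_) (10 ^ 8) (fun a ha x hx => ?_) (fun x hx => ?_)
  · refine (Complex.measurable_ofReal.comp (Real.measurable_log.comp ?_)).mul (meas_int a m n)
    fun_prop
  · rw [norm_mul, norm_int, Complex.norm_real, Real.norm_eq_abs]
    exact major ha hx i (log_le_wg (norm_pos_iff.2 (sub_ne_zero.2 (hx i)))) m n
  · refine ContinuousAt.mul ?_ (cont_int m n hx)
    refine Complex.continuous_ofReal.continuousAt.comp ?_
    have h1 : ContinuousAt (fun p : (Fin 6 → ℂ) × ℂ => ‖p.2 - p.1 i‖) (zk, x) := by fun_prop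
    exact ContinuousAt.comp (f := fun p : (Fin 6 → ℂ) × ℂ => ‖p.2 - p.1 i‖) (g := Real.log)
      (Real.continuousAt_log (norm_ne_zero_iff.2 (sub_ne_zero.2 (hx i)))) h1

end Pool.Agent.J4.H67.AS.NCont
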