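import Pool.Agent.J4.H67.AS.RegCalc
set_option autoImplicit false

/-!
The cycles: two translates of the curve with the function `(x - a_i) / (x - a_j)`, and a constant function.
-/

namespace Pool.Agent.J4.H67.AS

open MeasureTheory Set Polynomial
open scoped ComplexConjugate

variable {a : Fin 6 → ℂ} {Λ : AddSubgroup (Fin 2 → ℂ)}

/-- the exponents of `(x - r) / (x - s)` -/
noncomputable def expo (r s : ℂ) : ℂ →₀ ℤ := Finsupp.single r 1 + Finsupp.single s (-1)

lemma expo_sum {A : Type} [AddCommGroup A] (r s : ℂ) (h : ℂ → ℤ → A) (h0 : ∀ x, h x 0 = 0)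
    (hadd : ∀ x b c, h x (b + c) = h x b + h x c) : (expo r s).sum h = h r 1 + h s (-1) := by
  unfold expo
  rw [Finsupp.sum_add_index' h0 hadd, Finsupp.sum_single_index (h0 r), Finsupp.sum_single_index (h0 s)]

/-- a curve with the function `(x - a_i) / (x - a_j)` -/
noncomputable def mkFn (ha : Near a) (M : Matrix (Fin 2) (Fin 2) ℂ) (u : ℂ × ℂ → (Fin 2 → ℂ) ⧸ Λ)
    (hu : IsIntegral Λ (Pp a) M u) (i j : Fin 6) : CurveFn Λ where
  P := Pp a
  natDegree_eq := Pp_natDegree (near_ne ha)
  squarefree := Pp_squarefree (near_ne ha) (near_inj ha)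
  M := M
  u := u
  integral := hu
  c := 1
  c_ne := one_ne_zero
  n := expo (a i) (a j)
  roots := by
    intro r hr
    have h1 : r = a i ∨ r = a j := by
      by_contra hcon
      push Not at hcon
      rw [Finsupp.mem_support_iff] at hr
      apply hr
      rw [expo, Finsupp.add_apply, Finsupp.single_eq_of_ne hcon.1, Finsupp.single_eq_of_ne hcon.2, add_zero]
    rcases h1 with rfl | rfl
    · exact Pp_root (near_ne ha) i
    · exact Pp_root (near_ne ha) j
  sum_zero := by
    rw [expo_sum _ _ _ (fun _ => rfl) (fun _ _ _ => rfl)]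
    norm_num

lemma mkFn_div (ha : Near a) (M : Matrix (Fin 2) (Fin 2) ℂ) (u : ℂ × ℂ → (Fin 2 → ℂ) ⧸ Λ)
    (hu : IsIntegral Λ (Pp a) M u) (i j : Fin 6) :
    (mkFn ha M u hu i j).div = Finsupp.single (u (a i, 0)) 2 + Finsupp.single (u (a j, 0)) (-2) := by
  unfold CurveFn.div
  have e : (mkFn ha M u hu i j).n = expo (a i) (a j) := rfl
  have e2 : (mkFn ha M u hu i j).u = u := rfl
  rw [e, e2, expo_sum]
  · norm_num
  · intro x
    simp
  · intro x b c
    rw [mul_add, Finsupp.single_add]

lemma mkFn_reg (ha : Near a) (M : Matrix (Fin 2) (Fin 2) ℂ) (u : ℂ × ℂ → (Fin 2 → ℂ) ⧸ Λ)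
    (hu : IsIntegral Λ (Pp a) M u) (i j : Fin 6) :
    (mkFn ha M u hu i j).reg = (2 : ℂ) • (M * (Um a i - Um a j) * M.conjTranspose) := by
  have hlog : ∀ x, (mkFn ha M u hu i j).logAbs x = Real.log ‖x - a i‖ - Real.log ‖x - a j‖ := by
    intro x
    unfold CurveFn.logAbs
    have e : (mkFn ha M u hu i j).n = expo (a i) (a j) := rfl
    have e2 : (mkFn ha M u hu i j).c = 1 := rfl
    rw [e, e2, expo_sum]
    · simp
      ring
    · intro x
      simp
    · intro x b c
      push_cast
      ring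
  have h := reg_general M (fun x => Real.log ‖x - a i‖ - Real.log ‖x - a j‖) (Pa a) (Um a i - Um a j)
    (by
      intro m n
      have := (integrable_U ha i m n).sub (integrable_U ha j m n)
      refine this.congr (Filter.Eventually.of_forall fun x => ?_)
      simp only [Pi.sub_apply]
      push_cast
      ring)
    (by
      intro m n
      have e : ∀ x : ℂ, ((Real.log ‖x - a i‖ - Real.log ‖x - a j‖ : ℝ) : ℂ) * (x ^ (m : ℕ) * conj x ^ (n : ℕ) / (‖Pa a x‖ : ℂ)) =
          (Real.log ‖x - a i‖ : ℂ) * (x ^ (m : ℕ) * conj x ^ (n : ℕ) / (‖Pa a x‖ : ℂ)) -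
          (Real.log ‖x - a j‖ : ℂ) * (x ^ (m : ℕ) * conj x ^ (n : ℕ) / (‖Pa a x‖ : ℂ)) := by
        intro x
        push_cast
        ring
      simp only [e]
      rw [integral_sub (integrable_U ha i m n) (integrable_U ha j m n)]
      rfl)
  rw [← h]
  unfold CurveFn.reg
  have e3 : (mkFn ha M u hu i j).P = Pp a := rfl
  have e4 : (mkFn ha M u hu i j).M = M := rfl
  simp only [hlog, e3, e4, Pp_eval]

theorem exists_cycle (ha : Near a) (M : Matrix (Fin 2) (Fin 2) ℂ)
    (hmap : ∀ i, ∃ u : ℂ × ℂ → (Fin 2 → ℂ) ⧸ Λ, IsIntegral Λ (Pp a) M u ∧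
      ∀ l, u (a l, 0) = QuotientAddGroup.mk (M.mulVec (fun j => ga a i j 0 - ga a l j 0)))
    (hper : ∀ k l, M.mulVec (fun j => 2 * (ga a k j 0 - ga a l j 0)) ∈ Λ) (i j : Fin 6) :
    ∃ l : List (CurveFn Λ), (l.map CurveFn.div).sum = 0 ∧
      (l.map CurveFn.reg).sum = (4 : ℂ) • (M * (Um a i - Um a j) * M.conjTranspose) := by
  obtain ⟨u, hu, hu'⟩ := hmap i
  obtain ⟨v, hv, hv'⟩ := hmap j
  refine ⟨[mkFn ha M u hu i j, mkFn ha M v hv i j], ?_, ?_⟩
  · simp only [List.map_cons, List.map_nil, List.sum_cons, List.sum_nil, mkFn_div]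
    have e1 : u (a i, 0) = 0 := by
      rw [hu']
      simp only [sub_self]
      have : M.mulVec (fun _ => (0 : ℂ)) = 0 := Matrix.mulVec_zero M
      rw [this]
      rfl
    have e2 : v (a j, 0) = 0 := by
      rw [hv']
      simp only [sub_self]
      have : M.mulVec (fun _ => (0 : ℂ)) = 0 := Matrix.mulVec_zero M
      rw [this]
      rfl
    have e3 : u (a j, 0) = v (a i, 0) := by
      rw [hu', hv', QuotientAddGroup.eq]
      have h := hper j i
      have e : -M.mulVec (fun m => ga a i m 0 - ga a j m 0) + M.mulVec (fun m => ga a j m 0 - ga a i m 0) =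
          M.mulVec (fun m => 2 * (ga a j m 0 - ga a i m 0)) := by
        rw [← Matrix.mulVec_neg, ← Matrix.mulVec_add]
        congr 1
        ext m
        simp only [Pi.add_apply, Pi.neg_apply]
        ring
      rw [e]
      exact h
    rw [e1, e2, e3]
    have e4 : (Finsupp.single (0 : (Fin 2 → ℂ) ⧸ Λ) (-2) : ((Fin 2 → ℂ) ⧸ Λ) →₀ ℤ) = - Finsupp.single 0 2 := by
      rw [← Finsupp.single_neg]
    have e5 : (Finsupp.single (v (a i, 0)) (-2) : ((Fin 2 → ℂ) ⧸ Λ) →₀ ℤ) = - Finsupp.single (v (a i, 0)) 2 := by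
      rw [← Finsupp.single_neg]
    rw [e4, e5]
    abel
  · simp only [List.map_cons, List.map_nil, List.sum_cons, List.sum_nil, mkFn_reg, add_zero]
    rw [← add_smul]
    norm_num

/-- a curve with a constant function -/
noncomputable def mkConst (ha : Near a) (M : Matrix (Fin 2) (Fin 2) ℂ) (u : ℂ × ℂ → (Fin 2 → ℂ) ⧸ Λ)
    (hu : IsIntegral Λ (Pp a) M u) : CurveFn Λ where
  P := Pp a
  natDegree_eq := Pp_natDegree (near_ne ha)
  squarefree := Pp_squarefree (near_ne ha) (near_inj ha)
  M := M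
  u := u
  integral := hu
  c := (Real.exp 1 : ℂ)
  c_ne := by
    exact_mod_cast (Real.exp_pos 1).ne'
  n := 0
  roots := by
    intro r hr
    simp at hr
  sum_zero := Finsupp.sum_zero_index

theorem exists_cycle0 (ha : Near a) (M : Matrix (Fin 2) (Fin 2) ℂ) (u : ℂ × ℂ → (Fin 2 → ℂ) ⧸ Λ)
    (hu : IsIntegral Λ (Pp a) M u) :
    ∃ l : List (CurveFn Λ), (l.map CurveFn.div).sum = 0 ∧
      (l.map CurveFn.reg).sum = (2 : ℂ) • (M * U0m a * M.conjTranspose) := by
  refine ⟨[mkConst ha M u hu], ?_, ?_⟩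
  · simp only [List.map_cons, List.map_nil, List.sum_cons, List.sum_nil, add_zero, CurveFn.div]
    exact Finsupp.sum_zero_index
  · simp only [List.map_cons, List.map_nil, List.sum_cons, List.sum_nil, add_zero]
    have hlog : ∀ x, (mkConst ha M u hu).logAbs x = 1 := by
      intro x
      have e : (mkConst ha M u hu).n = 0 := rfl
      have e2 : (mkConst ha M u hu).c = (Real.exp 1 : ℂ) := rfl
      unfold CurveFn.logAbs
      rw [e, e2, Finsupp.sum_zero_index, Complex.norm_real, Real.norm_eq_abs, abs_of_pos (Real.exp_pos 1), Real.log_exp,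
        add_zero]
    have h := reg_general M (fun _ => 1) (Pa a) (U0m a)
      (by
        intro m n
        have := integrable_U0 ha m n
        refine this.congr (Filter.Eventually.of_forall fun x => ?_)
        simp)
      (by
        intro m n
        simp only [Complex.ofReal_one, one_mul]
        rfl)
    rw [← h]
    unfold CurveFn.reg
    have e3 : (mkConst ha M u hu).P = Pp a := rfl
    have e4 : (mkConst ha M u hu).M = M := rfl
    simp only [hlog, e3, e4, Pp_eval]

end Pool.Agent.J4.H67.AS
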