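import Mathlib
set_option autoImplicit false

/-!
Shared definitions for the theorem on abelian surfaces (MP_b2b689_ag.AbelianSurfaces).
-/

namespace Pool.Agent.J4.H67.AS

open MeasureTheory Set
open scoped ComplexConjugate

/-- primitive sixth root of unity `e^{i pi/3}` -/
noncomputable def zt : ℂ := ⟨1 / 2, Real.sqrt 3 / 2⟩

/-- `e^{i pi/6}` -/
noncomputable def w0 : ℂ := ⟨Real.sqrt 3 / 2, 1 / 2⟩

/-- the six roots of `1 - x^6` -/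
noncomputable def zk (k : Fin 6) : ℂ := zt ^ (k : ℕ)

/-- the six directions between the roots -/
noncomputable def rho (k : Fin 6) : ℂ := w0 * zk k

/-- the three parameter family `1 + p0 x^2 + p1 x^3 + p2 x^4 - x^6` -/
noncomputable def Pf (p : Fin 3 → ℂ) (x : ℂ) : ℂ := 1 + p 0 * x ^ 2 + p 1 * x ^ 3 + p 2 * x ^ 4 - x ^ 6

/-- integrals of `(1, x) dx / sqrt (P)` along the rays -/
noncomputable def Lr (p : Fin 3 → ℂ) (k : Fin 6) (j : Fin 2) : ℂ :=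
  ∫ t in Ioi (0 : ℝ), rho k ^ ((j : ℕ) + 1) * (t : ℂ) ^ (j : ℕ) * (Pf p (rho k * t)) ^ (-(1 / 2) : ℂ)

noncomputable def el : ℝ := ∫ t in Ioi (0 : ℝ), (1 + t ^ 6) ^ (-(1 / 2) : ℝ)

noncomputable def Bs (s : ℕ) : ℝ := ∫ t in Ioi (0 : ℝ), t ^ s * (1 + t ^ 6) ^ (-(3 / 2) : ℝ)

/-- the derivative of `Lr` at `0` -/
noncomputable def Dr (k : Fin 6) (j : Fin 2) : (Fin 3 → ℂ) →L[ℂ] ℂ :=
  ∑ i : Fin 3, (-(1 / 2) * rho k ^ ((j : ℕ) + i + 3) * (Bs ((j : ℕ) + i + 2) : ℂ)) • ContinuousLinearMap.proj i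

/-- Riemann's first bilinear relation -/
def Riem (L : Fin 6 → Fin 2 → ℂ) : Prop := ∑ k, (L (k + 1) 0 * L k 1 - L k 0 * L (k + 1) 1) = 0

/-- half of a symplectic basis of periods -/
def Pm (L : Fin 6 → Fin 2 → ℂ) : Matrix (Fin 2) (Fin 2) ℂ :=
  !![L 5 0 - L 1 0, L 4 0 - L 2 0; L 5 1 - L 1 1, L 4 1 - L 2 1]

/-- other half of a symplectic basis of periods -/
def Qm (L : Fin 6 → Fin 2 → ℂ) : Matrix (Fin 2) (Fin 2) ℂ :=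
  !![L 0 0 - L 2 0, L 5 0 - L 3 0; L 0 1 - L 2 1, L 5 1 - L 3 1]

/-- the period point of `y^2 = 1 - x^6` -/
noncomputable def T0 : Matrix (Fin 2) (Fin 2) ℂ :=
  !![⟨0, Real.sqrt 3 / 2⟩, 1 / 2; 1 / 2, ⟨0, Real.sqrt 3 / 2⟩]

/-- six points near the sixth roots of unity -/
def Near (a : Fin 6 → ℂ) : Prop := ∀ k, ‖a k - zk k‖ ≤ 1 / 50

noncomputable def Pa (a : Fin 6 → ℂ) (x : ℂ) : ℂ := ∏ j, (1 - x / a j)

noncomputable def Ya (a : Fin 6 → ℂ) (x : ℂ) : ℂ := ∏ j, (1 - x / a j) ^ (1 / 2 : ℂ)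

/-- sector around the direction of the root `zk k` (vertex slightly behind the origin) -/
def S (k : Fin 6) : Set ℂ := {x | |(x / zk k).im| < (x / zk k).re + 1 / 4}

noncomputable def qa (a : Fin 6 → ℂ) (k : Fin 6) (x : ℂ) : ℂ := ∏ j ∈ Finset.univ.erase k, (1 - x / a j) ^ (1 / 2 : ℂ)

/-- the function `g` with `d (y g) = x^j dx / y` on the sector `S k` -/
noncomputable def ga (a : Fin 6 → ℂ) (k : Fin 6) (j : Fin 2) (x : ℂ) : ℂ :=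
  -2 * a k / qa a k x * ∫ μ in (0 : ℝ)..1, (a k + (μ : ℂ) ^ 2 * (x - a k)) ^ (j : ℕ) / qa a k (a k + (μ : ℂ) ^ 2 * (x - a k))

noncomputable def La (a : Fin 6 → ℂ) (k : Fin 6) (j : Fin 2) : ℂ :=
  ∫ t in Ioi (0 : ℝ), rho k ^ ((j : ℕ) + 1) * (t : ℂ) ^ (j : ℕ) / Ya a (rho k * t)

/-- integrals over the plane -/
noncomputable def U0 (a : Fin 6 → ℂ) (m n : Fin 2) : ℂ :=
  ∫ x : ℂ, x ^ (m : ℕ) * conj x ^ (n : ℕ) / (‖Pa a x‖ : ℂ)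

noncomputable def U (a : Fin 6 → ℂ) (i : Fin 6) (m n : Fin 2) : ℂ :=
  ∫ x : ℂ, (Real.log ‖x - a i‖ : ℂ) * (x ^ (m : ℕ) * conj x ^ (n : ℕ) / (‖Pa a x‖ : ℂ))

/-- `ℂ² / Λ` is an abelian surface: `Λ` is a lattice with a Riemann form -/
def IsAbelian (Λ : AddSubgroup (Fin 2 → ℂ)) : Prop :=
  (∃ v : Fin 4 → Fin 2 → ℂ, LinearIndependent ℝ v ∧ Λ = AddSubgroup.closure (Set.range v)) ∧
  ∃ E : (Fin 2 → ℂ) →ₗ[ℝ] (Fin 2 → ℂ) →ₗ[ℝ] ℝ, (∀ x y, E x y = - E y x) ∧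
    (∀ x y, E (Complex.I • x) (Complex.I • y) = E x y) ∧ (∀ x, x ≠ 0 → 0 < E x (Complex.I • x)) ∧
    ∀ x ∈ Λ, ∀ y ∈ Λ, ∃ n : ℤ, E x y = n

end Pool.Agent.J4.H67.AS
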