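import Mathlib
set_option autoImplicit false

/-!
The closure of the rational span of a set of hermitian matrices which pairs nontrivially with every nonzero hermitian
matrix is the space of all hermitian matrices.
-/

namespace Pool.Agent.J4.H67.AS.NDual

open Set
open scoped ComplexConjugate Topology

/-- the closure of the rational span is stable under real scalars -/
theorem smul_closure {E : Type*} [AddCommGroup E] [Module ℝ E] [Module ℚ E] [TopologicalSpace E]
    [IsTopologicalAddGroup E] [ContinuousSMul ℝ E] (S : Submodule ℚ E) {x : E} (hx : x ∈ closure (S : Set E)) (r : ℝ) :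
    r • x ∈ closure (S : Set E) := by
  have h1 : ∀ q : ℚ, (q : ℝ) • x ∈ closure (S : Set E) := by
    intro q
    have hc : Continuous fun y : E => (q : ℝ) • y := continuous_const_smul _
    have h2 : Set.MapsTo (fun y : E => (q : ℝ) • y) (S : Set E) (S : Set E) := by
      intro y hy
      have h3 : (q : ℝ) • y = q • y := Rat.cast_smul_eq_qsmul ℝ q y
      change (q : ℝ) • y ∈ (S : Set E)
      rw [h3]
      exact S.smul_mem q hy
    exact map_mem_closure hc hx h2
  have hcl : IsClosed {r : ℝ | r • x ∈ closure (S : Set E)} :=
    isClosed_closure.preimage (continuous_id.smul continuous_const)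
  have h2 : (Set.range ((↑) : ℚ → ℝ)) ⊆ {r : ℝ | r • x ∈ closure (S : Set E)} := by
    rintro _ ⟨q, rfl⟩
    exact h1 q
  have h3 := closure_minimal h2 hcl
  rw [Rat.denseRange_cast.closure_range] at h3
  exact h3 trivial

/-- a real linear functional on complex matrices is the real part of a trace form -/
theorem functional_eq {n : Type*} [Fintype n] [DecidableEq n] (f : Matrix n n ℂ →ₗ[ℝ] ℝ) :
    ∃ K : Matrix n n ℂ, ∀ X : Matrix n n ℂ, f X = ((K * X).trace).re := by
  refine ⟨Matrix.of fun j i => ((f (Matrix.single i j 1) : ℝ) : ℂ) - (f (Matrix.single i j Complex.I) : ℝ) * Complex.I, ?_⟩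
  intro X
  have hs : ∀ (i j : n) (z : ℂ), f (Matrix.single i j z) =
      ((((f (Matrix.single i j 1) : ℝ) : ℂ) - (f (Matrix.single i j Complex.I) : ℝ) * Complex.I) * z).re := by
    intro i j z
    have h1 : Matrix.single i j z = z.re • Matrix.single i j (1 : ℂ) + z.im • Matrix.single i j Complex.I := by
      rw [Matrix.smul_single, Matrix.smul_single, ← Matrix.single_add]
      congr 1
      apply Complex.ext <;> simp
    rw [h1, map_add, map_smul, map_smul]
    simp [Complex.mul_re, Complex.sub_re, Complex.sub_im]
    ring
  conv_lhs => rw [Matrix.matrix_eq_sum_single X]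
  rw [map_sum]
  have h2 : ∀ i : n, f (∑ j, Matrix.single i j (X i j)) = ∑ j, f (Matrix.single i j (X i j)) := fun i => map_sum f _ _
  rw [Finset.sum_congr rfl fun i _ => h2 i, Matrix.trace, Complex.re_sum, Finset.sum_comm]
  refine Finset.sum_congr rfl fun j _ => ?_
  rw [Matrix.diag_apply, Matrix.mul_apply, Complex.re_sum]
  exact Finset.sum_congr rfl fun i _ => hs i j _

theorem dense_of_pairing (𝒮 : Set (Matrix (Fin 2) (Fin 2) ℂ)) (hherm : ∀ R ∈ 𝒮, R.IsHermitian)
    (h : ∀ H : Matrix (Fin 2) (Fin 2) ℂ, H.IsHermitian → H ≠ 0 → ∃ R ∈ 𝒮, (H * R).trace ≠ 0) :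
    closure (Submodule.span ℚ 𝒮 : Set (Matrix (Fin 2) (Fin 2) ℂ)) = {R | R.IsHermitian} := by
  apply Subset.antisymm
  · have hcl : IsClosed {R : Matrix (Fin 2) (Fin 2) ℂ | R.IsHermitian} := by
      have : {R : Matrix (Fin 2) (Fin 2) ℂ | R.IsHermitian} = {R | R.conjTranspose = R} := rfl
      rw [this]
      exact isClosed_eq (continuous_id.matrix_conjTranspose) continuous_id
    refine closure_minimal ?_ hcl
    intro R hR
    induction hR using Submodule.span_induction with
    | mem x hx => exact hherm x hx
    | zero => exact Matrix.isHermitian_zero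
    | add x y _ _ hx hy => exact hx.add hy
    | smul q x _ hx =>
      change (q • x).conjTranspose = q • x
      have hx' : x.conjTranspose = x := hx
      ext i j
      have := congrFun (congrFun hx' i) j
      rw [Matrix.conjTranspose_apply] at this
      rw [Matrix.conjTranspose_apply, Matrix.smul_apply, Matrix.smul_apply, ← this, Rat.smul_def, Rat.smul_def]
      simp
  · set S := Submodule.span ℚ 𝒮 with hS
    let V : Submodule ℝ (Matrix (Fin 2) (Fin 2) ℂ) :=
      { carrier := closure (S : Set (Matrix (Fin 2) (Fin 2) ℂ))
        add_mem' := fun {a b} ha hb => S.toAddSubgroup.topologicalClosure.add_mem ha hb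
        zero_mem' := subset_closure S.zero_mem
        smul_mem' := fun r x hx => smul_closure S hx r }
    intro R hR
    by_contra hRV
    have hRV' : R ∉ V := hRV
    obtain ⟨f, hf0, hf⟩ := Submodule.exists_le_ker_of_notMem hRV'
    obtain ⟨K, hK⟩ := functional_eq f
    set H : Matrix (Fin 2) (Fin 2) ℂ := (1 / 2 : ℂ) • (K + K.conjTranspose) with hH
    have hHh : H.IsHermitian := by
      change H.conjTranspose = H
      rw [hH, Matrix.conjTranspose_smul, Matrix.conjTranspose_add, Matrix.conjTranspose_conjTranspose, add_comm]
      simp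
    have htr : ∀ X : Matrix (Fin 2) (Fin 2) ℂ, X.IsHermitian → (H * X).trace = ((f X : ℝ) : ℂ) := by
      intro X hX
      have hX' : X.conjTranspose = X := hX
      have h1 : (K.conjTranspose * X).trace = conj ((K * X).trace) := by
        have h2 : (K * X).conjTranspose = X * K.conjTranspose := by
          rw [Matrix.conjTranspose_mul, hX']
        rw [Matrix.trace_mul_comm, ← h2, Matrix.trace_conjTranspose]
        rfl
      rw [hH, Matrix.smul_mul, Matrix.trace_smul, Matrix.add_mul, Matrix.trace_add, h1, hK X, Complex.add_conj, smul_eq_mul]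
      push_cast
      ring
    have hH0 : H ≠ 0 := by
      intro h0
      have h1 := htr R hR
      rw [h0, Matrix.zero_mul, Matrix.trace_zero] at h1
      exact hf0 (by exact_mod_cast h1.symm)
    obtain ⟨R', hR', hne⟩ := h H hHh hH0
    apply hne
    rw [htr R' (hherm R' hR')]
    have h2 : f R' = 0 := hf (show R' ∈ V from subset_closure (Submodule.subset_span hR'))
    rw [h2, Complex.ofReal_zero]

end Pool.Agent.J4.H67.AS.NDual
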