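import Pool.Agent.J4.H67.AS.Defs
set_option autoImplicit false

/-!
Definitions for the statement: curves of genus two mapping to a complex torus, functions supported at the Weierstrass
points, push-forward of divisors, regulator integrals.
-/

namespace Pool.Agent.J4.H67.AS

open MeasureTheory Set
open scoped ComplexConjugate

/-- A path `(x(t), y(t))`, `0 ≤ t ≤ 1`, on the curve `y² = P(x)`, which does not meet the points with `y = 0` except
possibly at its ends, and along which `dx/y` and `x dx/y` are integrable. -/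
def IsPath (P : Polynomial ℂ) (x y x' : ℝ → ℂ) : Prop :=
  ContinuousOn x (Icc 0 1) ∧ ContinuousOn y (Icc 0 1) ∧ (∀ t ∈ Icc (0 : ℝ) 1, y t ^ 2 = P.eval (x t)) ∧
    (∀ t ∈ Ioo (0 : ℝ) 1, HasDerivAt x (x' t) t ∧ DifferentiableAt ℝ y t ∧ y t ≠ 0) ∧
    IntervalIntegrable (fun t => x' t / y t) volume 0 1 ∧ IntervalIntegrable (fun t => x t * x' t / y t) volume 0 1

/-- `u` is an integral of `M (dx/y, x dx/y)` modulo `Λ`, that is, a holomorphic map from the curve `y² = P(x)` to the torus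
`ℂ²/Λ` for which the coordinate differentials pull back to `M (dx/y, x dx/y)`. -/
def IsIntegral (Λ : AddSubgroup (Fin 2 → ℂ)) (P : Polynomial ℂ) (M : Matrix (Fin 2) (Fin 2) ℂ)
    (u : ℂ × ℂ → (Fin 2 → ℂ) ⧸ Λ) : Prop :=
  ∀ x y x' : ℝ → ℂ, IsPath P x y x' →
    u (x 1, y 1) - u (x 0, y 0) =
      QuotientAddGroup.mk (M.mulVec ![∫ t in (0 : ℝ)..1, x' t / y t, ∫ t in (0 : ℝ)..1, x t * x' t / y t])

/-- A genus two curve `y² = P(x)` with a map `u` to `ℂ²/Λ` and a function `f = c ∏ (x - r)^(n r)` whose divisor is supported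
at the Weierstrass points `(r, 0)`. -/
structure CurveFn (Λ : AddSubgroup (Fin 2 → ℂ)) where
  P : Polynomial ℂ
  natDegree_eq : P.natDegree = 6
  squarefree : Squarefree P
  M : Matrix (Fin 2) (Fin 2) ℂ
  u : ℂ × ℂ → (Fin 2 → ℂ) ⧸ Λ
  integral : IsIntegral Λ P M u
  c : ℂ
  c_ne : c ≠ 0
  n : ℂ →₀ ℤ
  roots : ∀ r ∈ n.support, P.eval r = 0
  sum_zero : n.sum (fun _ k => k) = 0

variable {Λ : AddSubgroup (Fin 2 → ℂ)}

/-- The push-forward to `ℂ²/Λ` of the divisor of `f` (each `x - r` has a double zero at `(r, 0)`). -/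
noncomputable def CurveFn.div (Z : CurveFn Λ) : ((Fin 2 → ℂ) ⧸ Λ) →₀ ℤ :=
  Z.n.sum fun r k => Finsupp.single (Z.u (r, 0)) (2 * k)

/-- `log |f|` -/
noncomputable def CurveFn.logAbs (Z : CurveFn Λ) (x : ℂ) : ℝ :=
  Real.log ‖Z.c‖ + Z.n.sum fun r k => k * Real.log ‖x - r‖

/-- The regulator: the integrals of `log |f| u^*(dz_i ∧ d\bar z_j)` over the curve (two sheets over the `x`-plane). -/
noncomputable def CurveFn.reg (Z : CurveFn Λ) : Matrix (Fin 2) (Fin 2) ℂ :=
  Matrix.of fun i j => 2 * ∫ x : ℂ, (Z.logAbs x : ℂ) * (Z.M.mulVec ![1, x] i * conj (Z.M.mulVec ![1, x] j)) / (‖Z.P.eval x‖ : ℂ)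

end Pool.Agent.J4.H67.AS
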