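import Pool.Agent.J4.H67.AS.Defs
set_option autoImplicit false

/-!
Piece Lattice: a symplectic basis, over the rational numbers, of the lattice of an abelian surface
-/

namespace Pool.Agent.J4.H67.AS.NLattice

open Matrix

theorem lat_span (v : Fin 4 → Fin 2 → ℂ) (hv : LinearIndependent ℝ v) :
    Submodule.span ℝ (Set.range v) = ⊤ := by
  apply LinearIndependent.span_eq_top_of_card_eq_finrank' hv
  rw [Module.finrank_pi_fintype]
  simp [Complex.finrank_real_complex]

theorem lat_ne (E : (Fin 2 → ℂ) →ₗ[ℝ] (Fin 2 → ℂ) →ₗ[ℝ] ℝ) (v : Fin 4 → Fin 2 → ℂ)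
    (hv : LinearIndependent ℝ v) (hpos : ∀ x, x ≠ 0 → 0 < E x (Complex.I • x))
    (a : Fin 2 → ℂ) (ha : a ≠ 0) : ∃ k, E a (v k) ≠ 0 := by
  by_contra h
  push Not at h
  have h2 : Complex.I • a ∈ Submodule.span ℝ (Set.range v) := by
    rw [lat_span v hv]; trivial
  have h3 : ∀ y ∈ Submodule.span ℝ (Set.range v), E a y = 0 := by
    intro y hy
    induction hy using Submodule.span_induction with
    | mem x hx => obtain ⟨k, rfl⟩ := hx; exact h k
    | zero => rw [map_zero]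
    | add x y _ _ hx hy => rw [map_add, hx, hy, add_zero]
    | smul r x _ hx => rw [map_smul, hx, smul_zero]
  exact (hpos a ha).ne' (h3 _ h2)

theorem lat_basis (Λ : AddSubgroup (Fin 2 → ℂ)) (E : (Fin 2 → ℂ) →ₗ[ℝ] (Fin 2 → ℂ) →ₗ[ℝ] ℝ)
    (v : Fin 4 → Fin 2 → ℂ) (hv : LinearIndependent ℝ v)
    (hΛ : Λ = AddSubgroup.closure (Set.range v)) (halt : ∀ x y, E x y = - E y x)
    (hpos : ∀ x, x ≠ 0 → 0 < E x (Complex.I • x)) (hint : ∀ x ∈ Λ, ∀ y ∈ Λ, ∃ n : ℤ, E x y = n) :
    ∃ (r s : Fin 2 → Fin 2 → ℂ) (N : ℕ), 0 < N ∧ (∀ j, r j ∈ Λ) ∧ (∀ j, (N : ℂ) • s j ∈ Λ) ∧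
      (∀ i j, E (r i) (s j) = if i = j then 1 else 0) ∧ (∀ i j, E (r i) (r j) = 0) ∧
      (∀ i j, E (s i) (s j) = 0) := by
  have hself : ∀ x, E x x = 0 := fun x => by linarith [halt x x]
  have hvΛ : ∀ k, v k ∈ Λ := fun k => hΛ ▸ AddSubgroup.subset_closure ⟨k, rfl⟩
  -- the first pair
  have hr1 : v 0 ≠ 0 := hv.ne_zero 0
  obtain ⟨k, hk⟩ := lat_ne E v hv hpos (v 0) hr1
  obtain ⟨c, hc⟩ := hint _ (hvΛ 0) _ (hvΛ k)
  have hc0 : (c : ℝ) ≠ 0 := hc ▸ hk
  set a := v 0 with ha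
  set b := v k with hb
  -- the projection
  let P : (Fin 2 → ℂ) → (Fin 2 → ℂ) := fun x => (c : ℝ) • x - (E x b) • a + (E x a) • b
  have hPΛ : ∀ x ∈ Λ, P x ∈ Λ := by
    intro x hx
    obtain ⟨m, hm⟩ := hint _ hx _ (hvΛ k)
    obtain ⟨n, hn⟩ := hint _ hx _ (hvΛ 0)
    have e : P x = c • x - m • a + n • b := by
      simp only [P]
      rw [← hb] at hm
      rw [← ha] at hn
      rw [hm, hn]
      simp only [Int.cast_smul_eq_zsmul]
    rw [e]
    exact Λ.add_mem (Λ.sub_mem (Λ.zsmul_mem hx _) (Λ.zsmul_mem (hvΛ 0) _)) (Λ.zsmul_mem (hvΛ k) _)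
  have hPa : ∀ x, E (P x) a = 0 := by
    intro x
    have h1 : E b a = - c := by rw [halt b a, hc]
    simp only [P, map_add, map_sub, map_smul, LinearMap.add_apply, LinearMap.sub_apply,
      LinearMap.smul_apply, smul_eq_mul, hself a, h1]
    ring
  have hPb : ∀ x, E (P x) b = 0 := by
    intro x
    simp only [P, map_add, map_sub, map_smul, LinearMap.add_apply, LinearMap.sub_apply,
      LinearMap.smul_apply, smul_eq_mul, hself b, hc]
    ring
  -- a vector with nonzero projection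
  obtain ⟨l, hl⟩ : ∃ l, P (v l) ≠ 0 := by
    by_contra h
    push Not at h
    have h1 : Submodule.span ℝ (Set.range v) ≤ Submodule.span ℝ (Set.range ![a, b]) := by
      rw [Submodule.span_le]
      rintro _ ⟨l, rfl⟩
      have h2 := h l
      have h3 : v l = (c : ℝ)⁻¹ • ((E (v l) b) • a - (E (v l) a) • b) := by
        have h4 : (c : ℝ) • v l = (E (v l) b) • a - (E (v l) a) • b := by
          simp only [P] at h2
          have h5 : (c : ℝ) • v l - ((E (v l) b) • a - (E (v l) a) • b) = 0 := by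
            rw [← h2]; abel
          exact sub_eq_zero.1 h5
        rw [← h4, smul_smul, inv_mul_cancel₀ hc0, one_smul]
      rw [h3]
      have e0 : a ∈ Submodule.span ℝ (Set.range ![a, b]) := Submodule.subset_span ⟨0, rfl⟩
      have e1 : b ∈ Submodule.span ℝ (Set.range ![a, b]) := Submodule.subset_span ⟨1, rfl⟩
      exact Submodule.smul_mem _ _ (Submodule.sub_mem _ (Submodule.smul_mem _ _ e0)
        (Submodule.smul_mem _ _ e1))
    rw [lat_span v hv] at h1
    have h2 : Module.finrank ℝ (Submodule.span ℝ (Set.range ![a, b])) ≤ 2 := by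
      have := finrank_range_le_card (R := ℝ) ![a, b]
      simpa [Set.finrank] using this
    rw [top_le_iff.1 h1, finrank_top] at h2
    rw [Module.finrank_pi_fintype] at h2
    simp [Complex.finrank_real_complex] at h2
  have hP0 : ∀ x y, E (P x) (P y) = c * E (P x) y := by
    intro x y
    have : E (P x) (P y) = c * E (P x) y - E y b * E (P x) a + E y a * E (P x) b := by
      simp only [P, map_add, map_sub, map_smul, LinearMap.add_apply, LinearMap.sub_apply,
        LinearMap.smul_apply, smul_eq_mul]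
    rw [this, hPa, hPb]; ring
  obtain ⟨q, hq⟩ := lat_ne E v hv hpos (P (v l)) hl
  obtain ⟨g, hg⟩ := hint _ (hPΛ _ (hvΛ l)) _ (hPΛ _ (hvΛ q))
  have hg0 : (g : ℝ) ≠ 0 := by
    rw [← hg, hP0]
    exact mul_ne_zero hc0 hq
  have hc0' : c ≠ 0 := by exact_mod_cast hc0
  have hg0' : g ≠ 0 := by exact_mod_cast hg0
  refine ⟨![a, P (v l)], ![(c : ℝ)⁻¹ • b, (g : ℝ)⁻¹ • P (v q)], (c * g).natAbs,
    Int.natAbs_pos.2 (mul_ne_zero hc0' hg0'), ?_, ?_, ?_, ?_, ?_⟩
  · intro j
    fin_cases j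
    · exact hvΛ 0
    · exact hPΛ _ (hvΛ l)
  · have key : ∀ x : Fin 2 → ℂ, (((c * g).natAbs : ℕ) : ℂ) • x = ((|(c : ℝ) * g| : ℝ)) • x := by
      intro x
      have h1 : (((c * g).natAbs : ℕ) : ℂ) = ((|(c : ℝ) * g| : ℝ) : ℂ) := by
        have : (((c * g).natAbs : ℕ) : ℝ) = |(c : ℝ) * g| := by
          rw [Nat.cast_natAbs]; push_cast; rfl
        rw [← this]; push_cast; rfl
      rw [h1]
      rfl
    have key2 : ∀ (u w : ℤ) (x : Fin 2 → ℂ), u ≠ 0 → x ∈ Λ → (|(u : ℝ) * w|) • ((u : ℝ)⁻¹ • x) ∈ Λ := by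
      intro u w x hu hx
      have hu' : (u : ℝ) ≠ 0 := by exact_mod_cast hu
      rcases abs_choice ((u : ℝ) * w) with h | h
      · rw [h, smul_smul]
        have : (u : ℝ) * w * (u : ℝ)⁻¹ = ((w : ℤ) : ℝ) := by field_simp
        rw [this, Int.cast_smul_eq_zsmul]
        exact Λ.zsmul_mem hx _
      · rw [h, smul_smul]
        have : -((u : ℝ) * w) * (u : ℝ)⁻¹ = ((-w : ℤ) : ℝ) := by push_cast; field_simp
        rw [this, Int.cast_smul_eq_zsmul]
        exact Λ.zsmul_mem hx _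
    intro j
    rw [key]
    fin_cases j
    · exact key2 c g b hc0' (hvΛ k)
    · have := key2 g c (P (v q)) hg0' (hPΛ _ (hvΛ q))
      rw [mul_comm] at this
      exact this
  · have e1 : E a (P (v q)) = 0 := by rw [halt, hPa, neg_zero]
    intro i j
    fin_cases i <;> fin_cases j
    · simp [hc, hc0]
    · simp [e1]
    · simp [hPb]
    · simp [hg, hg0]
  · have e1 : E a (P (v l)) = 0 := by rw [halt, hPa, neg_zero]
    intro i j
    fin_cases i <;> fin_cases j
    · simp [hself]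
    · simp [e1]
    · simp [hPa]
    · simp [hself]
  · have e1 : E b (P (v q)) = 0 := by rw [halt, hPb, neg_zero]
    intro i j
    fin_cases i <;> fin_cases j
    · simp [hself]
    · simp [e1]
    · simp [hPb]
    · simp [hself]

/-- the real part of the combination -/
theorem lat_indep (E : (Fin 2 → ℂ) →ₗ[ℝ] (Fin 2 → ℂ) →ₗ[ℝ] ℝ) (r s : Fin 2 → Fin 2 → ℂ)
    (hpos : ∀ x, x ≠ 0 → 0 < E x (Complex.I • x)) (halt : ∀ x y, E x y = - E y x)
    (hrs : ∀ i j, E (r i) (s j) = if i = j then 1 else 0) (hrr : ∀ i j, E (r i) (r j) = 0)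
    (w : Fin 2 → ℂ) (hw : w 0 • r 0 + w 1 • r 1 = 0) : w = 0 := by
  set u : Fin 2 → ℂ := (w 0).re • r 0 + (w 1).re • r 1 with hu
  set u' : Fin 2 → ℂ := (w 0).im • r 0 + (w 1).im • r 1 with hu'
  have h1 : u + Complex.I • u' = 0 := by
    rw [← hw, hu, hu']
    ext i
    simp only [Pi.add_apply, Pi.smul_apply, smul_eq_mul, Complex.real_smul]
    linear_combination (r 0 i) * (Complex.re_add_im (w 0)) + (r 1 i) * (Complex.re_add_im (w 1))
  have h2 : u = - (Complex.I • u') := eq_neg_of_add_eq_zero_left h1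
  have h3 : E u' u = 0 := by
    rw [hu, hu']
    simp only [map_add, map_smul, LinearMap.add_apply, LinearMap.smul_apply, smul_eq_mul, hrr,
      mul_zero, add_zero]
  have h4 : u' = 0 := by
    by_contra h
    have h5 := hpos u' h
    rw [h2, map_neg, neg_eq_zero] at h3
    exact h5.ne' h3
  have h5 : u = 0 := by rw [h2, h4, smul_zero, neg_zero]
  have h6 : ∀ j, E u (s j) = (w j).re := by
    intro j
    rw [hu]
    fin_cases j <;> simp [hrs]
  have h7 : ∀ j, E u' (s j) = (w j).im := by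
    intro j
    rw [hu']
    fin_cases j <;> simp [hrs]
  ext j
  apply Complex.ext
  · rw [← h6 j, h5]; simp
  · rw [← h7 j, h4]; simp

theorem lat_form (E : (Fin 2 → ℂ) →ₗ[ℝ] (Fin 2 → ℂ) →ₗ[ℝ] ℝ) (r s : Fin 2 → Fin 2 → ℂ)
    (hpos : ∀ x, x ≠ 0 → 0 < E x (Complex.I • x)) (halt : ∀ x y, E x y = - E y x)
    (hI : ∀ x y, E (Complex.I • x) (Complex.I • y) = E x y)
    (hrs : ∀ i j, E (r i) (s j) = if i = j then 1 else 0) (hrr : ∀ i j, E (r i) (r j) = 0)
    (hss : ∀ i j, E (s i) (s j) = 0) (Z : Matrix (Fin 2) (Fin 2) ℂ)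
    (hZ : ∀ j, s j = Z 0 j • r 0 + Z 1 j • r 1) : Z.IsSymm ∧ (Z.map Complex.im).PosDef := by
  have hII : ∀ x : Fin 2 → ℂ, Complex.I • (Complex.I • x) = - x := by
    intro x; rw [smul_smul, Complex.I_mul_I, neg_one_smul]
  have hIx : ∀ x y, E (Complex.I • x) y = - E x (Complex.I • y) := by
    intro x y
    rw [← hI x (Complex.I • y), hII, map_neg, neg_neg]
  have hsplit : ∀ j, s j = (Z 0 j).re • r 0 + (Z 1 j).re • r 1 +
      ((Z 0 j).im • (Complex.I • r 0) + (Z 1 j).im • (Complex.I • r 1)) := by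
    intro j
    rw [hZ j]
    ext i
    simp only [Pi.add_apply, Pi.smul_apply, smul_eq_mul, Complex.real_smul]
    linear_combination -(r 0 i) * (Complex.re_add_im (Z 0 j)) - (r 1 i) * (Complex.re_add_im (Z 1 j))
  have hG : ∀ i j, E (r i) (Complex.I • r j) = E (r j) (Complex.I • r i) := by
    intro i j
    rw [halt, hIx, neg_neg]
  have hY : ∀ i j, (Z 0 j).im * E (r i) (Complex.I • r 0) + (Z 1 j).im * E (r i) (Complex.I • r 1)
      = if i = j then 1 else 0 := by
    intro i j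
    rw [← hrs i j]
    conv_rhs => rw [hsplit j]
    simp only [map_add, map_smul, smul_eq_mul, hrr, mul_zero, zero_add]
  -- the form `G`
  set g00 := E (r 0) (Complex.I • r 0) with h00
  set g01 := E (r 0) (Complex.I • r 1) with h01
  have h10 : E (r 1) (Complex.I • r 0) = g01 := hG 1 0
  set g11 := E (r 1) (Complex.I • r 1) with h11
  have e00 := hY 0 0
  have e01 := hY 0 1
  have e10 := hY 1 0
  have e11 := hY 1 1
  rw [h10] at e10 e11
  simp only [← h00, ← h01, ← h11, if_true, Fin.isValue, one_ne_zero, zero_ne_one, if_false] at e00 e01 e10 e11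
  -- positivity
  have hq : ∀ u0 u1 : ℝ, (u0 ≠ 0 ∨ u1 ≠ 0) → 0 < u0 ^ 2 * g00 + 2 * u0 * u1 * g01 + u1 ^ 2 * g11 := by
    intro u0 u1 hu
    have h1 : u0 • r 0 + u1 • r 1 ≠ 0 := by
      intro h
      have h2 : E (u0 • r 0 + u1 • r 1) (s 0) = u0 := by simp [hrs]
      have h3 : E (u0 • r 0 + u1 • r 1) (s 1) = u1 := by simp [hrs]
      rw [h] at h2 h3
      simp only [map_zero, LinearMap.zero_apply] at h2 h3
      rcases hu with hu | hu
      · exact hu h2.symm
      · exact hu h3.symm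
    have h2 := hpos _ h1
    have h3 : E (u0 • r 0 + u1 • r 1) (Complex.I • (u0 • r 0 + u1 • r 1)) =
        u0 ^ 2 * g00 + 2 * u0 * u1 * g01 + u1 ^ 2 * g11 := by
      rw [smul_add, smul_comm Complex.I u0, smul_comm Complex.I u1]
      simp only [map_add, map_smul, LinearMap.add_apply, LinearMap.smul_apply, smul_eq_mul, h10,
        ← h00, ← h01, ← h11]
      ring
    rwa [h3] at h2
  have p00 : 0 < g00 := by simpa using hq 1 0 (Or.inl one_ne_zero)
  have hdet : 0 < g00 * g11 - g01 ^ 2 := by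
    have h := hq (-g01) g00 (Or.inr p00.ne')
    have : g00 * (g00 * g11 - g01 ^ 2) = (-g01) ^ 2 * g00 + 2 * (-g01) * g00 * g01 + g00 ^ 2 * g11 := by
      ring
    rw [← this] at h
    exact (pos_iff_pos_of_mul_pos h).1 p00
  have d0 := hdet.ne'
  have y00 : (Z 0 0).im = g11 / (g00 * g11 - g01 ^ 2) := by
    rw [eq_div_iff d0]; linear_combination g11 * e00 - g01 * e10
  have y10 : (Z 1 0).im = - g01 / (g00 * g11 - g01 ^ 2) := by
    rw [eq_div_iff d0]; linear_combination g00 * e10 - g01 * e00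
  have y01 : (Z 0 1).im = - g01 / (g00 * g11 - g01 ^ 2) := by
    rw [eq_div_iff d0]; linear_combination g11 * e01 - g01 * e11
  have y11 : (Z 1 1).im = g00 / (g00 * g11 - g01 ^ 2) := by
    rw [eq_div_iff d0]; linear_combination g00 * e11 - g01 * e01
  have hxs : (Z 0 1).re = (Z 1 0).re := by
    have h := hss 0 1
    rw [hsplit 0, hsplit 1] at h
    simp only [map_add, map_smul, LinearMap.add_apply, LinearMap.smul_apply, smul_eq_mul, hrr, hI,
      mul_zero, add_zero, zero_add, hIx, hrr, h10, ← h00, ← h01, ← h11, hII, map_neg, neg_zero] at h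
    linear_combination -h + (Z 0 0).re * e01 + (Z 1 0).re * e11 - (Z 0 1).re * e00 - (Z 1 1).re * e10
  have hsym : Z.IsSymm := by
    apply Matrix.IsSymm.ext
    intro i j
    have h01' : Z 0 1 = Z 1 0 := Complex.ext hxs (y01.trans y10.symm)
    fin_cases i <;> fin_cases j <;> simp [h01']
  refine ⟨hsym, ?_⟩
  apply Matrix.PosDef.of_dotProduct_mulVec_pos
  · ext i j
    simp only [Matrix.conjTranspose_apply, Matrix.map_apply, star_trivial]
    rw [hsym.apply]
  · intro x hx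
    have hx' : x 0 ≠ 0 ∨ x 1 ≠ 0 := by
      by_contra h
      push Not at h
      exact hx (by ext j; fin_cases j; exacts [h.1, h.2])
    have h2 : 0 < (- x 1) ^ 2 * g00 + 2 * (- x 1) * x 0 * g01 + x 0 ^ 2 * g11 :=
      hq _ _ (by rcases hx' with h | h; exacts [Or.inr h, Or.inl (neg_ne_zero.2 h)])
    have h3 : star x ⬝ᵥ (Z.map Complex.im) *ᵥ x = ((- x 1) ^ 2 * g00 + 2 * (- x 1) * x 0 * g01 +
        x 0 ^ 2 * g11) / (g00 * g11 - g01 ^ 2) := by
      rw [star_trivial, dotProduct, Fin.sum_univ_two]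
      simp only [Matrix.mulVec, dotProduct, Fin.sum_univ_two, Matrix.map_apply]
      rw [y00, y01, y10, y11]
      field_simp
      ring
    rw [h3]
    exact div_pos h2 hdet

theorem exists_symplectic (Λ : AddSubgroup (Fin 2 → ℂ)) (h : IsAbelian Λ) :
    ∃ (R Sm : Matrix (Fin 2) (Fin 2) ℂ) (N : ℕ), 0 < N ∧ IsUnit R.det ∧ (∀ j, (fun i => R i j) ∈ Λ) ∧
      (∀ j, (fun i => (N : ℂ) * Sm i j) ∈ Λ) ∧ (R⁻¹ * Sm).IsSymm ∧
      ((R⁻¹ * Sm).map Complex.im).PosDef := by
  obtain ⟨⟨v, hv, hΛ⟩, E, halt, hI, hpos, hint⟩ := h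
  obtain ⟨r, s, N, hN, hr, hs, hrs, hrr, hss⟩ := lat_basis Λ E v hv hΛ halt hpos hint
  have hdet : (Matrix.of fun i j => r j i).det ≠ 0 := by
    intro h
    obtain ⟨w, hw, hw'⟩ := Matrix.exists_mulVec_eq_zero_iff.2 h
    apply hw
    apply lat_indep E r s hpos halt hrs hrr w
    ext i
    have := congrFun hw' i
    simp only [Matrix.mulVec, dotProduct, Fin.sum_univ_two, Matrix.of_apply, Pi.zero_apply] at this
    simp only [Pi.add_apply, Pi.smul_apply, smul_eq_mul, Pi.zero_apply]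
    linear_combination this
  have hunit : IsUnit (Matrix.of fun i j => r j i).det := isUnit_iff_ne_zero.2 hdet
  refine ⟨Matrix.of fun i j => r j i, Matrix.of fun i j => s j i, N, hN, hunit, hr, hs, ?_⟩
  apply lat_form E r s hpos halt hI hrs hrr hss
  intro j
  have h1 : (Matrix.of fun i j => r j i) * ((Matrix.of fun i j => r j i)⁻¹ *
      Matrix.of fun i j => s j i) = Matrix.of fun i j => s j i := by
    rw [← Matrix.mul_assoc, Matrix.mul_nonsing_inv _ hunit, Matrix.one_mul]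
  ext i
  have h2 := congrFun (congrFun h1 i) j
  rw [Matrix.mul_apply, Fin.sum_univ_two] at h2
  simp only [Matrix.of_apply] at h2
  simp only [Pi.add_apply, Pi.smul_apply, smul_eq_mul]
  rw [← h2]
  ring

end Pool.Agent.J4.H67.AS.NLattice
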