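import Pool.Agent.J4.H67.AS.Sector
set_option autoImplicit false

/-!
The ray integrals `Lr p k j` (principal branch of `P^(-1/2)`) and `La a k j` (product of principal branches) agree
(written by helper13).
-/

namespace Pool.Agent.J4.H67.AS.NLrLa

open MeasureTheory Set
open scoped ComplexConjugate Topology
open Pool.Agent.J4.H67.AS

theorem re_pos {p : Fin 3 → ℂ} (hp : ‖p‖ ≤ 1 / 10) (k : Fin 6) {t : ℝ} (ht : 0 ≤ t) : 0 < (Pf p (rho k * t)).re := by
  have h0 : ∀ i, ‖p i‖ ≤ 1 / 10 := fun i => (norm_le_pi_norm p i).trans hp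
  have e1 : Pf p (rho k * t) = ((1 + t ^ 6 : ℝ) : ℂ) +
      (p 0 * (rho k * t) ^ 2 + p 1 * (rho k * t) ^ 3 + p 2 * (rho k * t) ^ 4) := by
    unfold Pf
    rw [mul_pow (rho k) (t : ℂ) 6, rho_six]
    push_cast
    ring
  have hn : ∀ m : ℕ, ‖(rho k * (t : ℂ)) ^ m‖ = t ^ m := by
    intro m
    rw [norm_pow, norm_mul, nrm_rho, one_mul, Complex.norm_real, Real.norm_of_nonneg ht]
  have e2 : ‖p 0 * (rho k * t) ^ 2 + p 1 * (rho k * t) ^ 3 + p 2 * (rho k * t) ^ 4‖ ≤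
      1 / 10 * t ^ 2 + 1 / 10 * t ^ 3 + 1 / 10 * t ^ 4 := by
    refine (norm_add₃_le).trans ?_
    rw [norm_mul, norm_mul, norm_mul, hn, hn, hn]
    have t2 : 0 ≤ t ^ 2 := by positivity
    have t3 : 0 ≤ t ^ 3 := by positivity
    have t4 : 0 ≤ t ^ 4 := by positivity
    have := mul_le_mul_of_nonneg_right (h0 0) t2
    have := mul_le_mul_of_nonneg_right (h0 1) t3
    have := mul_le_mul_of_nonneg_right (h0 2) t4
    linarith
  have e3 := Complex.abs_re_le_norm (p 0 * (rho k * t) ^ 2 + p 1 * (rho k * t) ^ 3 + p 2 * (rho k * t) ^ 4)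
  rw [e1, Complex.add_re, Complex.ofReal_re]
  have e4 := (abs_le.1 (e3.trans e2)).1
  have t6 : t ^ 2 ≤ 1 + t ^ 6 := by nlinarith [sq_nonneg (t ^ 2 - 1), sq_nonneg t, sq_nonneg (t ^ 3), mul_nonneg (sq_nonneg t) (sq_nonneg (t ^ 2 - 1))]
  have t7 : t ^ 4 ≤ 1 + t ^ 6 := by nlinarith [sq_nonneg (t ^ 2 - 1), sq_nonneg t, sq_nonneg (t ^ 3), mul_nonneg (sq_nonneg t) (sq_nonneg (t ^ 2 - 1))]
  have t8 : t ^ 3 ≤ 1 + t ^ 6 := by nlinarith [sq_nonneg (t ^ 3 - 1)]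
  have t9 : 0 < 1 + t ^ 6 := by positivity
  linarith

end Pool.Agent.J4.H67.AS.NLrLa

namespace Pool.Agent.J4.H67.AS.NLrLa

open MeasureTheory Set
open scoped ComplexConjugate Topology

theorem Lr_eq_La {a : Fin 6 → ℂ} (ha : Near a) {p : Fin 3 → ℂ} (hp : ‖p‖ ≤ 1 / 10) (h : ∀ x, Pf p x = Pa a x) (k : Fin 6)
    (j : Fin 2) : Lr p k j = La a k j := by
  have key : EqOn (fun t : ℝ => (Pf p (rho k * t)) ^ (1 / 2 : ℂ)) (fun t : ℝ => Ya a (rho k * t)) (Ici 0) := by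
    apply IsPreconnected.eq_of_sq_eq isPreconnected_Ici (y := (0 : ℝ))
    · intro t ht
      have hc : ContinuousAt (fun t : ℝ => Pf p (rho k * t)) t := by
        unfold Pf
        fun_prop
      exact (hc.cpow continuousAt_const (Or.inl (NLrLa.re_pos hp k ht))).continuousWithinAt
    · exact ray_cont k (Ya_contOn ha k) fun t ht => ⟨ray_mem k ht, ray_mem' k ht⟩
    · intro t ht
      simp only [Pi.pow_apply]
      rw [half_sq, Ya_sq, h]
    · intro t ht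
      exact Ya_ne ha (fin_ne_succ k) (ray_mem k ht) (ray_mem' k ht)
    · exact mem_Ici.2 le_rfl
    · simp [Ya_zero, Pf]
  unfold Lr La
  refine setIntegral_congr_fun measurableSet_Ioi fun t ht => ?_
  have e1 := key (Ioi_subset_Ici_self ht)
  simp only at e1
  rw [Complex.cpow_neg, e1, div_eq_mul_inv]

end Pool.Agent.J4.H67.AS.NLrLa
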