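import Mathlib
set_option autoImplicit false

/-!
Differentiation of `∫_0^1 φ(μ) h(c + μ² (x - c)) dμ`, and primitives on convex open sets.
-/

namespace Pool.Agent.J4.H67.AS

open MeasureTheory Set Metric
open scoped Interval

lemma seg_mem {s : Set ℂ} (hc : Convex ℝ s) {c x : ℂ} (hcs : c ∈ s) (hx : x ∈ s) {μ : ℝ} (hμ : μ ∈ Icc (0 : ℝ) 1) :
    c + (μ : ℂ) ^ 2 * (x - c) ∈ s := by
  have h := hc.add_smul_sub_mem hcs hx (t := μ ^ 2) ⟨by positivity, by nlinarith [hμ.1, hμ.2]⟩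
  rw [Complex.real_smul] at h
  push_cast at h
  exact h

lemma cont_seg {s : Set ℂ} (hc : Convex ℝ s) {h : ℂ → ℂ} (hh : ContinuousOn h s) {c x : ℂ} (hcs : c ∈ s)
    (hx : x ∈ s) : ContinuousOn (fun μ : ℝ => h (c + (μ : ℂ) ^ 2 * (x - c))) (Icc 0 1) := by
  apply hh.comp (by fun_prop)
  intro μ hμ
  exact seg_mem hc hcs hx hμ

lemma param {s : Set ℂ} (hs : IsOpen s) (hc : Convex ℝ s) {h : ℂ → ℂ} (hh : DifferentiableOn ℂ h s) {c x : ℂ} (hcs : c ∈ s)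
    (hx : x ∈ s) (φ : ℝ → ℂ) (hφ : Continuous φ) :
    HasDerivAt (fun x => ∫ μ in (0 : ℝ)..1, φ μ * h (c + (μ : ℂ) ^ 2 * (x - c)))
      (∫ μ in (0 : ℝ)..1, φ μ * ((μ : ℂ) ^ 2 * deriv h (c + (μ : ℂ) ^ 2 * (x - c)))) x := by
  obtain ⟨ε, hε, hball⟩ := nhds_basis_closedBall.mem_iff.1 (hs.mem_nhds hx)
  have hderiv : ContinuousOn (deriv h) s := (hh.deriv hs).continuousOn
  have hmaps : ∀ y ∈ closedBall x ε, ∀ μ ∈ Icc (0 : ℝ) 1, c + (μ : ℂ) ^ 2 * (y - c) ∈ s := fun y hy μ hμ =>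
    seg_mem hc hcs (hball hy) hμ
  have hcompact : IsCompact (closedBall x ε ×ˢ Icc (0 : ℝ) 1) := (isCompact_closedBall x ε).prod isCompact_Icc
  have hcont : ContinuousOn (fun q : ℂ × ℝ => φ q.2 * ((q.2 : ℂ) ^ 2 * deriv h (c + (q.2 : ℂ) ^ 2 * (q.1 - c))))
      (closedBall x ε ×ˢ Icc (0 : ℝ) 1) := by
    apply ContinuousOn.mul (by fun_prop)
    apply ContinuousOn.mul (by fun_prop)
    apply hderiv.comp (by fun_prop)
    rintro ⟨y, μ⟩ ⟨hy, hμ⟩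
    exact hmaps y hy μ hμ
  obtain ⟨M, hM⟩ := hcompact.exists_bound_of_continuousOn hcont
  have hIoc : Ι (0 : ℝ) 1 ⊆ Icc 0 1 := by
    rw [uIoc_of_le zero_le_one]
    exact Ioc_subset_Icc_self
  have hF : ∀ y ∈ closedBall x ε, ContinuousOn (fun μ : ℝ => φ μ * h (c + (μ : ℂ) ^ 2 * (y - c))) (Icc 0 1) := fun y hy =>
    hφ.continuousOn.mul (cont_seg hc hh.continuousOn hcs (hball hy))
  refine (intervalIntegral.hasDerivAt_integral_of_dominated_loc_of_deriv_le (μ := volume)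
    (F := fun x μ => φ μ * h (c + (μ : ℂ) ^ 2 * (x - c)))
    (F' := fun x μ => φ μ * ((μ : ℂ) ^ 2 * deriv h (c + (μ : ℂ) ^ 2 * (x - c)))) (bound := fun _ => M)
    (closedBall_mem_nhds x hε) ?_ ?_ ?_ ?_ ?_ ?_).2
  · filter_upwards [closedBall_mem_nhds x hε] with y hy
    exact ((hF y hy).mono hIoc).aestronglyMeasurable measurableSet_uIoc
  · apply ContinuousOn.intervalIntegrable
    rw [uIcc_of_le zero_le_one]
    exact hF x (mem_closedBall_self hε.le)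
  · have h1 : ContinuousOn (fun μ : ℝ => φ μ * ((μ : ℂ) ^ 2 * deriv h (c + (μ : ℂ) ^ 2 * (x - c)))) (Icc 0 1) :=
      hφ.continuousOn.mul ((by fun_prop : Continuous fun μ : ℝ => (μ : ℂ) ^ 2).continuousOn.mul
        (cont_seg hc hderiv hcs hx))
    exact (h1.mono hIoc).aestronglyMeasurable measurableSet_uIoc
  · refine Filter.Eventually.of_forall fun μ hμ y hy => ?_
    exact hM (y, μ) ⟨hy, hIoc hμ⟩
  · exact intervalIntegrable_const
  · refine Filter.Eventually.of_forall fun μ hμ y hy => ?_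
    have h1 : HasDerivAt h (deriv h (c + (μ : ℂ) ^ 2 * (y - c))) (c + (μ : ℂ) ^ 2 * (y - c)) :=
      (hh.differentiableAt (hs.mem_nhds (hmaps y hy μ (hIoc hμ)))).hasDerivAt
    have h2 : HasDerivAt (fun y : ℂ => c + (μ : ℂ) ^ 2 * (y - c)) ((μ : ℂ) ^ 2) y := by
      have := (((hasDerivAt_id y).sub_const c).const_mul ((μ : ℂ) ^ 2)).const_add c
      simpa using this
    have h3 := (h1.comp y h2).const_mul (φ μ)
    rw [mul_comm (deriv h _)] at h3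
    exact h3

/-- `2 (x - c) I' + I = h(x)` for `I = ∫_0^1 h(c + μ² (x - c)) dμ` -/
lemma euler {s : Set ℂ} (hs : IsOpen s) (hc : Convex ℝ s) {h : ℂ → ℂ} (hh : DifferentiableOn ℂ h s) {c x : ℂ} (hcs : c ∈ s)
    (hx : x ∈ s) :
    2 * (x - c) * (∫ μ in (0 : ℝ)..1, (μ : ℂ) ^ 2 * deriv h (c + (μ : ℂ) ^ 2 * (x - c))) +
      (∫ μ in (0 : ℝ)..1, h (c + (μ : ℂ) ^ 2 * (x - c))) = h x := by
  have hderiv : ContinuousOn (deriv h) s := (hh.deriv hs).continuousOn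
  have c1 : ContinuousOn (fun μ : ℝ => (μ : ℂ) ^ 2 * deriv h (c + (μ : ℂ) ^ 2 * (x - c))) (Icc 0 1) :=
    (by fun_prop : Continuous fun μ : ℝ => (μ : ℂ) ^ 2).continuousOn.mul (cont_seg hc hderiv hcs hx)
  have c2 : ContinuousOn (fun μ : ℝ => h (c + (μ : ℂ) ^ 2 * (x - c))) (Icc 0 1) := cont_seg hc hh.continuousOn hcs hx
  have i1 : IntervalIntegrable (fun μ : ℝ => (μ : ℂ) ^ 2 * deriv h (c + (μ : ℂ) ^ 2 * (x - c))) volume 0 1 := by
    apply ContinuousOn.intervalIntegrable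
    rwa [uIcc_of_le zero_le_one]
  have i2 : IntervalIntegrable (fun μ : ℝ => h (c + (μ : ℂ) ^ 2 * (x - c))) volume 0 1 := by
    apply ContinuousOn.intervalIntegrable
    rwa [uIcc_of_le zero_le_one]
  rw [← intervalIntegral.integral_const_mul, ← intervalIntegral.integral_add (i1.const_mul _) i2]
  have hd : ∀ μ ∈ uIcc (0 : ℝ) 1, HasDerivAt (fun μ : ℝ => (μ : ℂ) * h (c + (μ : ℂ) ^ 2 * (x - c)))
      (2 * (x - c) * ((μ : ℂ) ^ 2 * deriv h (c + (μ : ℂ) ^ 2 * (x - c))) + h (c + (μ : ℂ) ^ 2 * (x - c))) μ := by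
    intro μ hμ
    rw [uIcc_of_le zero_le_one] at hμ
    have h1 : HasDerivAt h (deriv h (c + (μ : ℂ) ^ 2 * (x - c))) (c + (μ : ℂ) ^ 2 * (x - c)) :=
      (hh.differentiableAt (hs.mem_nhds (seg_mem hc hcs hx hμ))).hasDerivAt
    have h0 : HasDerivAt (fun μ : ℝ => (μ : ℂ)) 1 μ := Complex.ofRealCLM.hasDerivAt
    have h2 : HasDerivAt (fun μ : ℝ => c + (μ : ℂ) ^ 2 * (x - c)) (2 * (μ : ℂ) * (x - c)) μ := by
      have := ((h0.pow 2).mul_const (x - c)).const_add c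
      simpa using this
    have h3 := h0.mul (h1.comp μ h2)
    refine h3.congr_deriv ?_
    simp only [Function.comp]
    ring
  rw [intervalIntegral.integral_eq_sub_of_hasDerivAt hd ((i1.const_mul _).add i2)]
  simp

/-- primitives on convex open sets -/
lemma exists_primitive {s : Set ℂ} (hs : IsOpen s) (hc : Convex ℝ s) {h : ℂ → ℂ} (hh : DifferentiableOn ℂ h s)
    {c : ℂ} (hcs : c ∈ s) : ∃ Ψ : ℂ → ℂ, ∀ x ∈ s, HasDerivAt Ψ (h x) x := by
  refine ⟨fun x => (x - c) * ∫ μ in (0 : ℝ)..1, (2 * (μ : ℂ)) * h (c + (μ : ℂ) ^ 2 * (x - c)), fun x hx => ?_⟩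
  have h1 := param hs hc hh hcs hx (fun μ => 2 * (μ : ℂ)) (by fun_prop)
  have h2 := (((hasDerivAt_id x).sub_const c)).mul h1
  refine h2.congr_deriv ?_
  have hderiv : ContinuousOn (deriv h) s := (hh.deriv hs).continuousOn
  have c1 : ContinuousOn (fun μ : ℝ => 2 * (μ : ℂ) * ((μ : ℂ) ^ 2 * deriv h (c + (μ : ℂ) ^ 2 * (x - c)))) (Icc 0 1) :=
    (by fun_prop : Continuous fun μ : ℝ => 2 * (μ : ℂ)).continuousOn.mul
    ((by fun_prop : Continuous fun μ : ℝ => (μ : ℂ) ^ 2).continuousOn.mul (cont_seg hc hderiv hcs hx))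
  have c2 : ContinuousOn (fun μ : ℝ => 2 * (μ : ℂ) * h (c + (μ : ℂ) ^ 2 * (x - c))) (Icc 0 1) :=
    (by fun_prop : Continuous fun μ : ℝ => 2 * (μ : ℂ)).continuousOn.mul (cont_seg hc hh.continuousOn hcs hx)
  have i1 : IntervalIntegrable (fun μ : ℝ => 2 * (μ : ℂ) * ((μ : ℂ) ^ 2 * deriv h (c + (μ : ℂ) ^ 2 * (x - c)))) volume 0 1 := by
    apply ContinuousOn.intervalIntegrable
    rwa [uIcc_of_le zero_le_one]
  have i2 : IntervalIntegrable (fun μ : ℝ => 2 * (μ : ℂ) * h (c + (μ : ℂ) ^ 2 * (x - c))) volume 0 1 := by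
    apply ContinuousOn.intervalIntegrable
    rwa [uIcc_of_le zero_le_one]
  simp only [id, one_mul]
  rw [← intervalIntegral.integral_const_mul, ← intervalIntegral.integral_add i2 (i1.const_mul _)]
  have hd : ∀ μ ∈ uIcc (0 : ℝ) 1, HasDerivAt (fun μ : ℝ => (μ : ℂ) ^ 2 * h (c + (μ : ℂ) ^ 2 * (x - c)))
      (2 * (μ : ℂ) * h (c + (μ : ℂ) ^ 2 * (x - c)) + (x - c) * (2 * (μ : ℂ) * ((μ : ℂ) ^ 2 * deriv h (c + (μ : ℂ) ^ 2 * (x - c))))) μ := by
    intro μ hμ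
    rw [uIcc_of_le zero_le_one] at hμ
    have h1 : HasDerivAt h (deriv h (c + (μ : ℂ) ^ 2 * (x - c))) (c + (μ : ℂ) ^ 2 * (x - c)) :=
      (hh.differentiableAt (hs.mem_nhds (seg_mem hc hcs hx hμ))).hasDerivAt
    have h0 : HasDerivAt (fun μ : ℝ => (μ : ℂ)) 1 μ := Complex.ofRealCLM.hasDerivAt
    have h2 : HasDerivAt (fun μ : ℝ => c + (μ : ℂ) ^ 2 * (x - c)) (2 * (μ : ℂ) * (x - c)) μ := by
      have := ((h0.pow 2).mul_const (x - c)).const_add c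
      simpa using this
    have h3 := (h0.pow 2).mul (h1.comp μ h2)
    refine h3.congr_deriv ?_
    simp only [Function.comp, Pi.pow_apply, Nat.cast_ofNat]
    ring
  rw [intervalIntegral.integral_eq_sub_of_hasDerivAt hd (i2.add (i1.const_mul _))]
  simp

end Pool.Agent.J4.H67.AS
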