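import Pool.Agent.J4.H67.AS.Geom
import Pool.Agent.J4.H67.AS.Param
set_option autoImplicit false

/-!
Analytic functions on the sectors: the square roots `qa`, `Ya` and the functions `ga`.
-/

namespace Pool.Agent.J4.H67.AS

open MeasureTheory Set Filter
open scoped Topology

lemma half_sq (z : ℂ) : (z ^ (1 / 2 : ℂ)) ^ 2 = z := by
  have h := Complex.cpow_nat_inv_pow z (n := 2) (by norm_num)
  rw [one_div]
  exact_mod_cast h

lemma half_ne {z : ℂ} (hz : z ≠ 0) : z ^ (1 / 2 : ℂ) ≠ 0 := by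
  intro h
  apply hz
  rw [← half_sq z, h]
  ring

variable {a : Fin 6 → ℂ}

lemma diff_factor (j : Fin 6) {x : ℂ} (hx : 1 - x / a j ∈ Complex.slitPlane) :
    DifferentiableAt ℂ (fun x : ℂ => (1 - x / a j) ^ (1 / 2 : ℂ)) x :=
  ((differentiableAt_const _).sub (differentiableAt_id.div_const _)).cpow_const hx

lemma qa_diff (ha : Near a) (k : Fin 6) : DifferentiableOn ℂ (qa a k) (S k) := by
  unfold qa
  apply DifferentiableOn.fun_finsetProd
  intro j hj x hx
  exact (diff_factor j (one_sub_mem_slit ha (Finset.ne_of_mem_erase hj) hx)).differentiableWithinAt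

lemma qa_sq (k : Fin 6) (x : ℂ) : qa a k x ^ 2 = ∏ j ∈ Finset.univ.erase k, (1 - x / a j) := by
  unfold qa
  rw [← Finset.prod_pow]
  exact Finset.prod_congr rfl fun j _ => half_sq _

lemma Pa_eq (k : Fin 6) (x : ℂ) : Pa a x = (1 - x / a k) * qa a k x ^ 2 := by
  rw [qa_sq, Pa, ← Finset.mul_prod_erase _ _ (Finset.mem_univ k)]

lemma Ya_eq (k : Fin 6) (x : ℂ) : Ya a x = (1 - x / a k) ^ (1 / 2 : ℂ) * qa a k x := by
  rw [qa, Ya, ← Finset.mul_prod_erase _ _ (Finset.mem_univ k)]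

lemma Ya_sq (x : ℂ) : Ya a x ^ 2 = Pa a x := by
  rw [Ya_eq 0, Pa_eq 0, mul_pow, half_sq]

lemma Ya_zero : Ya a 0 = 1 := by
  simp [Ya]

lemma qa_norm_sq (ha : Near a) {k : Fin 6} {x : ℂ} (hx : x ∈ S k) : (1 / 100 * (1 + ‖x‖)) ^ 5 ≤ ‖qa a k x‖ ^ 2 := by
  rw [← norm_pow, qa_sq, norm_prod]
  have h : ∏ _j ∈ Finset.univ.erase k, (1 / 100 * (1 + ‖x‖)) ≤ ∏ j ∈ Finset.univ.erase k, ‖1 - x / a j‖ := by
    apply Finset.prod_le_prod
    · intro j _
      positivity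
    · intro j hj
      exact sep ha (Finset.ne_of_mem_erase hj) hx
  rw [Finset.prod_const, Finset.card_erase_of_mem (Finset.mem_univ k)] at h
  simpa using h

lemma qa_norm (ha : Near a) {k : Fin 6} {x : ℂ} (hx : x ∈ S k) :
    (1 + ‖x‖) ^ (5 / 2 : ℝ) ≤ 100000 * ‖qa a k x‖ := by
  have h := qa_norm_sq ha hx
  have h0 : (0 : ℝ) ≤ 1 + ‖x‖ := by positivity
  have h1 : ((1 + ‖x‖) ^ (5 / 2 : ℝ)) ^ 2 = (1 + ‖x‖) ^ 5 := by
    rw [← Real.rpow_natCast, ← Real.rpow_mul h0, ← Real.rpow_natCast]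
    norm_num
  apply le_of_sq_le_sq _ (by positivity)
  rw [h1, mul_pow]
  nlinarith

lemma qa_ne (ha : Near a) {k : Fin 6} {x : ℂ} (hx : x ∈ S k) : qa a k x ≠ 0 := by
  intro h
  have h1 := qa_norm_sq ha hx
  rw [h, norm_zero] at h1
  have : 0 < (1 / 100 * (1 + ‖x‖)) ^ 5 := by positivity
  linarith [show (0 : ℝ) ^ 2 = 0 by norm_num]

lemma ratio_diff (ha : Near a) (k : Fin 6) (j : ℕ) : DifferentiableOn ℂ (fun x => x ^ j / qa a k x) (S k) :=
  (differentiable_id.pow j).differentiableOn.div (qa_diff ha k) fun _ hx => qa_ne ha hx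

/-- **The differential equation**: `P g' + P' g / 2 = x^j` -/
lemma ga_ode (ha : Near a) (k : Fin 6) (j : Fin 2) {x : ℂ} (hx : x ∈ S k) :
    ∃ g' P' : ℂ, HasDerivAt (ga a k j) g' x ∧ HasDerivAt (Pa a) P' x ∧
      Pa a x * g' + 1 / 2 * P' * ga a k j x = x ^ (j : ℕ) := by
  have hr := ratio_diff ha k (j : ℕ)
  have hak := root_mem_S ha k
  have h1 := param (isOpen_S k) (convex_S k) hr hak hx (fun _ => 1) continuous_const
  simp only [one_mul] at h1
  have h2 := euler (isOpen_S k) (convex_S k) hr hak hx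
  set I0 := ∫ μ in (0 : ℝ)..1, (a k + (μ : ℂ) ^ 2 * (x - a k)) ^ (j : ℕ) / qa a k (a k + (μ : ℂ) ^ 2 * (x - a k)) with hI0
  set I1 := ∫ μ in (0 : ℝ)..1, (μ : ℂ) ^ 2 * deriv (fun x => x ^ (j : ℕ) / qa a k x) (a k + (μ : ℂ) ^ 2 * (x - a k)) with hI1
  have hq : HasDerivAt (qa a k) (deriv (qa a k) x) x :=
    ((qa_diff ha k).differentiableAt ((isOpen_S k).mem_nhds hx)).hasDerivAt
  set q' := deriv (qa a k) x with hq'
  have hq0 := qa_ne ha hx
  have ha0 := near_ne ha k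
  have hg : HasDerivAt (ga a k j) ((0 * qa a k x - -2 * a k * q') / qa a k x ^ 2 * I0 + -2 * a k / qa a k x * I1) x := by
    have e1 := ((hasDerivAt_const x (-2 * a k)).div hq hq0).mul h1
    exact e1
  have hP : HasDerivAt (Pa a) ((0 - 1 / a k) * qa a k x ^ 2 + (1 - x / a k) * (2 * qa a k x * q')) x := by
    have e0 : Pa a = fun x => (1 - x / a k) * qa a k x ^ 2 := funext fun x => Pa_eq k x
    rw [e0]
    have e1 := ((hasDerivAt_const x (1 : ℂ)).sub ((hasDerivAt_id x).div_const (a k))).mul (hq.pow 2)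
    refine e1.congr_deriv ?_
    simp only [id, Pi.pow_apply, Nat.cast_ofNat, Pi.sub_apply]
    ring
  refine ⟨_, _, hg, hP, ?_⟩
  rw [Pa_eq k]
  have e3 : ga a k j x = -2 * a k / qa a k x * I0 := rfl
  rw [e3]
  have e4 : x ^ (j : ℕ) = qa a k x * (2 * (x - a k) * I1 + I0) := by
    rw [h2, mul_div_cancel₀ _ hq0]
  rw [e4]
  field_simp
  ring

lemma ga_diff (ha : Near a) (k : Fin 6) (j : Fin 2) : DifferentiableOn ℂ (ga a k j) (S k) := by
  intro x hx
  obtain ⟨g', P', h1, -, -⟩ := ga_ode ha k j hx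
  exact h1.differentiableAt.differentiableWithinAt

/-- decay of `ga` -/
lemma ga_norm (ha : Near a) (k : Fin 6) (j : Fin 2) {x : ℂ} (hx : x ∈ S k) :
    ‖ga a k j x‖ ≤ 10 ^ 11 * (1 + ‖x‖) ^ (-(5 / 2) : ℝ) := by
  have hak := root_mem_S ha k
  have h1 : ‖∫ μ in (0 : ℝ)..1, (a k + (μ : ℂ) ^ 2 * (x - a k)) ^ (j : ℕ) / qa a k (a k + (μ : ℂ) ^ 2 * (x - a k))‖ ≤
      100000 * |(1 : ℝ) - 0| := by
    apply intervalIntegral.norm_integral_le_of_norm_le_const
    intro μ hμ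
    rw [uIoc_of_le zero_le_one] at hμ
    have hm := seg_mem (convex_S k) hak hx (Ioc_subset_Icc_self hμ)
    set z := a k + (μ : ℂ) ^ 2 * (x - a k) with hz
    have h2 := qa_norm ha hm
    have h3 : 0 < ‖qa a k z‖ := norm_pos_iff.2 (qa_ne ha hm)
    rw [norm_div, norm_pow, div_le_iff₀ h3]
    refine le_trans ?_ h2
    have h4 : (1 : ℝ) ≤ 1 + ‖z‖ := by linarith [norm_nonneg z]
    have h5 : ‖z‖ ^ (j : ℕ) ≤ (1 + ‖z‖) ^ (1 : ℕ) := by
      have hj : (j : ℕ) ≤ 1 := by omega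
      calc ‖z‖ ^ (j : ℕ) ≤ (1 + ‖z‖) ^ (j : ℕ) := pow_le_pow_left₀ (norm_nonneg _) (by linarith) _
        _ ≤ (1 + ‖z‖) ^ (1 : ℕ) := pow_le_pow_right₀ h4 hj
    refine h5.trans ?_
    rw [← Real.rpow_natCast]
    exact Real.rpow_le_rpow_of_exponent_le h4 (by norm_num)
  rw [sub_zero, abs_one, mul_one] at h1
  have h2 := qa_norm ha hx
  have h3 : 0 < ‖qa a k x‖ := norm_pos_iff.2 (qa_ne ha hx)
  have h0 : (0 : ℝ) < 1 + ‖x‖ := by positivity
  unfold ga
  rw [norm_mul, norm_div, norm_mul, norm_neg, Real.rpow_neg h0.le]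
  have h4 : ‖(2 : ℂ)‖ * ‖a k‖ / ‖qa a k x‖ ≤ 300000 * ((1 + ‖x‖) ^ (5 / 2 : ℝ))⁻¹ := by
    rw [div_le_iff₀ h3, mul_assoc, ← div_eq_inv_mul, mul_div_assoc', le_div_iff₀ (by positivity)]
    have h5 := (near_norm ha k).2
    have h6 : ‖(2 : ℂ)‖ = 2 := by simp
    rw [h6]
    have h7 : 0 ≤ (1 + ‖x‖) ^ (5 / 2 : ℝ) := by positivity
    nlinarith
  calc ‖(2 : ℂ)‖ * ‖a k‖ / ‖qa a k x‖ * _ ≤ 300000 * ((1 + ‖x‖) ^ (5 / 2 : ℝ))⁻¹ * 100000 :=
        mul_le_mul h4 h1 (norm_nonneg _) (by positivity)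
    _ ≤ 10 ^ 11 * ((1 + ‖x‖) ^ (5 / 2 : ℝ))⁻¹ := by
        have : 0 ≤ ((1 + ‖x‖) ^ (5 / 2 : ℝ))⁻¹ := by positivity
        nlinarith

/-! ### the square root `Ya` on overlaps of two sectors -/

lemma Ya_diff (ha : Near a) {k l : Fin 6} (hkl : k ≠ l) {x : ℂ} (hk : x ∈ S k) (hl : x ∈ S l) :
    DifferentiableAt ℂ (Ya a) x := by
  have e0 : Ya a = fun x => (1 - x / a k) ^ (1 / 2 : ℂ) * qa a k x := funext fun x => Ya_eq k x
  rw [e0]
  exact (diff_factor k (one_sub_mem_slit ha hkl hl)).mul ((qa_diff ha k).differentiableAt ((isOpen_S k).mem_nhds hk))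

lemma Ya_ne (ha : Near a) {k l : Fin 6} (hkl : k ≠ l) {x : ℂ} (hk : x ∈ S k) (hl : x ∈ S l) : Ya a x ≠ 0 := by
  rw [Ya_eq k]
  exact mul_ne_zero (half_ne (Complex.slitPlane_ne_zero (one_sub_mem_slit ha hkl hl))) (qa_ne ha hk)

lemma Ya_ga_deriv (ha : Near a) {k l m : Fin 6} (hkl : k ≠ l) (hm : m = k ∨ m = l) (j : Fin 2) {x : ℂ} (hk : x ∈ S k) (hl : x ∈ S l) :
    HasDerivAt (fun x => Ya a x * ga a m j x) (x ^ (j : ℕ) / Ya a x) x := by
  have hxm : x ∈ S m := by rcases hm with rfl | rfl <;> assumption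
  obtain ⟨g', P', h1, h2, h3⟩ := ga_ode ha m j hxm
  have hY := (Ya_diff ha hkl hk hl).hasDerivAt
  have hY0 := Ya_ne ha hkl hk hl
  have h4 : HasDerivAt (fun x => Ya a x ^ 2) (2 * Ya a x * deriv (Ya a) x) x := by
    exact (hY.pow 2).congr_deriv (by simp)
  have h5 : (fun x => Ya a x ^ 2) = Pa a := funext fun x => Ya_sq x
  rw [h5] at h4
  have h6 := h4.unique h2
  refine (hY.mul h1).congr_deriv ?_
  rw [eq_div_iff hY0, ← h3, ← h6, ← Ya_sq]
  ring

/-- on an overlap the two primitives differ by a constant -/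
lemma Ya_ga_sub (ha : Near a) {k l : Fin 6} (hkl : k ≠ l) (j : Fin 2) {x : ℂ} (hk : x ∈ S k) (hl : x ∈ S l) :
    Ya a x * (ga a k j x - ga a l j x) = ga a k j 0 - ga a l j 0 := by
  have hconv : Convex ℝ (S k ∩ S l) := (convex_S k).inter (convex_S l)
  have hd : ∀ y ∈ S k ∩ S l, HasDerivWithinAt (fun x => Ya a x * ga a k j x - Ya a x * ga a l j x) 0 (S k ∩ S l) y := by
    intro y hy
    have h1 := (Ya_ga_deriv ha hkl (Or.inl rfl) j hy.1 hy.2).sub (Ya_ga_deriv ha hkl (Or.inr rfl) j hy.1 hy.2)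
    rw [sub_self] at h1
    exact h1.hasDerivWithinAt
  have h2 := hconv.is_const_of_fderivWithin_eq_zero (𝕜 := ℂ) (f := fun x => Ya a x * ga a k j x - Ya a x * ga a l j x)
    (fun y hy => (hd y hy).differentiableWithinAt)
    (fun y hy => by
      have hu : UniqueDiffWithinAt ℂ (S k ∩ S l) y := ((isOpen_S k).inter (isOpen_S l)).uniqueDiffWithinAt hy
      have h3 := (hd y hy).hasFDerivWithinAt.fderivWithin hu
      rw [h3]
      ext
      simp) (x := x) (y := 0) ⟨hk, hl⟩ ⟨zero_mem_S k, zero_mem_S l⟩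
  simp only [Ya_zero, one_mul] at h2
  linear_combination h2

lemma fin_ne_succ (k : Fin 6) : k ≠ k + 1 := by
  revert k
  decide

/-- `La` integrand bound on a ray -/
lemma Ya_norm_ray (ha : Near a) (k : Fin 6) {t : ℝ} (ht : 0 ≤ t) : 1 / 10 ^ 6 * (1 + t) ^ (3 : ℝ) ≤ ‖Ya a (rho k * t)‖ := by
  have hk := ray_mem k ht
  have hl := ray_mem' k ht
  have hn : ‖rho k * (t : ℂ)‖ = t := by
    rw [norm_mul, nrm_rho, one_mul, Complex.norm_real, Real.norm_of_nonneg ht]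
  have h1 : (1 / 100 * (1 + t)) ^ 6 ≤ ‖Ya a (rho k * t)‖ ^ 2 := by
    rw [← norm_pow, Ya_sq, Pa, norm_prod]
    have h : ∏ _j : Fin 6, (1 / 100 * (1 + t)) ≤ ∏ j, ‖1 - rho k * t / a j‖ := by
      apply Finset.prod_le_prod
      · intro j _
        positivity
      · intro j _
        by_cases hj : j = k
        · have := sep ha (j := j) (k := k + 1) (by rw [hj]; exact fin_ne_succ k) hl
          rwa [hn] at this
        · have := sep ha hj hk
          rwa [hn] at this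
    simpa using h
  apply le_of_sq_le_sq _ (norm_nonneg _)
  refine le_trans (le_of_eq ?_) h1
  have e1 : (1 + t) ^ (3 : ℝ) = (1 + t) ^ 3 := by
    rw [← Real.rpow_natCast]; norm_num
  rw [e1]
  ring

lemma integrable_rpow_shift {s : ℝ} (hs : s < -1) : IntegrableOn (fun t : ℝ => (1 + t) ^ s) (Ioi 0) := by
  have h := integrableOn_Ioi_rpow_of_lt hs one_pos
  have h2 := (integrable_indicator_iff measurableSet_Ioi).2 h
  have h3 := h2.comp_add_left (1 : ℝ)
  rw [← integrable_indicator_iff measurableSet_Ioi]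
  refine h3.congr (Eventually.of_forall fun t => ?_)
  simp only [indicator, mem_Ioi]
  by_cases ht : 0 < t
  · rw [if_pos ht, if_pos (by linarith)]
  · rw [if_neg ht, if_neg (by linarith)]

lemma ray_cont (k : Fin 6) {f : ℂ → ℂ} {s : Set ℂ} (hf : ContinuousOn f s) (hs : ∀ t : ℝ, 0 ≤ t → rho k * t ∈ s) :
    ContinuousOn (fun t : ℝ => f (rho k * t)) (Ici 0) := by
  apply hf.comp (by fun_prop)
  intro t ht
  exact hs t ht

lemma Ya_contOn (ha : Near a) (k : Fin 6) : ContinuousOn (Ya a) (S k ∩ S (k + 1)) := fun _ hx =>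
  (Ya_diff ha (fin_ne_succ k) hx.1 hx.2).continuousAt.continuousWithinAt

lemma La_cont (ha : Near a) (k : Fin 6) (j : Fin 2) :
    ContinuousOn (fun t : ℝ => rho k ^ ((j : ℕ) + 1) * (t : ℂ) ^ (j : ℕ) / Ya a (rho k * t)) (Ici 0) := by
  apply ContinuousOn.div (by fun_prop)
  · exact ray_cont k (Ya_contOn ha k) fun t ht => ⟨ray_mem k ht, ray_mem' k ht⟩
  · intro t ht
    exact Ya_ne ha (fin_ne_succ k) (ray_mem k ht) (ray_mem' k ht)

lemma La_integrable (ha : Near a) (k : Fin 6) (j : Fin 2) :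
    IntegrableOn (fun t : ℝ => rho k ^ ((j : ℕ) + 1) * (t : ℂ) ^ (j : ℕ) / Ya a (rho k * t)) (Ioi 0) := by
  have h1 := (integrable_rpow_shift (s := -2) (by norm_num)).const_mul (10 ^ 6)
  refine Integrable.mono' h1 (((La_cont ha k j).mono Ioi_subset_Ici_self).aestronglyMeasurable measurableSet_Ioi) ?_
  rw [ae_restrict_iff' measurableSet_Ioi]
  refine Eventually.of_forall fun t ht => ?_
  have ht : (0 : ℝ) < t := ht
  have h2 := Ya_norm_ray ha k ht.le
  have h3 : 0 < ‖Ya a (rho k * t)‖ := norm_pos_iff.2 (Ya_ne ha (fin_ne_succ k) (ray_mem k ht.le) (ray_mem' k ht.le))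
  rw [norm_div, norm_mul, norm_pow, norm_pow, nrm_rho, one_pow, one_mul, Complex.norm_real, Real.norm_of_nonneg ht.le,
    div_le_iff₀ h3]
  have h4 : t ^ (j : ℕ) ≤ (1 + t) ^ (1 : ℝ) := by
    rw [Real.rpow_one]
    have hj : (j : ℕ) = 0 ∨ (j : ℕ) = 1 := by omega
    rcases hj with hj | hj <;> rw [hj]
    · rw [pow_zero]; linarith
    · rw [pow_one]; linarith
  have h5 : (1 + t) ^ (1 : ℝ) = (1 + t) ^ (-2 : ℝ) * (1 + t) ^ (3 : ℝ) := by
    rw [← Real.rpow_add (by linarith)]; norm_num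
  have h6 : (0 : ℝ) < (1 + t) ^ (-2 : ℝ) := by positivity
  calc t ^ (j : ℕ) ≤ (1 + t) ^ (-2 : ℝ) * (1 + t) ^ (3 : ℝ) := by rw [← h5]; exact h4
    _ = 10 ^ 6 * (1 + t) ^ (-2 : ℝ) * (1 / 10 ^ 6 * (1 + t) ^ (3 : ℝ)) := by ring
    _ ≤ _ := mul_le_mul_of_nonneg_left h2 (by positivity)

/-- limit of the primitives along a ray -/
lemma ray_limit (ha : Near a) (k m : Fin 6) (hm : m = k ∨ m = k + 1) (j : Fin 2) :
    Tendsto (fun R : ℝ => Ya a (rho k * R) * ga a m j (rho k * R)) atTop (𝓝 (ga a m j 0 + La a k j)) := by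
  have h1 := intervalIntegral_tendsto_integral_Ioi 0 (La_integrable ha k j) tendsto_id
  have h2 := h1.const_add (ga a m j 0)
  refine h2.congr' ?_
  filter_upwards [eventually_ge_atTop (0 : ℝ)] with R hR
  have hd : ∀ t ∈ uIcc (0 : ℝ) R, HasDerivAt (fun t : ℝ => Ya a (rho k * t) * ga a m j (rho k * t))
      (rho k ^ ((j : ℕ) + 1) * (t : ℂ) ^ (j : ℕ) / Ya a (rho k * t)) t := by
    intro t ht
    rw [uIcc_of_le hR] at ht
    have e1 := Ya_ga_deriv ha (fin_ne_succ k) hm j (ray_mem k ht.1) (ray_mem' k ht.1)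
    have e2 : HasDerivAt (fun t : ℝ => rho k * (t : ℂ)) (rho k) t := by
      have := (Complex.ofRealCLM.hasDerivAt (x := t)).const_mul (rho k)
      simpa using this
    have e3 := e1.comp t e2
    refine e3.congr_deriv ?_
    rw [mul_pow, pow_succ]
    ring
  have hi : IntervalIntegrable (fun t : ℝ => rho k ^ ((j : ℕ) + 1) * (t : ℂ) ^ (j : ℕ) / Ya a (rho k * t)) volume 0 R := by
    apply ContinuousOn.intervalIntegrable
    rw [uIcc_of_le hR]
    exact (La_cont ha k j).mono Icc_subset_Ici_self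
  have h3 := intervalIntegral.integral_eq_sub_of_hasDerivAt hd hi
  simp only [id] 
  rw [h3]
  simp only [Complex.ofReal_zero, mul_zero, Ya_zero, one_mul]
  ring

/-- chords: a function with small derivative at infinity has the same behaviour on the two rays of a sector -/
lemma chord {f f' : ℂ → ℂ} (k : Fin 6) (C : ℝ) (hf : ∀ x ∈ S (k + 1), HasDerivAt f (f' x) x)
    (hb : ∀ x ∈ S (k + 1), ‖f' x‖ ≤ C * (1 + ‖x‖) ^ (-(3 / 2) : ℝ)) :
    Tendsto (fun R : ℝ => f (rho (k + 1) * R) - f (rho k * R)) atTop (𝓝 0) := by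
  have hC : 0 ≤ C := by
    have h := (norm_nonneg _).trans (hb 0 (zero_mem_S _))
    simpa using h
  have hmain : ∀ R : ℝ, 0 < R → ‖f (rho (k + 1) * R) - f (rho k * R)‖ ≤ C * 4 * R ^ (-(1 / 2) : ℝ) := by
    intro R hR
    set s : Set ℂ := segment ℝ (rho k * R) (rho (k + 1) * R) with hs
    have hsS : s ⊆ S (k + 1) := (convex_S (k + 1)).segment_subset (ray_mem' k hR.le) (ray_mem (k + 1) hR.le)
    have hnorm : ∀ x ∈ s, R / 2 ≤ ‖x‖ := by
      intro x hx
      rw [hs, segment_eq_image] at hx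
      obtain ⟨θ, hθ, rfl⟩ := hx
      have e1 : (((1 - θ) • (rho k * R) + θ • (rho (k + 1) * R)) / zk (k + 1)).re = R * (Real.sqrt 3 / 2) := by
        have e2 : ((1 - θ) • (rho k * R) + θ • (rho (k + 1) * R)) / zk (k + 1) =
            ((1 - θ) * R : ℝ) * (rho k / zk (k + 1)) + (θ * R : ℝ) * (rho (k + 1) / zk (k + 1)) := by
          simp only [Complex.real_smul]
          push_cast
          ring
        rw [e2, rho_div_zk_succ, rho_div_zk, Complex.add_re, Complex.re_ofReal_mul, Complex.re_ofReal_mul]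
        simp only [w0]
        ring
      have e3 := Complex.re_le_norm (((1 - θ) • (rho k * R) + θ • (rho (k + 1) * R)) / zk (k + 1))
      rw [e1, norm_div, nrm_zk, div_one] at e3
      have := sqrt3_gt
      nlinarith
    have hbound : ∀ x ∈ s, ‖f' x‖ ≤ C * (R / 2) ^ (-(3 / 2) : ℝ) := by
      intro x hx
      refine (hb x (hsS hx)).trans (mul_le_mul_of_nonneg_left ?_ hC)
      exact Real.rpow_le_rpow_of_nonpos (by positivity) (by linarith [hnorm x hx]) (by norm_num)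
    have h1 := (convex_segment (rho k * R) (rho (k + 1) * R)).norm_image_sub_le_of_norm_hasDerivWithin_le
      (fun x hx => (hf x (hsS hx)).hasDerivWithinAt) hbound (left_mem_segment ℝ _ _) (right_mem_segment ℝ _ _)
    refine h1.trans ?_
    have h2 : ‖rho (k + 1) * (R : ℂ) - rho k * R‖ ≤ R := by
      have e : rho (k + 1) * (R : ℂ) - rho k * R = (zt - 1) * rho k * R := by
        rw [rho_succ]; ring
      have e2 : zt - 1 = zt ^ 2 := by
        rw [zt2]
        apply Complex.ext <;> simp [zt]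
        norm_num
      rw [e, norm_mul, norm_mul, nrm_rho, e2, norm_pow, norm_zt, Complex.norm_real, Real.norm_of_nonneg hR.le]
      simp
    have h3 : (R / 2) ^ (-(3 / 2) : ℝ) ≤ 4 * R ^ (-(3 / 2) : ℝ) := by
      rw [Real.div_rpow hR.le (by norm_num), div_eq_mul_inv, mul_comm, ← Real.rpow_neg (by norm_num)]
      apply mul_le_mul_of_nonneg_right _ (by positivity)
      calc (2 : ℝ) ^ (-(-(3 / 2)) : ℝ) ≤ 2 ^ (2 : ℝ) := Real.rpow_le_rpow_of_exponent_le (by norm_num) (by norm_num)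
        _ = 4 := by norm_num
    have h4 : R ^ (-(3 / 2) : ℝ) * R = R ^ (-(1 / 2) : ℝ) := by
      nth_rewrite 2 [← Real.rpow_one R]
      rw [← Real.rpow_add hR]
      norm_num
    calc C * (R / 2) ^ (-(3 / 2) : ℝ) * ‖rho (k + 1) * (R : ℂ) - rho k * R‖ ≤ C * (4 * R ^ (-(3 / 2) : ℝ)) * R := by
          apply mul_le_mul (mul_le_mul_of_nonneg_left h3 hC) h2 (norm_nonneg _) (by positivity)
      _ = C * 4 * (R ^ (-(3 / 2) : ℝ) * R) := by ring
      _ = _ := by rw [h4]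
  have hlim : Tendsto (fun R : ℝ => C * 4 * R ^ (-(1 / 2) : ℝ)) atTop (𝓝 0) := by
    have := (tendsto_rpow_neg_atTop (y := 1 / 2) (by norm_num)).const_mul (C * 4)
    simpa using this
  apply squeeze_zero_norm' _ hlim
  filter_upwards [eventually_gt_atTop (0 : ℝ)] with R hR
  exact hmain R hR

end Pool.Agent.J4.H67.AS
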