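import Pool.Agent.J4.H67.AS.FDefs
import Pool.Agent.J4.H67.AS.Sector
set_option autoImplicit false

/-!
The map from the curve to the torus.
-/

namespace Pool.Agent.J4.H67.AS.NMap

open MeasureTheory Set Filter
open scoped ComplexConjugate Topology Interval

variable {a : Fin 6 → ℂ}

/-- local primitive on the sector `S k` -/
noncomputable def loc (a : Fin 6 → ℂ) (k : Fin 6) (x y : ℂ) : Fin 2 → ℂ := fun j => y * ga a k j x

/-- the value at the base -/
noncomputable def bs (a : Fin 6 → ℂ) (k i : Fin 6) : Fin 2 → ℂ := fun j => ga a i j 0 - ga a k j 0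

variable {Λ : AddSubgroup (Fin 2 → ℂ)}

lemma mk_eq_of {M : Matrix (Fin 2) (Fin 2) ℂ} {v w : Fin 2 → ℂ} (h : M.mulVec (v - w) ∈ Λ) :
    (QuotientAddGroup.mk (M.mulVec v) : (Fin 2 → ℂ) ⧸ Λ) = QuotientAddGroup.mk (M.mulVec w) := by
  rw [QuotientAddGroup.eq]
  have : -M.mulVec v + M.mulVec w = -M.mulVec (v - w) := by
    rw [Matrix.mulVec_sub]
    abel
  rw [this]
  exact Λ.neg_mem h

/-- independence of the sector -/
lemma indep (ha : Near a) (M : Matrix (Fin 2) (Fin 2) ℂ)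
    (hper : ∀ k l, M.mulVec (fun j => 2 * (ga a k j 0 - ga a l j 0)) ∈ Λ) (i : Fin 6) {x y : ℂ} (hy : y ^ 2 = Pa a x)
    {k l : Fin 6} (hk : x ∈ S k) (hl : x ∈ S l) :
    (QuotientAddGroup.mk (M.mulVec (loc a k x y + bs a k i)) : (Fin 2 → ℂ) ⧸ Λ) =
      QuotientAddGroup.mk (M.mulVec (loc a l x y + bs a l i)) := by
  by_cases hkl : k = l
  · rw [hkl]
  apply mk_eq_of
  have hY : y = Ya a x ∨ y = -Ya a x := by
    rw [← Ya_sq] at hy
    exact sq_eq_sq_iff_eq_or_eq_neg.1 hy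
  rcases hY with h | h
  · have e : loc a k x y + bs a k i - (loc a l x y + bs a l i) = 0 := by
      ext j
      have := Ya_ga_sub ha hkl j hk hl
      simp only [loc, bs, Pi.add_apply, Pi.sub_apply, Pi.zero_apply, h]
      linear_combination this
    rw [e, Matrix.mulVec_zero]
    exact Λ.zero_mem
  · have e : loc a k x y + bs a k i - (loc a l x y + bs a l i) = fun j => 2 * (ga a l j 0 - ga a k j 0) := by
      ext j
      have := Ya_ga_sub ha hkl j hk hl
      simp only [loc, bs, Pi.add_apply, Pi.sub_apply, h]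
      linear_combination -this
    rw [e]
    exact hper l k

/-- derivative of the local primitive along a path -/
lemma loc_deriv (ha : Near a) (P : Polynomial ℂ) (hP : ∀ x, P.eval x = Pa a x) {x y : ℝ → ℂ} {x' y' : ℂ} {t : ℝ}
    (hx : HasDerivAt x x' t) (hy : HasDerivAt y y' t) (hy0 : y t ≠ 0) (hsq : ∀ᶠ s in 𝓝 t, y s ^ 2 = P.eval (x s))
    {k : Fin 6} (hk : x t ∈ S k) (j : Fin 2) :
    HasDerivAt (fun t => y t * ga a k j (x t)) (x t ^ (j : ℕ) * x' / y t) t := by
  obtain ⟨g', P', h1, h2, h3⟩ := ga_ode ha k j hk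
  have h4 : HasDerivAt (fun t => y t ^ 2) (2 * y t * y') t := (hy.pow 2).congr_deriv (by simp)
  have h5 : HasDerivAt (fun t => Pa a (x t)) (P' * x') t := h2.comp t hx
  have h6 : (fun t => y t ^ 2) =ᶠ[𝓝 t] fun t => Pa a (x t) := by
    filter_upwards [hsq] with s hs
    rw [hs, hP]
  have h7 : 2 * y t * y' = P' * x' := (h4.congr_of_eventuallyEq h6.symm).unique h5
  have h8 : y t ^ 2 = Pa a (x t) := by rw [hsq.self_of_nhds, hP]
  have h9 := hy.mul (h1.comp t hx)
  refine h9.congr_deriv ?_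
  rw [← h3, eq_div_iff hy0]
  simp only [Function.comp]
  linear_combination (1 / 2 * ga a k j (x t)) * h7 + g' * x' * h8

/-- local integration along a path -/
lemma loc_integral (ha : Near a) (P : Polynomial ℂ) (hP : ∀ x, P.eval x = Pa a x) {x y x' : ℝ → ℂ} (h : IsPath P x y x')
    {s t : ℝ} (hs : 0 ≤ s) (hst : s ≤ t) (ht : t ≤ 1) {k : Fin 6} (hk : ∀ r ∈ Icc s t, x r ∈ S k) (j : Fin 2) :
    ∫ r in s..t, x r ^ (j : ℕ) * x' r / y r = y t * ga a k j (x t) - y s * ga a k j (x s) := by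
  obtain ⟨hx, hy, hsq, hd, hi0, hi1⟩ := h
  have hsub : Icc s t ⊆ Icc (0 : ℝ) 1 := Icc_subset_Icc hs ht
  have hint : IntervalIntegrable (fun r => x r ^ (j : ℕ) * x' r / y r) volume 0 1 := by
    have hj : (j : ℕ) = 0 ∨ (j : ℕ) = 1 := by omega
    rcases hj with hj | hj <;> rw [hj]
    · simpa using hi0
    · simpa using hi1
  apply intervalIntegral.integral_eq_sub_of_hasDerivAt_of_le hst
  · apply ContinuousOn.mul (hy.mono hsub)
    exact (ga_diff ha k j).continuousOn.comp (hx.mono hsub) fun r hr => hk r hr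
  · intro r hr
    have hr' : r ∈ Ioo (0 : ℝ) 1 := ⟨lt_of_le_of_lt hs hr.1, lt_of_lt_of_le hr.2 ht⟩
    obtain ⟨d1, d2, d3⟩ := hd r hr'
    refine loc_deriv ha P hP d1 d2.hasDerivAt d3 ?_ (hk r ⟨hr.1.le, hr.2.le⟩) j
    filter_upwards [Ioo_mem_nhds hr'.1 hr'.2] with q hq
    exact hsq q ⟨hq.1.le, hq.2.le⟩
  · apply hint.mono_set
    rw [uIcc_of_le hst, uIcc_of_le zero_le_one]
    exact hsub

/-- the integral as a function of the end point -/
noncomputable def Wt (x y x' : ℝ → ℂ) (t : ℝ) : Fin 2 → ℂ := fun j => ∫ r in (0 : ℝ)..t, x r ^ (j : ℕ) * x' r / y r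

theorem exists_map {a : Fin 6 → ℂ} (ha : Near a) (P : Polynomial ℂ) (hP : ∀ x, P.eval x = Pa a x) (Λ : AddSubgroup (Fin 2 → ℂ))
    (M : Matrix (Fin 2) (Fin 2) ℂ)
    (hper : ∀ k l, M.mulVec (fun j => 2 * (ga a k j 0 - ga a l j 0)) ∈ Λ) (i : Fin 6) :
    ∃ u : ℂ × ℂ → (Fin 2 → ℂ) ⧸ Λ, IsIntegral Λ P M u ∧
      ∀ l, u (a l, 0) = QuotientAddGroup.mk (M.mulVec (fun j => ga a i j 0 - ga a l j 0)) := by
  choose κ hκ using exists_mem_S
  set u : ℂ × ℂ → (Fin 2 → ℂ) ⧸ Λ := fun q => QuotientAddGroup.mk (M.mulVec (loc a (κ q.1) q.1 q.2 + bs a (κ q.1) i)) with hu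
  have hu' : ∀ (x y : ℂ), y ^ 2 = Pa a x → ∀ k, x ∈ S k → u (x, y) = QuotientAddGroup.mk (M.mulVec (loc a k x y + bs a k i)) :=
    fun x y hy k hk => indep ha M hper i hy (hκ x) hk
  refine ⟨u, ?_, ?_⟩
  · intro x y x' hpath
    have hpath' := hpath
    obtain ⟨hx, hy, hsq, hd, hi0, hi1⟩ := hpath'
    have hint : ∀ j : Fin 2, IntervalIntegrable (fun r => x r ^ (j : ℕ) * x' r / y r) volume 0 1 := by
      intro j
      have hj : (j : ℕ) = 0 ∨ (j : ℕ) = 1 := by omega
      rcases hj with hj | hj <;> rw [hj]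
      · simpa using hi0
      · simpa using hi1
    -- the function which is locally constant
    set c : Icc (0 : ℝ) 1 → (Fin 2 → ℂ) ⧸ Λ := fun t =>
      QuotientAddGroup.mk (M.mulVec (Wt x y x' t)) - u (x t, y t) with hc
    have hstep : ∀ (k : Fin 6) (s t : ℝ), 0 ≤ s → s ≤ t → t ≤ 1 → (∀ r ∈ Icc s t, x r ∈ S k) →
        (QuotientAddGroup.mk (M.mulVec (Wt x y x' t)) - u (x t, y t) : (Fin 2 → ℂ) ⧸ Λ) =
          QuotientAddGroup.mk (M.mulVec (Wt x y x' s)) - u (x s, y s) := by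
      intro k s t hs hst ht hk
      have e1 : Wt x y x' t = Wt x y x' s + (loc a k (x t) (y t) - loc a k (x s) (y s)) := by
        ext j
        have h1 := loc_integral ha P hP hpath hs hst ht hk j
        have h2 : (∫ r in (0 : ℝ)..s, x r ^ (j : ℕ) * x' r / y r) + ∫ r in s..t, x r ^ (j : ℕ) * x' r / y r =
            ∫ r in (0 : ℝ)..t, x r ^ (j : ℕ) * x' r / y r := by
          apply intervalIntegral.integral_add_adjacent_intervals
          · apply (hint j).mono_set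
            rw [uIcc_of_le hs, uIcc_of_le zero_le_one]
            exact Icc_subset_Icc le_rfl (hst.trans ht)
          · apply (hint j).mono_set
            rw [uIcc_of_le hst, uIcc_of_le zero_le_one]
            exact Icc_subset_Icc hs ht
        simp only [Wt, Pi.add_apply, Pi.sub_apply, loc]
        rw [← h2, h1]
      have ht' : y t ^ 2 = Pa a (x t) := by rw [hsq t ⟨hs.trans hst, ht⟩, hP]
      have hs' : y s ^ 2 = Pa a (x s) := by rw [hsq s ⟨hs, hst.trans ht⟩, hP]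
      rw [hu' _ _ ht' k (hk t ⟨hst, le_rfl⟩), hu' _ _ hs' k (hk s ⟨le_rfl, hst⟩), e1]
      rw [← QuotientAddGroup.mk_sub, ← QuotientAddGroup.mk_sub]
      congr 1
      simp only [Matrix.mulVec_add, Matrix.mulVec_sub]
      abel
    have hloc : IsLocallyConstant c := by
      rw [IsLocallyConstant.iff_eventually_eq]
      intro t0
      obtain ⟨k, hk⟩ := exists_mem_S (x t0)
      have hxc : ContinuousWithinAt x (Icc 0 1) t0 := hx t0 t0.2
      have h1 : ∀ᶠ r in 𝓝[Icc 0 1] (t0 : ℝ), x r ∈ S k := hxc.eventually_mem ((isOpen_S k).mem_nhds hk)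
      rw [eventually_nhdsWithin_iff, Metric.eventually_nhds_iff_ball] at h1
      obtain ⟨ε, hε, hball⟩ := h1
      have h2 : ∀ᶠ t : Icc (0 : ℝ) 1 in 𝓝 t0, (t : ℝ) ∈ Metric.ball (t0 : ℝ) ε :=
        continuousAt_subtype_val.eventually_mem (Metric.ball_mem_nhds _ hε)
      filter_upwards [h2] with t ht
      have hconv : ∀ r ∈ uIcc (t0 : ℝ) t, x r ∈ S k := by
        intro r hr
        apply hball r
        · exact (convex_ball (t0 : ℝ) ε).ordConnected.uIcc_subset (Metric.mem_ball_self hε) ht hr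
        · exact (convex_Icc (0 : ℝ) 1).ordConnected.uIcc_subset t0.2 t.2 hr
      rcases le_total (t0 : ℝ) t with h | h
      · exact hstep k t0 t t0.2.1 h t.2.2 fun r hr => hconv r (by rwa [uIcc_of_le h])
      · exact (hstep k t t0 t.2.1 h t0.2.2 fun r hr => hconv r (by rwa [uIcc_of_ge h])).symm
    have hcc : c ⟨1, by norm_num, le_rfl⟩ = c ⟨0, le_rfl, by norm_num⟩ := hloc.apply_eq_of_preconnectedSpace _ _
    simp only [hc] at hcc
    have e0 : Wt x y x' 0 = 0 := by
      ext j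
      simp [Wt]
    have e1 : Wt x y x' 1 = ![∫ t in (0 : ℝ)..1, x' t / y t, ∫ t in (0 : ℝ)..1, x t * x' t / y t] := by
      ext j
      fin_cases j
      · simp [Wt]
      · simp [Wt]
    rw [e0, e1, Matrix.mulVec_zero, QuotientAddGroup.mk_zero, zero_sub] at hcc
    rw [sub_eq_iff_eq_add] at hcc
    rw [hcc]
    abel
  · intro l
    have h1 : (0 : ℂ) ^ 2 = Pa a (a l) := by
      rw [Pa_eq l, div_self (near_ne ha l)]
      ring
    rw [hu' (a l) 0 h1 l (root_mem_S ha l)]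
    congr 2
    ext j
    simp [loc, bs]

end Pool.Agent.J4.H67.AS.NMap
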