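import Pool.Agent.J4.H67.AS.Defs
set_option autoImplicit false

/-!
Piece Open of the project MP_b2b689_ag.AbelianSurfaces: near the period point `T0` every symmetric matrix is the
period point of a member of the three parameter family.
-/

namespace Pool.Agent.J4.H67.AS.Op

open MeasureTheory Set Filter
open scoped ComplexConjugate Topology

theorem w0_sq : w0 ^ 2 = zt := by
  have h3 : Real.sqrt 3 * Real.sqrt 3 = 3 := Real.mul_self_sqrt (by norm_num)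
  apply Complex.ext
  · simp only [w0, zt, pow_two, Complex.mul_re]
    linear_combination h3 / 4
  · simp only [w0, zt, pow_two, Complex.mul_im]
    ring

theorem w0_four : w0 ^ 4 = w0 ^ 2 - 1 := by
  have h3 : Real.sqrt 3 * Real.sqrt 3 = 3 := Real.mul_self_sqrt (by norm_num)
  have h4 : w0 ^ 4 = zt * zt := by rw [← w0_sq]; ring
  rw [h4, w0_sq]
  apply Complex.ext
  · simp only [zt, Complex.mul_re, Complex.sub_re, Complex.one_re]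
    linear_combination (-h3) / 4
  · simp only [zt, Complex.mul_im, Complex.sub_im, Complex.one_im]
    ring

theorem w0_six : w0 ^ 6 = -1 := by
  linear_combination (w0 ^ 2 + 1) * w0_four

theorem w0_ne : w0 ≠ 0 := by
  intro h
  have := w0_six
  rw [h] at this
  norm_num at this

theorem w0_mod (n : ℕ) : w0 ^ n = w0 ^ (n % 12) := by
  have h12 : w0 ^ 12 = 1 := by linear_combination (w0 ^ 6 - 1) * w0_six
  conv_lhs => rw [← Nat.div_add_mod n 12, pow_add, pow_mul, h12, one_pow, one_mul]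

theorem rho_pow (k : Fin 6) (s : ℕ) : rho k ^ s = w0 ^ (((2 * (k : ℕ) + 1) * s) % 12) := by
  rw [← w0_mod, rho, zk, ← w0_sq]
  ring

/-- first column of `Qm - Pm * T` -/
noncomputable def E0 (j : Fin 2) (x : (Fin 3 → ℂ) × (Fin 3 → ℂ)) : ℂ :=
  (Lr x.1 0 j - Lr x.1 2 j) - ((Lr x.1 5 j - Lr x.1 1 j) * x.2 0 + (Lr x.1 4 j - Lr x.1 2 j) * x.2 1)

/-- second column of `Qm - Pm * T` -/
noncomputable def E1 (j : Fin 2) (x : (Fin 3 → ℂ) × (Fin 3 → ℂ)) : ℂ :=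
  (Lr x.1 5 j - Lr x.1 3 j) - ((Lr x.1 5 j - Lr x.1 1 j) * x.2 1 + (Lr x.1 4 j - Lr x.1 2 j) * x.2 2)

/-- `T0` as a vector -/
noncomputable def t0 : Fin 3 → ℂ := ![w0 ^ 2 - 1 / 2, 1 / 2, w0 ^ 2 - 1 / 2]

theorem E_deriv (hL : ∀ k j, HasStrictFDerivAt (fun p => Lr p k j) (Dr k j) 0) (j : Fin 2) :
    ∃ D0 D1 : ((Fin 3 → ℂ) × (Fin 3 → ℂ)) →L[ℂ] ℂ, HasStrictFDerivAt (E0 j) D0 (0, t0) ∧
      HasStrictFDerivAt (E1 j) D1 (0, t0) ∧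
      (∀ p, D0 (p, 0) = (Dr 0 j p - Dr 2 j p) - ((Dr 5 j p - Dr 1 j p) * t0 0 + (Dr 4 j p - Dr 2 j p) * t0 1)) ∧
      (∀ p, D1 (p, 0) = (Dr 5 j p - Dr 3 j p) - ((Dr 5 j p - Dr 1 j p) * t0 1 + (Dr 4 j p - Dr 2 j p) * t0 2)) := by
  have hl : ∀ k, HasStrictFDerivAt (fun x : (Fin 3 → ℂ) × (Fin 3 → ℂ) => Lr x.1 k j)
      ((Dr k j).comp (ContinuousLinearMap.fst ℂ (Fin 3 → ℂ) (Fin 3 → ℂ))) (0, t0) := fun k =>
    HasStrictFDerivAt.comp (0, t0) (g := fun p => Lr p k j) (f := Prod.fst) (hL k j) hasStrictFDerivAt_fst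
  have ht : ∀ i, HasStrictFDerivAt (fun x : (Fin 3 → ℂ) × (Fin 3 → ℂ) => x.2 i)
      ((ContinuousLinearMap.proj i).comp (ContinuousLinearMap.snd ℂ (Fin 3 → ℂ) (Fin 3 → ℂ))) (0, t0) := fun i =>
    ((ContinuousLinearMap.proj i : (Fin 3 → ℂ) →L[ℂ] ℂ).comp
      (ContinuousLinearMap.snd ℂ (Fin 3 → ℂ) (Fin 3 → ℂ))).hasStrictFDerivAt
  refine ⟨_, _, ((hl 0).sub (hl 2)).sub ((((hl 5).sub (hl 1)).mul (ht 0)).add (((hl 4).sub (hl 2)).mul (ht 1))),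
    ((hl 5).sub (hl 3)).sub ((((hl 5).sub (hl 1)).mul (ht 1)).add (((hl 4).sub (hl 2)).mul (ht 2))), ?_, ?_⟩
  · intro p
    simp
    ring
  · intro p
    simp
    ring

theorem Dr_apply (k : Fin 6) (j : Fin 2) (p : Fin 3 → ℂ) :
    Dr k j p = -(1 / 2) * (rho k ^ ((j : ℕ) + 3) * (Bs ((j : ℕ) + 2) : ℂ) * p 0
      + rho k ^ ((j : ℕ) + 4) * (Bs ((j : ℕ) + 3) : ℂ) * p 1
      + rho k ^ ((j : ℕ) + 5) * (Bs ((j : ℕ) + 4) : ℂ) * p 2) := by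
  simp [Dr, Fin.sum_univ_three]
  ring

theorem w0_pows : w0 ^ 4 = w0 ^ 2 - 1 ∧ w0 ^ 5 = w0 ^ 3 - w0 ∧ w0 ^ 6 = -1 ∧ w0 ^ 7 = -w0 ∧ w0 ^ 8 = -w0 ^ 2 ∧
    w0 ^ 9 = -w0 ^ 3 ∧ w0 ^ 10 = 1 - w0 ^ 2 ∧ w0 ^ 11 = w0 - w0 ^ 3 := by
  have h4 := w0_four
  have h6 := w0_six
  refine ⟨h4, by linear_combination w0 * h4, h6, by linear_combination w0 * h6, by linear_combination w0 ^ 2 * h6,
    by linear_combination w0 ^ 3 * h6, by linear_combination w0 ^ 4 * h6 - h4,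
    by linear_combination w0 ^ 5 * h6 - w0 * h4⟩

theorem t0_0 : t0 0 = w0 ^ 2 - 1 / 2 := rfl
theorem t0_1 : t0 1 = 1 / 2 := rfl
theorem t0_2 : t0 2 = w0 ^ 2 - 1 / 2 := rfl

theorem comp_a (p : Fin 3 → ℂ) :
    ((Dr 0 0 p - Dr 2 0 p) - ((Dr 5 0 p - Dr 1 0 p) * t0 0 + (Dr 4 0 p - Dr 2 0 p) * t0 1)) -
    ((Dr 5 0 p - Dr 3 0 p) - ((Dr 5 0 p - Dr 1 0 p) * t0 1 + (Dr 4 0 p - Dr 2 0 p) * t0 2)) =
      -3 * w0 ^ 4 * (Bs 3 : ℂ) * p 1 := by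
  obtain ⟨h4, h5, h6, h7, h8, h9, h10, h11⟩ := w0_pows
  simp only [Dr_apply, rho_pow, t0_0, t0_1, t0_2]
  norm_num
  simp only [h5, h7, h8, h9, h11]
  generalize (Bs 2 : ℂ) = b2
  generalize (Bs 3 : ℂ) = b3
  generalize (Bs 4 : ℂ) = b4
  linear_combination (b3 * p 1) * h4

theorem comp_b (p : Fin 3 → ℂ) :
    ((Dr 0 0 p - Dr 2 0 p) - ((Dr 5 0 p - Dr 1 0 p) * t0 0 + (Dr 4 0 p - Dr 2 0 p) * t0 1)) +
    ((Dr 5 0 p - Dr 3 0 p) - ((Dr 5 0 p - Dr 1 0 p) * t0 1 + (Dr 4 0 p - Dr 2 0 p) * t0 2)) =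
      -3 * w0 ^ 5 * (Bs 4 : ℂ) * p 2 := by
  obtain ⟨h4, h5, h6, h7, h8, h9, h10, h11⟩ := w0_pows
  simp only [Dr_apply, rho_pow, t0_0, t0_1, t0_2]
  norm_num
  simp only [h7, h8, h9, h11]
  generalize (Bs 2 : ℂ) = b2
  generalize (Bs 3 : ℂ) = b3
  generalize (Bs 4 : ℂ) = b4
  linear_combination (3 / 2 * b4 * p 2) * h5

theorem comp_c (p : Fin 3 → ℂ) :
    ((Dr 0 1 p - Dr 2 1 p) - ((Dr 5 1 p - Dr 1 1 p) * t0 0 + (Dr 4 1 p - Dr 2 1 p) * t0 1)) -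
    ((Dr 5 1 p - Dr 3 1 p) - ((Dr 5 1 p - Dr 1 1 p) * t0 1 + (Dr 4 1 p - Dr 2 1 p) * t0 2)) =
      -3 * w0 ^ 4 * (Bs 3 : ℂ) * p 0 := by
  obtain ⟨h4, h5, h6, h7, h8, h9, h10, h11⟩ := w0_pows
  simp only [Dr_apply, rho_pow, t0_0, t0_1, t0_2]
  norm_num
  simp only [h5, h6, h7, h8, h9, h11]
  generalize (Bs 3 : ℂ) = b3
  generalize (Bs 4 : ℂ) = b4
  generalize (Bs 5 : ℂ) = b5
  linear_combination (b3 * p 0) * h4

theorem riem_sym (L : Fin 6 → Fin 2 → ℂ) (h : Riem L) :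
    Pm L 0 0 * Qm L 1 0 + Pm L 0 1 * Qm L 1 1 = Pm L 1 0 * Qm L 0 0 + Pm L 1 1 * Qm L 0 1 := by
  have h' : (L 1 0 * L 0 1 - L 0 0 * L 1 1) + (L 2 0 * L 1 1 - L 1 0 * L 2 1) + (L 3 0 * L 2 1 - L 2 0 * L 3 1)
      + (L 4 0 * L 3 1 - L 3 0 * L 4 1) + (L 5 0 * L 4 1 - L 4 0 * L 5 1) + (L 0 0 * L 5 1 - L 5 0 * L 0 1) = 0 := by
    have := h
    rw [Riem, Fin.sum_univ_six] at this
    exact this
  simp [Pm, Qm]
  linear_combination -h'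

theorem last_eq (L : Fin 6 → Fin 2 → ℂ) (h : Riem L) (hP : Pm L 0 0 + Pm L 0 1 ≠ 0)
    (T : Matrix (Fin 2) (Fin 2) ℂ) (hT : T.IsSymm) (h0 : (Qm L - Pm L * T) 0 0 = 0) (h1 : (Qm L - Pm L * T) 0 1 = 0)
    (h2 : (Qm L - Pm L * T) 1 0 = (Qm L - Pm L * T) 1 1) : Qm L = Pm L * T := by
  have hs := riem_sym L h
  have hT' : T 1 0 = T 0 1 := by simpa using hT.apply 0 1
  simp only [Matrix.sub_apply, Matrix.mul_apply, Fin.sum_univ_two, hT'] at h0 h1 h2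
  have h3 : (Pm L 0 0 + Pm L 0 1) * (Qm L 1 0 - (Pm L 1 0 * T 0 0 + Pm L 1 1 * T 0 1)) = 0 := by
    linear_combination hs + Pm L 0 1 * h2 + Pm L 1 0 * h0 + Pm L 1 1 * h1
  have h4 := (mul_eq_zero.mp h3).resolve_left hP
  ext i j
  fin_cases i <;> fin_cases j <;> simp [Matrix.mul_apply, Fin.sum_univ_two, hT']
  · linear_combination h0
  · linear_combination h1
  · linear_combination h4
  · linear_combination h4 - h2

theorem E0_zero (hL0 : ∀ k j, Lr 0 k j = rho k ^ ((j : ℕ) + 1) * el) (j : Fin 2) : E0 j (0, t0) = 0 := by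
  obtain ⟨h4, h5, h6, h7, h8, h9, h10, h11⟩ := w0_pows
  fin_cases j
  · simp only [E0, hL0, rho_pow, t0_0, t0_1]
    norm_num
    simp only [h5, h9, h11]
    generalize (el : ℂ) = l
    linear_combination (2 * w0 * l) * h4
  · simp only [E0, hL0, rho_pow, t0_0, t0_1]
    norm_num
    simp only [h6, h10]
    generalize (el : ℂ) = l
    linear_combination (l) * h4

theorem E1_zero (hL0 : ∀ k j, Lr 0 k j = rho k ^ ((j : ℕ) + 1) * el) (j : Fin 2) : E1 j (0, t0) = 0 := by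
  obtain ⟨h4, h5, h6, h7, h8, h9, h10, h11⟩ := w0_pows
  fin_cases j
  · simp only [E1, hL0, rho_pow, t0_1, t0_2]
    norm_num
    simp only [h5, h7, h9, h11]
    generalize (el : ℂ) = l
    linear_combination (2 * w0 * l) * h4
  · simp only [E1, hL0, rho_pow, t0_1, t0_2]
    norm_num
    simp only [h6, h10]
    generalize (el : ℂ) = l
    linear_combination (-l) * h4

theorem T0_eq : T0 = !![t0 0, t0 1; t0 1, t0 2] := by
  have h : (⟨0, Real.sqrt 3 / 2⟩ : ℂ) = w0 ^ 2 - 1 / 2 := by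
    rw [w0_sq]
    apply Complex.ext <;> simp [zt]
  rw [T0, h, t0_0, t0_1, t0_2]

theorem nonzero_at (hpos : 0 < el) (hL0 : ∀ k j, Lr 0 k j = rho k ^ ((j : ℕ) + 1) * el) :
    (Pm (Lr 0)).det ≠ 0 ∧ Pm (Lr 0) 0 0 + Pm (Lr 0) 0 1 ≠ 0 := by
  obtain ⟨h4, h5, h6, h7, h8, h9, h10, h11⟩ := w0_pows
  have hl : (el : ℂ) ≠ 0 := by exact_mod_cast hpos.ne'
  have h1 : 1 - 2 * w0 ^ 2 ≠ 0 := by
    intro h
    have h3 : (1 - 2 * w0 ^ 2) * (1 - 2 * w0 ^ 2) = -3 := by linear_combination 4 * h4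
    rw [h] at h3
    norm_num at h3
  have h2 : 2 - w0 ^ 2 ≠ 0 := by
    intro h
    have h3 : (2 - w0 ^ 2) * (1 + w0 ^ 2) = 3 := by linear_combination -h4
    rw [h] at h3
    norm_num at h3
  have e00 : Pm (Lr 0) 0 0 = w0 * (1 - 2 * w0 ^ 2) * el := by
    simp only [Pm, hL0, rho_pow]
    norm_num
    rw [h11]
    ring
  have e01 : Pm (Lr 0) 0 1 = w0 * (1 - 2 * w0 ^ 2) * el := by
    simp only [Pm, hL0, rho_pow]
    norm_num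
    rw [h9, h5]
    ring
  have e10 : Pm (Lr 0) 1 0 = (2 - w0 ^ 2) * el := by
    simp only [Pm, hL0, rho_pow]
    norm_num
    rw [h10, h6]
    ring
  have e11 : Pm (Lr 0) 1 1 = -(2 - w0 ^ 2) * el := by
    simp only [Pm, hL0, rho_pow]
    norm_num
    rw [h10, h6]
    ring
  constructor
  · rw [Matrix.det_fin_two, e00, e01, e10, e11]
    have : w0 * (1 - 2 * w0 ^ 2) * el * (-(2 - w0 ^ 2) * el) - w0 * (1 - 2 * w0 ^ 2) * el * ((2 - w0 ^ 2) * el)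
        = (-2) * (w0 * (1 - 2 * w0 ^ 2) * el * ((2 - w0 ^ 2) * el)) := by ring
    rw [this]
    exact mul_ne_zero (by norm_num) (mul_ne_zero (mul_ne_zero (mul_ne_zero w0_ne h1) hl) (mul_ne_zero h2 hl))
  · rw [e00, e01]
    have : w0 * (1 - 2 * w0 ^ 2) * (el : ℂ) + w0 * (1 - 2 * w0 ^ 2) * el = 2 * (w0 * (1 - 2 * w0 ^ 2) * el) := by ring
    rw [this]
    exact mul_ne_zero (by norm_num) (mul_ne_zero (mul_ne_zero w0_ne h1) hl)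

/-- the map of the inverse function theorem -/
noncomputable def Fm (x : (Fin 3 → ℂ) × (Fin 3 → ℂ)) : (ℂ × ℂ × ℂ) × (Fin 3 → ℂ) :=
  ((E0 0 x - E1 0 x, E0 0 x + E1 0 x, E0 1 x - E1 1 x), x.2)

theorem map_nhds_Fm (hB : ∀ s : ℕ, s ≤ 7 → 0 < Bs s)
    (hL0 : ∀ k j, Lr 0 k j = rho k ^ ((j : ℕ) + 1) * el) (hL : ∀ k j, HasStrictFDerivAt (fun p => Lr p k j) (Dr k j) 0) :
    map Fm (𝓝 (0, t0)) = 𝓝 ((0, 0, 0), t0) := by
  obtain ⟨D00, D10, hD00, hD10, eD00, eD10⟩ := E_deriv hL 0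
  obtain ⟨D01, D11, hD01, hD11, eD01, eD11⟩ := E_deriv hL 1
  have hF : HasStrictFDerivAt Fm (((D00 - D10).prod ((D00 + D10).prod (D01 - D11))).prod
      (ContinuousLinearMap.snd ℂ (Fin 3 → ℂ) (Fin 3 → ℂ))) (0, t0) :=
    ((hD00.sub hD10).prodMk ((hD00.add hD10).prodMk (hD01.sub hD11))).prodMk hasStrictFDerivAt_snd
  have hr : (((D00 - D10).prod ((D00 + D10).prod (D01 - D11))).prod
      (ContinuousLinearMap.snd ℂ (Fin 3 → ℂ) (Fin 3 → ℂ))).range = ⊤ := by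
    rw [LinearMap.range_eq_top]
    rintro ⟨⟨y0, y1, y2⟩, t⟩
    have hw : w0 ≠ 0 := w0_ne
    have hB3 : (Bs 3 : ℂ) ≠ 0 := by exact_mod_cast (hB 3 (by norm_num)).ne'
    have hB4 : (Bs 4 : ℂ) ≠ 0 := by exact_mod_cast (hB 4 (by norm_num)).ne'
    have a0 : ∀ p : Fin 3 → ℂ, D00 (p, 0) - D10 (p, 0) = -3 * w0 ^ 4 * (Bs 3 : ℂ) * p 1 := fun p => by
      rw [eD00, eD10]; exact comp_a p
    have b0 : ∀ p : Fin 3 → ℂ, D00 (p, 0) + D10 (p, 0) = -3 * w0 ^ 5 * (Bs 4 : ℂ) * p 2 := fun p => by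
      rw [eD00, eD10]; exact comp_b p
    have c0 : ∀ p : Fin 3 → ℂ, D01 (p, 0) - D11 (p, 0) = -3 * w0 ^ 4 * (Bs 3 : ℂ) * p 0 := fun p => by
      rw [eD01, eD11]; exact comp_c p
    set p : Fin 3 → ℂ := ![(y2 - (D01 (0, t) - D11 (0, t))) / (-3 * w0 ^ 4 * (Bs 3 : ℂ)),
      (y0 - (D00 (0, t) - D10 (0, t))) / (-3 * w0 ^ 4 * (Bs 3 : ℂ)),
      (y1 - (D00 (0, t) + D10 (0, t))) / (-3 * w0 ^ 5 * (Bs 4 : ℂ))] with hp
    have hd : ∀ D : ((Fin 3 → ℂ) × (Fin 3 → ℂ)) →L[ℂ] ℂ, D (p, t) = D (p, 0) + D (0, t) := fun D => by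
      rw [← map_add]; simp
    have n4 : -3 * w0 ^ 4 * (Bs 3 : ℂ) ≠ 0 := mul_ne_zero (mul_ne_zero (by norm_num) (pow_ne_zero _ hw)) hB3
    have n5 : -3 * w0 ^ 5 * (Bs 4 : ℂ) ≠ 0 := mul_ne_zero (mul_ne_zero (by norm_num) (pow_ne_zero _ hw)) hB4
    have p0 : -3 * w0 ^ 4 * (Bs 3 : ℂ) * p 0 = y2 - (D01 (0, t) - D11 (0, t)) := by
      rw [hp]; exact mul_div_cancel₀ _ n4
    have p1 : -3 * w0 ^ 4 * (Bs 3 : ℂ) * p 1 = y0 - (D00 (0, t) - D10 (0, t)) := by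
      rw [hp]; exact mul_div_cancel₀ _ n4
    have p2 : -3 * w0 ^ 5 * (Bs 4 : ℂ) * p 2 = y1 - (D00 (0, t) + D10 (0, t)) := by
      rw [hp]; exact mul_div_cancel₀ _ n5
    refine ⟨(p, t), ?_⟩
    have q0 : D00 (p, t) - D10 (p, t) = y0 := by
      rw [hd D00, hd D10]; linear_combination a0 p + p1
    have q1 : D00 (p, t) + D10 (p, t) = y1 := by
      rw [hd D00, hd D10]; linear_combination b0 p + p2
    have q2 : D01 (p, t) - D11 (p, t) = y2 := by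
      rw [hd D01, hd D11]; linear_combination c0 p + p0
    show ((D00 (p, t) - D10 (p, t), D00 (p, t) + D10 (p, t), D01 (p, t) - D11 (p, t)), t) = ((y0, y1, y2), t)
    rw [q0, q1, q2]
  have h := hF.map_nhds_eq_of_surj hr
  rw [h]
  congr 1
  simp only [Fm, E0_zero hL0, E1_zero hL0]
  simp

theorem Lr_contAt (hL : ∀ k j, HasStrictFDerivAt (fun p => Lr p k j) (Dr k j) 0) (k : Fin 6) (j : Fin 2) :
    ContinuousAt (fun x : (Fin 3 → ℂ) × (Fin 3 → ℂ) => Lr x.1 k j) (0, t0) :=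
  ContinuousAt.comp (f := Prod.fst) (g := fun p => Lr p k j) (x := ((0 : Fin 3 → ℂ), t0)) (hL k j).hasFDerivAt.continuousAt
    continuous_fst.continuousAt

end Pool.Agent.J4.H67.AS.Op

namespace Pool.Agent.J4.H67.AS.NOpen

open MeasureTheory Set Filter Op
open scoped ComplexConjugate Topology

/-- the piece Open: near `T0` every symmetric matrix is a period point of the family -/
theorem open_map (hpos : 0 < el) (hB : ∀ s : ℕ, s ≤ 7 → 0 < Bs s)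
    (hL0 : ∀ k j, Lr 0 k j = rho k ^ ((j : ℕ) + 1) * el) (hL : ∀ k j, HasStrictFDerivAt (fun p => Lr p k j) (Dr k j) 0)
    (hR : ∀ᶠ p in 𝓝 (0 : Fin 3 → ℂ), Riem (Lr p)) (δ : ℝ) (hδ : 0 < δ) :
    ∃ η > 0, ∀ T : Matrix (Fin 2) (Fin 2) ℂ, T.IsSymm → (∀ i j, ‖(T - T0) i j‖ < η) →
      ∃ p : Fin 3 → ℂ, ‖p‖ < δ ∧ IsUnit (Pm (Lr p)).det ∧ Qm (Lr p) = Pm (Lr p) * T := by
  have hc := Lr_contAt hL
  obtain ⟨hdet, hsum⟩ := nonzero_at hpos hL0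
  have v1 : ∀ᶠ x : (Fin 3 → ℂ) × (Fin 3 → ℂ) in 𝓝 (0, t0), ‖x.1‖ < δ := by
    have h : ContinuousAt (fun x : (Fin 3 → ℂ) × (Fin 3 → ℂ) => ‖x.1‖) (0, t0) := by fun_prop
    exact h.eventually (gt_mem_nhds (by simpa using hδ))
  have v2 : ∀ᶠ x : (Fin 3 → ℂ) × (Fin 3 → ℂ) in 𝓝 (0, t0), Riem (Lr x.1) :=
    (continuous_fst.tendsto ((0 : Fin 3 → ℂ), t0)).eventually hR
  have v3 : ∀ᶠ x : (Fin 3 → ℂ) × (Fin 3 → ℂ) in 𝓝 (0, t0), (Pm (Lr x.1)).det ≠ 0 := by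
    have h : ContinuousAt (fun x : (Fin 3 → ℂ) × (Fin 3 → ℂ) => (Pm (Lr x.1)).det) (0, t0) := by
      have e : (fun x : (Fin 3 → ℂ) × (Fin 3 → ℂ) => (Pm (Lr x.1)).det) = fun x =>
          (Lr x.1 5 0 - Lr x.1 1 0) * (Lr x.1 4 1 - Lr x.1 2 1) - (Lr x.1 4 0 - Lr x.1 2 0) * (Lr x.1 5 1 - Lr x.1 1 1) := by
        funext x
        rw [Matrix.det_fin_two]
        rfl
      rw [e]
      exact (((hc 5 0).sub (hc 1 0)).mul ((hc 4 1).sub (hc 2 1))).sub (((hc 4 0).sub (hc 2 0)).mul ((hc 5 1).sub (hc 1 1)))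
    exact h.eventually_ne hdet
  have v4 : ∀ᶠ x : (Fin 3 → ℂ) × (Fin 3 → ℂ) in 𝓝 (0, t0), Pm (Lr x.1) 0 0 + Pm (Lr x.1) 0 1 ≠ 0 := by
    have h : ContinuousAt (fun x : (Fin 3 → ℂ) × (Fin 3 → ℂ) => Pm (Lr x.1) 0 0 + Pm (Lr x.1) 0 1) (0, t0) :=
      ((hc 5 0).sub (hc 1 0)).add ((hc 4 0).sub (hc 2 0))
    exact h.eventually_ne hsum
  have hV := v1.and (v2.and (v3.and v4))
  have hm : Fm '' {x | ‖x.1‖ < δ ∧ Riem (Lr x.1) ∧ (Pm (Lr x.1)).det ≠ 0 ∧ Pm (Lr x.1) 0 0 + Pm (Lr x.1) 0 1 ≠ 0} ∈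
      𝓝 (((0 : ℂ), (0 : ℂ), (0 : ℂ)), t0) := by
    rw [← map_nhds_Fm hB hL0 hL]
    exact image_mem_map hV
  have ht : Tendsto (fun t : Fin 3 → ℂ => (((0 : ℂ), (0 : ℂ), (0 : ℂ)), t)) (𝓝 t0) (𝓝 (((0 : ℂ), (0 : ℂ), (0 : ℂ)), t0)) :=
    (Continuous.prodMk continuous_const continuous_id).tendsto t0
  obtain ⟨η, hη, hball⟩ := Metric.mem_nhds_iff.mp (ht hm)
  refine ⟨η, hη, fun T hT hTn => ?_⟩
  have hT' : T 1 0 = T 0 1 := by simpa using hT.apply 0 1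
  have hmem : (![T 0 0, T 0 1, T 1 1] : Fin 3 → ℂ) ∈ Metric.ball t0 η := by
    rw [Metric.mem_ball, dist_pi_lt_iff hη]
    intro i
    rw [dist_eq_norm]
    have h0 := hTn 0 0
    have h1 := hTn 0 1
    have h2 := hTn 1 1
    rw [T0_eq] at h0 h1 h2
    fin_cases i
    · exact h0
    · exact h1
    · exact h2
  obtain ⟨⟨p, t⟩, ⟨hp, hRp, hdp, hsp⟩, hF⟩ := hball hmem
  simp only [Fm, Prod.mk.injEq] at hF
  obtain ⟨⟨f0, f1, f2⟩, f3⟩ := hF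
  simp only at hp hRp hdp hsp f3
  have z0 : E0 0 (p, t) = 0 := by linear_combination (f0 + f1) / 2
  have z1 : E1 0 (p, t) = 0 := by linear_combination (f1 - f0) / 2
  have z2 : E0 1 (p, t) = E1 1 (p, t) := by linear_combination f2
  have g0 : t 0 = T 0 0 := by rw [f3]; rfl
  have g1 : t 1 = T 0 1 := by rw [f3]; rfl
  have g2 : t 2 = T 1 1 := by rw [f3]; rfl
  refine ⟨p, hp, isUnit_iff_ne_zero.mpr hdp, last_eq _ hRp hsp T hT ?_ ?_ ?_⟩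
  · rw [← z0]
    simp only [E0, Matrix.sub_apply, Matrix.mul_apply, Fin.sum_univ_two, hT', g0, g1]
    rfl
  · rw [← z1]
    simp only [E1, Matrix.sub_apply, Matrix.mul_apply, Fin.sum_univ_two, g1, g2]
    rfl
  · have a : (Qm (Lr p) - Pm (Lr p) * T) 1 0 = E0 1 (p, t) := by
      simp only [E0, Matrix.sub_apply, Matrix.mul_apply, Fin.sum_univ_two, hT', g0, g1]
      rfl
    have b : (Qm (Lr p) - Pm (Lr p) * T) 1 1 = E1 1 (p, t) := by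
      simp only [E1, Matrix.sub_apply, Matrix.mul_apply, Fin.sum_univ_two, g1, g2]
      rfl
    rw [a, b, z2]

end Pool.Agent.J4.H67.AS.NOpen
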