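import Pool.Agent.J4.H67.AS.Sector
set_option autoImplicit false

/-!
Riemann's first bilinear relation for the integrals `La`.
-/

namespace Pool.Agent.J4.H67.AS

open MeasureTheory Set Filter
open scoped Topology

variable {a : Fin 6 → ℂ}

lemma one_le_shift (x : ℂ) : (1 : ℝ) ≤ 1 + ‖x‖ := by linarith [norm_nonneg x]

lemma norm_pow_mul_ga (ha : Near a) (k : Fin 6) (j : Fin 2) (m : ℕ) (hm : m ≤ 1) {x : ℂ} (hx : x ∈ S k) :
    ‖x ^ m * ga a k j x‖ ≤ 10 ^ 11 * (1 + ‖x‖) ^ (-(3 / 2) : ℝ) := by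
  have h1 := ga_norm ha k j hx
  have h0 := one_le_shift x
  have h2 : ‖x‖ ^ m ≤ (1 + ‖x‖) ^ (1 : ℝ) := by
    rw [Real.rpow_one]
    interval_cases m
    · rw [pow_zero]; linarith
    · rw [pow_one]; linarith
  have h3 : (1 + ‖x‖) ^ (1 : ℝ) * (1 + ‖x‖) ^ (-(5 / 2) : ℝ) = (1 + ‖x‖) ^ (-(3 / 2) : ℝ) := by
    rw [← Real.rpow_add (by linarith)]
    norm_num
  rw [norm_mul, norm_pow]
  calc ‖x‖ ^ m * ‖ga a k j x‖ ≤ (1 + ‖x‖) ^ (1 : ℝ) * (10 ^ 11 * (1 + ‖x‖) ^ (-(5 / 2) : ℝ)) :=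
        mul_le_mul h2 h1 (norm_nonneg _) (by positivity)
    _ = 10 ^ 11 * ((1 + ‖x‖) ^ (1 : ℝ) * (1 + ‖x‖) ^ (-(5 / 2) : ℝ)) := by ring
    _ = _ := by rw [h3]

/-- the squares agree -/
lemma sq_eq (ha : Near a) (k : Fin 6) (j : Fin 2) :
    (ga a (k + 1) j 0 + La a (k + 1) j) ^ 2 = (ga a (k + 1) j 0 + La a k j) ^ 2 := by
  have hd : ∀ x ∈ S (k + 1), HasDerivAt (fun x => Pa a x * ga a (k + 1) j x ^ 2) (2 * (x ^ (j : ℕ) * ga a (k + 1) j x)) x := by
    intro x hx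
    obtain ⟨g', P', h1, h2, h3⟩ := ga_ode ha (k + 1) j hx
    have h4 := h2.mul (h1.pow 2)
    refine h4.congr_deriv ?_
    rw [← h3]
    simp only [Pi.pow_apply, Nat.cast_ofNat]
    ring
  have hb : ∀ x ∈ S (k + 1), ‖2 * (x ^ (j : ℕ) * ga a (k + 1) j x)‖ ≤ (2 * 10 ^ 11) * (1 + ‖x‖) ^ (-(3 / 2) : ℝ) := by
    intro x hx
    have h1 := norm_pow_mul_ga ha (k + 1) j (j : ℕ) (by omega) hx
    rw [norm_mul]
    simp only [Complex.norm_ofNat]
    linarith
  have h1 := chord k _ hd hb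
  have e : ∀ x, Pa a x * ga a (k + 1) j x ^ 2 = (Ya a x * ga a (k + 1) j x) ^ 2 := fun x => by rw [← Ya_sq]; ring
  simp only [e] at h1
  have h2 := ((ray_limit ha (k + 1) (k + 1) (Or.inl rfl) j).pow 2).sub ((ray_limit ha k (k + 1) (Or.inr rfl) j).pow 2)
  have h3 := tendsto_nhds_unique h1 h2
  linear_combination -h3

lemma half (ha : Near a) (k : Fin 6) (j : Fin 2) (hne : La a k j ≠ La a (k + 1) j) :
    2 * ga a (k + 1) j 0 = -(La a k j + La a (k + 1) j) := by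
  have h := sq_eq ha k j
  have h1 : (La a (k + 1) j - La a k j) * (2 * ga a (k + 1) j 0 + (La a k j + La a (k + 1) j)) = 0 := by
    linear_combination h
  rcases mul_eq_zero.1 h1 with h2 | h2
  · exact absurd (sub_eq_zero.1 h2).symm hne
  · linear_combination h2

/-- the integral of `x ga` along a ray -/
noncomputable def Jr (a : Fin 6 → ℂ) (k l : Fin 6) : ℂ := ∫ t in Ioi (0 : ℝ), rho k * (rho k * t * ga a l 0 (rho k * t))

lemma mem_ray (k l : Fin 6) (hl : l = k ∨ l = k + 1) {t : ℝ} (ht : 0 ≤ t) : rho k * t ∈ S l := by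
  rcases hl with rfl | rfl
  · exact ray_mem _ ht
  · exact ray_mem' _ ht

lemma Jr_cont (ha : Near a) (k l : Fin 6) (hl : l = k ∨ l = k + 1) :
    ContinuousOn (fun t : ℝ => rho k * (rho k * t * ga a l 0 (rho k * t))) (Ici 0) := by
  apply ContinuousOn.mul continuousOn_const
  apply ContinuousOn.mul (by fun_prop)
  exact ray_cont k (ga_diff ha l 0).continuousOn fun t ht => mem_ray k l hl ht

lemma Jr_integrable (ha : Near a) (k l : Fin 6) (hl : l = k ∨ l = k + 1) :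
    IntegrableOn (fun t : ℝ => rho k * (rho k * t * ga a l 0 (rho k * t))) (Ioi 0) := by
  have h1 := (integrable_rpow_shift (s := -(3 / 2)) (by norm_num)).const_mul (10 ^ 11)
  refine Integrable.mono' h1 (((Jr_cont ha k l hl).mono Ioi_subset_Ici_self).aestronglyMeasurable measurableSet_Ioi) ?_
  rw [ae_restrict_iff' measurableSet_Ioi]
  refine Eventually.of_forall fun t ht => ?_
  have ht : (0 : ℝ) < t := ht
  have hx := mem_ray k l hl ht.le
  have h2 := norm_pow_mul_ga ha l 0 1 le_rfl hx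
  have hn : ‖rho k * (t : ℂ)‖ = t := by
    rw [norm_mul, nrm_rho, one_mul, Complex.norm_real, Real.norm_of_nonneg ht.le]
  rw [hn, pow_one] at h2
  rw [norm_mul, nrm_rho, one_mul]
  exact h2

lemma Jr_limit (ha : Near a) (k l : Fin 6) (hl : l = k ∨ l = k + 1) (Ψ : ℂ → ℂ)
    (hΨ : ∀ x ∈ S l, HasDerivAt Ψ (x * ga a l 0 x) x) :
    Tendsto (fun R : ℝ => Ψ (rho k * R)) atTop (𝓝 (Ψ 0 + Jr a k l)) := by
  have h1 := intervalIntegral_tendsto_integral_Ioi 0 (Jr_integrable ha k l hl) tendsto_id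
  have h2 := h1.const_add (Ψ 0)
  refine h2.congr' ?_
  filter_upwards [eventually_ge_atTop (0 : ℝ)] with R hR
  have hd : ∀ t ∈ uIcc (0 : ℝ) R, HasDerivAt (fun t : ℝ => Ψ (rho k * t)) (rho k * (rho k * t * ga a l 0 (rho k * t))) t := by
    intro t ht
    rw [uIcc_of_le hR] at ht
    have e1 := hΨ _ (mem_ray k l hl ht.1)
    have e2 : HasDerivAt (fun t : ℝ => rho k * (t : ℂ)) (rho k) t := by
      have := (Complex.ofRealCLM.hasDerivAt (x := t)).const_mul (rho k)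
      simpa using this
    have e3 := e1.comp t e2
    refine e3.congr_deriv ?_
    ring
  have hi : IntervalIntegrable (fun t : ℝ => rho k * (rho k * t * ga a l 0 (rho k * t))) volume 0 R := by
    apply ContinuousOn.intervalIntegrable
    rw [uIcc_of_le hR]
    exact (Jr_cont ha k l hl).mono Icc_subset_Ici_self
  have h3 := intervalIntegral.integral_eq_sub_of_hasDerivAt hd hi
  simp only [id]
  rw [h3]
  simp only [Complex.ofReal_zero, mul_zero]
  ring

lemma Jr_sector (ha : Near a) (k : Fin 6) : Jr a (k + 1) (k + 1) = Jr a k (k + 1) := by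
  have hdiff : DifferentiableOn ℂ (fun x => x * ga a (k + 1) 0 x) (S (k + 1)) :=
    differentiableOn_id.mul (ga_diff ha (k + 1) 0)
  obtain ⟨Ψ, hΨ⟩ := exists_primitive (isOpen_S (k + 1)) (convex_S (k + 1)) hdiff (zero_mem_S (k + 1))
  have h1 := Jr_limit ha (k + 1) (k + 1) (Or.inl rfl) Ψ hΨ
  have h2 := Jr_limit ha k (k + 1) (Or.inr rfl) Ψ hΨ
  have h3 := chord k (10 ^ 11) hΨ (fun x hx => by
    have := norm_pow_mul_ga ha (k + 1) 0 1 le_rfl hx
    rwa [pow_one] at this)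
  have h4 := tendsto_nhds_unique h3 (h1.sub h2)
  linear_combination -h4

lemma Jr_sub (ha : Near a) (k : Fin 6) : Jr a k k - Jr a k (k + 1) = (ga a k 0 0 - ga a (k + 1) 0 0) * La a k 1 := by
  unfold Jr
  rw [← integral_sub (Jr_integrable ha k k (Or.inl rfl)) (Jr_integrable ha k (k + 1) (Or.inr rfl)), La,
    ← integral_const_mul]
  apply setIntegral_congr_fun measurableSet_Ioi
  intro t ht
  have ht : (0 : ℝ) < t := ht
  have h1 := Ya_ga_sub ha (fin_ne_succ k) 0 (ray_mem k ht.le) (ray_mem' k ht.le)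
  have h2 := Ya_ne ha (fin_ne_succ k) (ray_mem k ht.le) (ray_mem' k ht.le)
  simp only
  rw [← h1]
  field_simp
  have e : ((1 : Fin 2) : ℕ) = 1 := rfl
  rw [e]
  ring

/-- **Riemann's bilinear relation** -/
theorem riem (ha : Near a) (hne : ∀ k, La a k 0 ≠ La a (k + 1) 0) : Riem (La a) := by
  have h1 : ∑ k, (Jr a k k - Jr a (k + 1) (k + 1)) = 0 := by
    rw [Finset.sum_sub_distrib]
    have : ∑ k : Fin 6, Jr a (k + 1) (k + 1) = ∑ k : Fin 6, Jr a k k :=
      Equiv.sum_comp (Equiv.addRight (1 : Fin 6)) fun k => Jr a k k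
    rw [this, sub_self]
  have h2 : ∑ k, ((ga a k 0 0 - ga a (k + 1) 0 0) * La a k 1) = 0 := by
    refine Eq.trans ?_ h1
    apply Finset.sum_congr rfl
    intro k _
    rw [← Jr_sub ha k, Jr_sector ha k]
  have hh : ∀ k, 2 * ga a (k + 1) 0 0 = -(La a k 0 + La a (k + 1) 0) := fun k => half ha k 0 (hne k)
  have e0 := hh 0
  have e1 := hh 1
  have e2 := hh 2
  have e3 := hh 3
  have e4 := hh 4
  have e5 := hh 5
  rw [Fin.sum_univ_six] at h2
  rw [Riem, Fin.sum_univ_six]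
  have f1 : (0 : Fin 6) + 1 = 1 := rfl
  have f2 : (1 : Fin 6) + 1 = 2 := rfl
  have f3 : (2 : Fin 6) + 1 = 3 := rfl
  have f4 : (3 : Fin 6) + 1 = 4 := rfl
  have f5 : (4 : Fin 6) + 1 = 5 := rfl
  have f6 : (5 : Fin 6) + 1 = 0 := rfl
  rw [f1] at e0 h2 ⊢
  rw [f2] at e1 h2 ⊢
  rw [f3] at e2 h2 ⊢
  rw [f4] at e3 h2 ⊢
  rw [f5] at e4 h2 ⊢
  rw [f6] at e5 h2 ⊢
  linear_combination 2 * h2 - (e5 - e0) * La a 0 1 - (e0 - e1) * La a 1 1 - (e1 - e2) * La a 2 1 -
    (e2 - e3) * La a 3 1 - (e3 - e4) * La a 4 1 - (e4 - e5) * La a 5 1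

end Pool.Agent.J4.H67.AS
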