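import Pool.Agent.J4.H67.AS.Defs
set_option autoImplicit false

/-! PIECE Roots (helper89). -/

namespace Pool.Agent.J4.H67.AS.NRoots

open Polynomial

theorem zt_sq : zt ^ 2 = ⟨-1 / 2, Real.sqrt 3 / 2⟩ := by
  have h : Real.sqrt 3 * Real.sqrt 3 = 3 := Real.mul_self_sqrt (by norm_num)
  rw [pow_two, zt]
  apply Complex.ext
  · simp only [Complex.mul_re]
    nlinarith
  · simp only [Complex.mul_im]
    ring

theorem zt_cube : zt ^ 3 = -1 := by
  have h : Real.sqrt 3 * Real.sqrt 3 = 3 := Real.mul_self_sqrt (by norm_num)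
  rw [pow_succ, zt_sq, zt]
  apply Complex.ext
  · simp only [Complex.mul_re, Complex.neg_re, Complex.one_re]
    nlinarith
  · simp only [Complex.mul_im, Complex.neg_im, Complex.one_im]
    ring

theorem zt_six : zt ^ 6 = 1 := by
  have : zt ^ 6 = (zt ^ 3) ^ 2 := by ring
  rw [this, zt_cube]
  norm_num

theorem norm_zt : ‖zt‖ = 1 := by
  have h : ‖zt‖ ^ 6 = 1 := by rw [← norm_pow, zt_six, norm_one]
  exact (pow_eq_one_iff_of_nonneg (norm_nonneg _) (by norm_num)).1 h

theorem norm_zk (k : Fin 6) : ‖zk k‖ = 1 := by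
  unfold zk
  rw [norm_pow, norm_zt, one_pow]

theorem zk_six (k : Fin 6) : zk k ^ 6 = 1 := by
  unfold zk
  rw [← pow_mul, mul_comm, pow_mul, zt_six, one_pow]

theorem zk_dist (k l : Fin 6) (h : k ≠ l) : 1 ≤ ‖zk k - zk l‖ := by
  have h3 : Real.sqrt 3 * Real.sqrt 3 = 3 := Real.mul_self_sqrt (by norm_num)
  have e0 : zk 0 = ⟨1, 0⟩ := by
    unfold zk
    apply Complex.ext <;> simp
  have e1 : zk 1 = ⟨1 / 2, Real.sqrt 3 / 2⟩ := by
    show zt ^ 1 = _
    rw [pow_one]; rfl
  have e2 : zk 2 = ⟨-1 / 2, Real.sqrt 3 / 2⟩ := zt_sq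
  have e3 : zk 3 = ⟨-1, 0⟩ := by
    show zt ^ 3 = _
    rw [zt_cube]
    apply Complex.ext <;> simp
  have e4 : zk 4 = ⟨-1 / 2, -Real.sqrt 3 / 2⟩ := by
    show zt ^ 4 = _
    have : zt ^ 4 = zt ^ 3 * zt := by ring
    rw [this, zt_cube, zt]
    apply Complex.ext
    · simp only [Complex.mul_re, Complex.neg_re, Complex.one_re, Complex.neg_im, Complex.one_im]
      ring
    · simp only [Complex.mul_im, Complex.neg_re, Complex.one_re, Complex.neg_im, Complex.one_im]
      ring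
  have e5 : zk 5 = ⟨1 / 2, -Real.sqrt 3 / 2⟩ := by
    show zt ^ 5 = _
    have : zt ^ 5 = zt ^ 3 * zt ^ 2 := by ring
    rw [this, zt_cube, zt_sq]
    apply Complex.ext
    · simp only [Complex.mul_re, Complex.neg_re, Complex.one_re, Complex.neg_im, Complex.one_im]
      ring
    · simp only [Complex.mul_im, Complex.neg_re, Complex.one_re, Complex.neg_im, Complex.one_im]
      ring
  have key : ∀ x y : ℂ, 1 ≤ (x.re - y.re) * (x.re - y.re) + (x.im - y.im) * (x.im - y.im) → 1 ≤ ‖x - y‖ := by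
    intro x y hxy
    have h1 : ‖x - y‖ ^ 2 = (x.re - y.re) * (x.re - y.re) + (x.im - y.im) * (x.im - y.im) := by
      rw [← Complex.normSq_eq_norm_sq, Complex.normSq_apply, Complex.sub_re, Complex.sub_im]
    have h2 := norm_nonneg (x - y)
    nlinarith
  apply key
  revert h
  fin_cases k <;> fin_cases l <;> intro h <;> first
    | exact absurd rfl h
    | (simp only [Fin.mk_one, Fin.zero_eta, Fin.reduceFinMk, Fin.isValue, e0, e1, e2, e3, e4, e5]; nlinarith)

/-- the polynomial -/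
noncomputable def Qp (p : Fin 3 → ℂ) : ℂ[X] := 1 + C (p 0) * X ^ 2 + C (p 1) * X ^ 3 + C (p 2) * X ^ 4 - X ^ 6

theorem Qp_eval (p : Fin 3 → ℂ) (x : ℂ) : (Qp p).eval x = Pf p x := by
  simp [Qp, Pf]

theorem Qp_coeff (p : Fin 3 → ℂ) : (Qp p).coeff 6 = -1 := by
  simp [Qp, coeff_X_pow, coeff_one]

theorem Qp_natDegree (p : Fin 3 → ℂ) : (Qp p).natDegree = 6 := by
  apply natDegree_eq_of_le_of_coeff_ne_zero
  · unfold Qp
    compute_degree
  · rw [Qp_coeff]
    norm_num

theorem Qp_lead (p : Fin 3 → ℂ) : (Qp p).leadingCoeff = -1 := by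
  rw [leadingCoeff, Qp_natDegree, Qp_coeff]

theorem prod_lower (s : Multiset ℂ) (z : ℂ) {η : ℝ} (hη : 0 ≤ η) (h : ∀ r ∈ s, η ≤ ‖z - r‖) :
    η ^ (Multiset.card s) ≤ ‖(s.map fun r => z - r).prod‖ := by
  induction s using Multiset.induction_on with
  | empty => simp
  | cons a s ih =>
    rw [Multiset.map_cons, Multiset.prod_cons, Multiset.card_cons, norm_mul, pow_succ, mul_comm]
    exact mul_le_mul (h a (Multiset.mem_cons_self a s)) (ih fun r hr => h r (Multiset.mem_cons_of_mem hr))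
      (by positivity) (norm_nonneg _)

theorem near_root (p : Fin 3 → ℂ) (z : ℂ) {η : ℝ} (hη : 0 < η) (h : ‖Pf p z‖ < η ^ 6) :
    ∃ r, Pf p r = 0 ∧ ‖z - r‖ < η := by
  have hs := IsAlgClosed.splits (Qp p)
  have e := hs.eq_prod_roots
  have hcard : Multiset.card (Qp p).roots = 6 := by
    rw [← hs.natDegree_eq_card_roots, Qp_natDegree]
  have h1 : ‖Pf p z‖ = ‖((Qp p).roots.map fun r => z - r).prod‖ := by
    rw [← Qp_eval]
    conv_lhs => rw [e, Qp_lead]
    rw [eval_mul, eval_C, norm_mul, norm_neg, norm_one, one_mul, eval_multiset_prod, Multiset.map_map]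
    congr 3
    funext r
    simp
  by_contra hcon
  push Not at hcon
  have h2 := prod_lower (Qp p).roots z hη.le (fun r hr => hcon r (by
    rw [← Qp_eval]
    exact (mem_roots'.1 hr).2))
  rw [hcard, ← h1] at h2
  linarith

/-- PIECE Roots -/
theorem exists_roots (η : ℝ) (hη : 0 < η) :
    ∃ δ > 0, ∀ p : Fin 3 → ℂ, ‖p‖ < δ → ∃ a : Fin 6 → ℂ, (∀ k, ‖a k - zk k‖ < η) ∧ ∀ x, Pf p x = Pa a x := by
  set θ : ℝ := min η (1 / 2) with hθ
  have hθ0 : 0 < θ := lt_min hη (by norm_num)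
  have hθη : θ ≤ η := min_le_left _ _
  have hθ2 : θ ≤ 1 / 2 := min_le_right _ _
  refine ⟨θ ^ 6 / 3, by positivity, ?_⟩
  intro p hp
  have hroot : ∀ k : Fin 6, ∃ r, Pf p r = 0 ∧ ‖zk k - r‖ < θ := by
    intro k
    apply near_root p (zk k) hθ0
    have h0 : ∀ i, ‖p i‖ ≤ ‖p‖ := fun i => norm_le_pi_norm p i
    have e : Pf p (zk k) = p 0 * zk k ^ 2 + p 1 * zk k ^ 3 + p 2 * zk k ^ 4 := by
      unfold Pf
      rw [zk_six]
      ring
    rw [e]
    calc ‖p 0 * zk k ^ 2 + p 1 * zk k ^ 3 + p 2 * zk k ^ 4‖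
        ≤ ‖p 0 * zk k ^ 2‖ + ‖p 1 * zk k ^ 3‖ + ‖p 2 * zk k ^ 4‖ := norm_add₃_le
      _ = ‖p 0‖ + ‖p 1‖ + ‖p 2‖ := by
          simp only [norm_mul, norm_pow, norm_zk, one_pow, mul_one]
      _ ≤ 3 * ‖p‖ := by linarith [h0 0, h0 1, h0 2]
      _ < θ ^ 6 := by linarith
  choose a ha1 ha2 using hroot
  have hinj : Function.Injective a := by
    intro k l hkl
    by_contra hne
    have h1 := zk_dist k l hne
    have h2 : ‖zk k - zk l‖ ≤ ‖zk k - a k‖ + ‖zk l - a l‖ := by
      have : zk k - zk l = (zk k - a k) - (zk l - a l) := by rw [hkl]; ring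
      rw [this]
      exact norm_sub_le _ _
    linarith [ha2 k, ha2 l]
  refine ⟨a, fun k => by rw [norm_sub_rev]; exact (ha2 k).trans_le hθη, ?_⟩
  -- the factorisation
  set P : ℂ[X] := ∏ k, (X - C (a k)) with hP
  have hPm : P.Monic := monic_prod_of_monic _ _ fun k _ => monic_X_sub_C _
  have hPd : P.natDegree = 6 := by
    rw [hP, natDegree_prod_of_monic _ _ fun k _ => monic_X_sub_C _]
    simp
  have heq : Qp p = -P := by
    apply Polynomial.eq_of_degree_sub_lt_of_eval_finset_eq (Finset.univ.image a)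
    · rw [Finset.card_image_of_injective _ hinj, Finset.card_univ, Fintype.card_fin, sub_neg_eq_add]
      apply lt_of_lt_of_le _ (le_refl _)
      rw [degree_lt_iff_coeff_zero]
      intro n hn
      rw [coeff_add]
      rcases hn.eq_or_lt with h | h
      · rw [← h, Qp_coeff]
        have : P.coeff 6 = 1 := by
          rw [← hPd]
          exact hPm.coeff_natDegree
        rw [this]
        ring
      · rw [coeff_eq_zero_of_natDegree_lt (by rw [Qp_natDegree]; exact h),
          coeff_eq_zero_of_natDegree_lt (by rw [hPd]; exact h), add_zero]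
    · intro x hx
      obtain ⟨k, _, hk⟩ := Finset.mem_image.1 hx
      rw [Qp_eval, ← hk, ha1, eval_neg, hP, eval_prod, Finset.prod_eq_zero (Finset.mem_univ k) (by simp), neg_zero]
  have hev : ∀ x, Pf p x = -∏ k, (x - a k) := by
    intro x
    rw [← Qp_eval, heq, eval_neg, hP, eval_prod]
    simp
  have h0 : ∏ k, (-a k) = -1 := by
    have h1 := hev 0
    have h2 : Pf p 0 = 1 := by simp [Pf]
    rw [h2] at h1
    simp only [zero_sub] at h1
    linear_combination h1
  have ha0 : ∀ k, a k ≠ 0 := by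
    intro k hk
    have h1 : ∏ k, (-a k) = 0 := Finset.prod_eq_zero (Finset.mem_univ k) (by rw [hk, neg_zero])
    rw [h1] at h0
    norm_num at h0
  intro x
  rw [hev, Pa]
  have h1 : ∏ k, (x - a k) = (∏ k, (-a k)) * ∏ k, (1 - x / a k) := by
    rw [← Finset.prod_mul_distrib]
    refine Finset.prod_congr rfl fun k _ => ?_
    have := ha0 k
    field_simp
    ring
  rw [h1, h0]
  ring

end Pool.Agent.J4.H67.AS.NRoots
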