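import Pool.Agent.J4.H67.AS.Defs
set_option autoImplicit false

/-!
The integrals along the rays: values and strict derivative at `p = 0` (written by helper13).
-/

namespace Pool.Agent.J4.H67.AS.NStrict

open MeasureTheory Set Filter Topology
open scoped ComplexConjugate

/-- `(1 + t^6)^(-1/2)` -/
noncomputable def J (t : ℝ) : ℝ := (1 + t ^ 6) ^ (-(1 / 2) : ℝ)

theorem base_pos (t : ℝ) : 0 < 1 + t ^ 6 := by positivity

theorem J_pos (t : ℝ) : 0 < J t := Real.rpow_pos_of_pos (base_pos t) _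

theorem J_le_one (t : ℝ) : J t ≤ 1 :=
  Real.rpow_le_one_of_one_le_of_nonpos (by have : 0 ≤ t ^ 6 := by positivity
                                           linarith) (by norm_num)

theorem J_sq (t : ℝ) : J t ^ 2 = (1 + t ^ 6)⁻¹ := by
  unfold J
  rw [← Real.rpow_natCast, ← Real.rpow_mul (base_pos t).le]
  norm_num
  rw [Real.rpow_neg_one]

theorem J_cube (t : ℝ) : (1 + t ^ 6) ^ (-(3 / 2) : ℝ) = J t ^ 3 := by
  unfold J
  rw [← Real.rpow_natCast ((1 + t ^ 6) ^ (-(1 / 2) : ℝ)) 3, ← Real.rpow_mul (base_pos t).le]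
  norm_num

theorem t3J_le (t : ℝ) (ht : 0 < t) : t ^ 3 * J t ≤ 1 := by
  have h1 : (t ^ 3 * J t) ^ 2 ≤ 1 := by
    rw [mul_pow, J_sq, ← div_eq_mul_inv, div_le_one (base_pos t)]
    nlinarith [pow_pos ht 6]
  have h2 : 0 ≤ t ^ 3 * J t := mul_nonneg (pow_nonneg ht.le 3) (J_pos t).le
  nlinarith

theorem J_cont : Continuous J := by
  unfold J
  refine Continuous.rpow_const (by fun_prop) (fun t => Or.inl (base_pos t).ne')

theorem J_meas : Measurable J := J_cont.measurable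

/-- the two families of integrands -/
theorem bound1 (s : ℕ) (hs : s ≤ 1) (t : ℝ) (ht : 0 < t) : t ^ s * J t ≤ 2 * (1 + t ^ 2)⁻¹ := by
  rw [← div_eq_mul_inv, le_div_iff₀ (by positivity)]
  have hJ := J_pos t
  have hJ1 := J_le_one t
  have h3 := t3J_le t ht
  rcases le_total t 1 with h | h
  · have h1 : t ^ s ≤ 1 := pow_le_one₀ ht.le h
    have h2 : t ^ s * J t ≤ 1 := mul_le_one₀ h1 hJ.le hJ1
    have h4 : 0 ≤ t ^ s * J t := by positivity
    have h5 : t ^ 2 ≤ 1 := pow_le_one₀ ht.le h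
    nlinarith
  · have h1 : t ^ s ≤ t := by
      calc t ^ s ≤ t ^ 1 := pow_le_pow_right₀ h hs
        _ = t := pow_one t
    have h2 : 1 + t ^ 2 ≤ 2 * t ^ 2 := by nlinarith
    calc t ^ s * J t * (1 + t ^ 2) ≤ t * J t * (2 * t ^ 2) := by gcongr
      _ = 2 * (t ^ 3 * J t) := by ring
      _ ≤ 2 := by linarith

theorem bound3 (s : ℕ) (hs : s ≤ 7) (t : ℝ) (ht : 0 < t) : t ^ s * J t ^ 3 ≤ 2 * (1 + t ^ 2)⁻¹ := by
  rw [← div_eq_mul_inv, le_div_iff₀ (by positivity)]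
  have hJ := J_pos t
  have hJ1 := J_le_one t
  have h3 := t3J_le t ht
  rcases le_total t 1 with h | h
  · have h1 : t ^ s ≤ 1 := pow_le_one₀ ht.le h
    have h1' : J t ^ 3 ≤ 1 := pow_le_one₀ hJ.le hJ1
    have h2 : t ^ s * J t ^ 3 ≤ 1 := mul_le_one₀ h1 (by positivity) h1'
    have h4 : 0 ≤ t ^ s * J t ^ 3 := by positivity
    have h5 : t ^ 2 ≤ 1 := pow_le_one₀ ht.le h
    nlinarith
  · have h1 : t ^ s ≤ t ^ 7 := pow_le_pow_right₀ h hs
    have h2 : 1 + t ^ 2 ≤ 2 * t ^ 2 := by nlinarith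
    calc t ^ s * J t ^ 3 * (1 + t ^ 2) ≤ t ^ 7 * J t ^ 3 * (2 * t ^ 2) := by gcongr
      _ = 2 * (t ^ 3 * J t) ^ 3 := by ring
      _ ≤ 2 * 1 := by
        gcongr
        exact pow_le_one₀ (by positivity) h3
      _ = 2 := by ring

theorem int_base : IntegrableOn (fun t : ℝ => 2 * (1 + t ^ 2)⁻¹) (Ioi 0) :=
  (integrable_inv_one_add_sq.const_mul 2).integrableOn

theorem int1 (s : ℕ) (hs : s ≤ 1) : IntegrableOn (fun t : ℝ => t ^ s * J t) (Ioi 0) := by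
  refine Integrable.mono' int_base (by
    exact ((measurable_id.pow_const s).mul J_meas).aestronglyMeasurable) ?_
  refine (ae_restrict_mem measurableSet_Ioi).mono fun t ht => ?_
  have ht' : 0 < t := ht
  have := J_pos t
  rw [Real.norm_of_nonneg (by positivity)]
  exact bound1 s hs t ht

theorem int3 (s : ℕ) (hs : s ≤ 7) : IntegrableOn (fun t : ℝ => t ^ s * J t ^ 3) (Ioi 0) := by
  refine Integrable.mono' int_base (by
    exact ((measurable_id.pow_const s).mul (J_meas.pow_const 3)).aestronglyMeasurable) ?_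
  refine (ae_restrict_mem measurableSet_Ioi).mono fun t ht => ?_
  have ht' : 0 < t := ht
  have := J_pos t
  rw [Real.norm_of_nonneg (by positivity)]
  exact bound3 s hs t ht

theorem pos_of_int (f : ℝ → ℝ) (hf : IntegrableOn f (Ioi 0)) (h : ∀ t, 0 < t → 0 < f t) :
    0 < ∫ t in Ioi (0 : ℝ), f t := by
  rw [setIntegral_pos_iff_support_of_nonneg_ae
    ((ae_restrict_mem measurableSet_Ioi).mono fun t ht => (h t ht).le) hf]
  have : Function.support f ∩ Ioi 0 = Ioi 0 := by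
    ext t
    simp only [mem_inter_iff, Function.mem_support, mem_Ioi, and_iff_right_iff_imp]
    exact fun ht => (h t ht).ne'
  rw [this]
  simp

theorem el_eq : el = ∫ t in Ioi (0 : ℝ), t ^ 0 * J t := by
  unfold el J
  simp

theorem el_pos : 0 < el := by
  rw [el_eq]
  exact pos_of_int _ (int1 0 (by norm_num)) fun t ht => by
    have := J_pos t
    positivity

theorem Bs_eq (s : ℕ) : Bs s = ∫ t in Ioi (0 : ℝ), t ^ s * J t ^ 3 := by
  unfold Bs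
  refine integral_congr_ae (Eventually.of_forall fun t => ?_)
  show t ^ s * _ = _
  rw [J_cube]

theorem Bs_pos (s : ℕ) (hs : s ≤ 7) : 0 < Bs s := by
  rw [Bs_eq]
  exact pos_of_int _ (int3 s hs) fun t ht => by
    have := J_pos t
    positivity

theorem el_eq1 : el = ∫ t in Ioi (0 : ℝ), t ^ 1 * J t := by
  rw [← integral_comp_rpow_Ioi (fun t : ℝ => t ^ 1 * J t) (p := -1) (by norm_num), el_eq]
  refine setIntegral_congr_fun measurableSet_Ioi fun t ht => ?_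
  have ht' : 0 < t := ht
  have h1 : J (t⁻¹) = t ^ 3 * J t := by
    have h2 : (J (t⁻¹)) ^ 2 = (t ^ 3 * J t) ^ 2 := by
      rw [mul_pow, J_sq, J_sq]
      field_simp
      ring
    have h3 : 0 ≤ J t⁻¹ := (J_pos _).le
    have h4 : 0 ≤ t ^ 3 * J t := mul_nonneg (pow_nonneg ht'.le 3) (J_pos t).le
    exact (sq_eq_sq₀ h3 h4).mp h2
  show t ^ 0 * J t = (|(-1 : ℝ)| * t ^ ((-1 : ℝ) - 1)) • ((t ^ (-1 : ℝ)) ^ 1 * J (t ^ (-1 : ℝ)))
  rw [Real.rpow_neg_one, h1]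
  have h5 : t ^ ((-1 : ℝ) - 1) = (t ^ 2)⁻¹ := by
    rw [show ((-1 : ℝ) - 1) = -((2 : ℕ) : ℝ) by norm_num, Real.rpow_neg ht'.le, Real.rpow_natCast]
  rw [h5]
  simp only [abs_neg, abs_one, one_mul, pow_zero, pow_one, smul_eq_mul]
  field_simp

theorem el_j (j : Fin 2) : el = ∫ t in Ioi (0 : ℝ), t ^ (j : ℕ) * J t := by
  fin_cases j
  · exact el_eq
  · exact el_eq1

theorem zt_sq : zt ^ 2 = zt - 1 := by
  have h := Real.sq_sqrt (show (0 : ℝ) ≤ 3 by norm_num)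
  apply Complex.ext
  · simp [zt, pow_two]
    nlinarith
  · simp [zt, pow_two]
    ring

theorem zt_cube : zt ^ 3 = -1 := by
  calc zt ^ 3 = zt ^ 2 * zt := by ring
    _ = (zt - 1) * zt := by rw [zt_sq]
    _ = zt ^ 2 - zt := by ring
    _ = -1 := by rw [zt_sq]; ring

theorem w0_sq : w0 ^ 2 = zt := by
  have h := Real.sq_sqrt (show (0 : ℝ) ≤ 3 by norm_num)
  apply Complex.ext
  · simp [zt, w0, pow_two]
    nlinarith
  · simp [zt, w0, pow_two]
    ring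

theorem rho_pow_six (k : Fin 6) : rho k ^ 6 = -1 := by
  unfold rho zk
  calc (w0 * zt ^ (k : ℕ)) ^ 6 = (w0 ^ 2) ^ 3 * (zt ^ 3) ^ (2 * (k : ℕ)) := by ring
    _ = -1 := by rw [w0_sq, zt_cube]; simp

theorem norm_rho (k : Fin 6) : ‖rho k‖ = 1 := by
  have h : ‖rho k‖ ^ 6 = 1 := by rw [← norm_pow, rho_pow_six]; simp
  exact (pow_eq_one_iff_of_nonneg (norm_nonneg _) (by norm_num)).mp h

/-- the perturbation term -/
noncomputable def ell (k : Fin 6) (t : ℝ) (p : Fin 3 → ℂ) : ℂ :=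
  (p 0 * (rho k * t) ^ 2 + p 1 * (rho k * t) ^ 3 + p 2 * (rho k * t) ^ 4) * ((J t ^ 2 : ℝ) : ℂ)

theorem Pf_eq (p : Fin 3 → ℂ) (k : Fin 6) (t : ℝ) :
    Pf p (rho k * t) = ((1 + t ^ 6 : ℝ) : ℂ) * (1 + ell k t p) := by
  have h1 : (rho k * t) ^ 6 = -(t : ℂ) ^ 6 := by rw [mul_pow, rho_pow_six]; ring
  have h2 : ((1 + t ^ 6 : ℝ) : ℂ) * ((J t ^ 2 : ℝ) : ℂ) = 1 := by
    rw [J_sq, ← Complex.ofReal_mul, mul_inv_cancel₀ (base_pos t).ne', Complex.ofReal_one]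
  unfold Pf ell
  rw [h1]
  have h3 : ((1 + t ^ 6 : ℝ) : ℂ) = 1 + (t : ℂ) ^ 6 := by push_cast; ring
  linear_combination (-1) * h3 - (p 0 * (rho k * t) ^ 2 + p 1 * (rho k * t) ^ 3 +
        p 2 * (rho k * t) ^ 4) * h2

theorem ofReal_mul_cpow {r : ℝ} (hr : 0 < r) {x : ℂ} (hx : x ≠ 0) (s : ℂ) :
    ((r : ℂ) * x) ^ s = (r : ℂ) ^ s * x ^ s := by
  have hr' : (r : ℂ) ≠ 0 := Complex.ofReal_ne_zero.mpr hr.ne'
  rw [Complex.cpow_def_of_ne_zero (mul_ne_zero hr' hx), Complex.cpow_def_of_ne_zero hr',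
    Complex.cpow_def_of_ne_zero hx, Complex.log_ofReal_mul hr hx, ← Complex.exp_add,
    ← Complex.ofReal_log hr.le]
  ring_nf

theorem J_coe (t : ℝ) : ((1 + t ^ 6 : ℝ) : ℂ) ^ (-(1 / 2) : ℂ) = (J t : ℂ) := by
  unfold J
  rw [Complex.ofReal_cpow (base_pos t).le]
  norm_num

theorem Pf_cpow (p : Fin 3 → ℂ) (k : Fin 6) (t : ℝ) (h : 1 + ell k t p ≠ 0) :
    (Pf p (rho k * t)) ^ (-(1 / 2) : ℂ) = J t * (1 + ell k t p) ^ (-(1 / 2) : ℂ) := by
  rw [Pf_eq, ofReal_mul_cpow (base_pos t) h, J_coe]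

theorem ell_zero (k : Fin 6) (t : ℝ) : ell k t 0 = 0 := by simp [ell]

theorem Lr_zero (k : Fin 6) (j : Fin 2) : Lr 0 k j = rho k ^ ((j : ℕ) + 1) * el := by
  unfold Lr
  rw [el_j j, ← integral_complex_ofReal, ← integral_const_mul]
  refine integral_congr_ae (Eventually.of_forall fun t => ?_)
  show rho k ^ ((j : ℕ) + 1) * (t : ℂ) ^ (j : ℕ) * (Pf 0 (rho k * t)) ^ (-(1 / 2) : ℂ) =
    rho k ^ ((j : ℕ) + 1) * ((t ^ (j : ℕ) * J t : ℝ) : ℂ)
  rw [Pf_cpow 0 k t (by simp [ell_zero]), ell_zero]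
  simp only [add_zero, Complex.one_cpow, mul_one]
  push_cast
  ring

/-- the function `(1 + u)^(-1/2)` -/
noncomputable def Fu (u : ℂ) : ℂ := (1 + u) ^ (-(1 / 2) : ℂ)

theorem Fu_strict : HasStrictDerivAt Fu (-(1 / 2)) 0 := by
  have h1 : HasStrictDerivAt (fun u : ℂ => 1 + u) 1 0 := (hasStrictDerivAt_id 0).const_add 1
  have h2 := h1.cpow_const (c := (-(1 / 2) : ℂ)) (by simp)
  have h3 : Fu = fun u : ℂ => (1 + u) ^ (-(1 / 2) : ℂ) := rfl
  rw [h3]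
  convert! h2 using 1
  simp

theorem Fu_est (ε : ℝ) (hε : 0 < ε) : ∃ δ > 0, ∀ u v : ℂ, ‖u‖ < δ → ‖v‖ < δ →
    ‖Fu u - Fu v + (u - v) / 2‖ ≤ ε * ‖u - v‖ := by
  have h := Fu_strict.isLittleO.def hε
  rw [Metric.eventually_nhds_iff] at h
  obtain ⟨δ, hδ, h⟩ := h
  refine ⟨δ, hδ, fun u v hu hv => ?_⟩
  have h1 := @h (u, v) (by
    rw [Prod.dist_eq, max_lt_iff]
    simpa using ⟨hu, hv⟩)
  have h2 : Fu u - Fu v + (u - v) / 2 = Fu u - Fu v - (u - v) * (-(1 / 2)) := by ring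
  rw [h2]
  simpa using h1

theorem ell_sub (k : Fin 6) (t : ℝ) (p q : Fin 3 → ℂ) :
    ell k t p - ell k t q = ell k t (p - q) := by
  simp only [ell, Pi.sub_apply]
  ring

/-- the size of the perturbation term -/
noncomputable def mm (t : ℝ) : ℝ := (t ^ 2 + t ^ 3 + t ^ 4) * J t ^ 2

theorem norm_ell (k : Fin 6) (t : ℝ) (ht : 0 < t) (p : Fin 3 → ℂ) :
    ‖ell k t p‖ ≤ ‖p‖ * mm t := by
  have hx : ‖rho k * (t : ℂ)‖ = t := by
    rw [norm_mul, norm_rho, one_mul, Complex.norm_real, Real.norm_of_nonneg ht.le]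
  have h0 := norm_le_pi_norm p 0
  have h1 := norm_le_pi_norm p 1
  have h2 := norm_le_pi_norm p 2
  have hJ : ‖((J t ^ 2 : ℝ) : ℂ)‖ = J t ^ 2 := by
    rw [Complex.norm_real, Real.norm_of_nonneg (sq_nonneg _)]
  unfold ell mm
  rw [norm_mul, hJ, ← mul_assoc]
  refine mul_le_mul_of_nonneg_right ?_ (sq_nonneg _)
  calc ‖p 0 * (rho k * t) ^ 2 + p 1 * (rho k * t) ^ 3 + p 2 * (rho k * t) ^ 4‖
      ≤ ‖p 0 * (rho k * t) ^ 2‖ + ‖p 1 * (rho k * t) ^ 3‖ + ‖p 2 * (rho k * t) ^ 4‖ :=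
        norm_add₃_le
    _ = ‖p 0‖ * t ^ 2 + ‖p 1‖ * t ^ 3 + ‖p 2‖ * t ^ 4 := by
        rw [norm_mul, norm_mul, norm_mul, norm_pow, norm_pow, norm_pow, hx]
    _ ≤ ‖p‖ * t ^ 2 + ‖p‖ * t ^ 3 + ‖p‖ * t ^ 4 := by gcongr
    _ = ‖p‖ * (t ^ 2 + t ^ 3 + t ^ 4) := by ring

theorem mm_le (t : ℝ) (ht : 0 < t) : mm t ≤ 3 := by
  unfold mm
  rw [J_sq, ← div_eq_mul_inv, div_le_iff₀ (base_pos t)]
  nlinarith [sq_nonneg (t - 1), sq_nonneg (t ^ 2 - 1), sq_nonneg (t ^ 3 - 1), pow_pos ht 2,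
    pow_pos ht 3, pow_pos ht 4, mul_pos ht ht, sq_nonneg (t ^ 2 - t), sq_nonneg (t ^ 3 - t)]

/-- the integrand -/
noncomputable def Ap (k : Fin 6) (j : Fin 2) (p : Fin 3 → ℂ) (t : ℝ) : ℂ :=
  rho k ^ ((j : ℕ) + 1) * (t : ℂ) ^ (j : ℕ) * (Pf p (rho k * t)) ^ (-(1 / 2) : ℂ)

theorem Ap_eq (k : Fin 6) (j : Fin 2) (p : Fin 3 → ℂ) (t : ℝ) (h : ‖ell k t p‖ < 1) :
    Ap k j p t = rho k ^ ((j : ℕ) + 1) * ((t ^ (j : ℕ) * J t : ℝ) : ℂ) * Fu (ell k t p) := by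
  have h1 : 1 + ell k t p ≠ 0 := by
    intro h2
    have h3 : ell k t p = -1 := by linear_combination h2
    rw [h3] at h
    simp at h
  unfold Ap Fu
  rw [Pf_cpow p k t h1]
  push_cast
  ring

theorem Ap_meas (k : Fin 6) (j : Fin 2) (p : Fin 3 → ℂ) : Measurable (Ap k j p) := by
  unfold Ap
  refine Measurable.mul (by fun_prop) ?_
  refine Measurable.pow_const ?_ _
  unfold Pf
  fun_prop

theorem Fu_bound : ∃ δ > 0, δ ≤ 1 ∧ ∀ u : ℂ, ‖u‖ < δ → ‖Fu u‖ ≤ 2 := by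
  obtain ⟨δ, hδ, h⟩ := Fu_est (1 / 2) (by norm_num)
  refine ⟨min δ 1, lt_min hδ one_pos, min_le_right _ _, fun u hu => ?_⟩
  have h1 := h u 0 (hu.trans_le (min_le_left _ _)) (by simpa using hδ)
  have h2 : Fu 0 = 1 := by simp [Fu]
  have h3 : ‖u‖ < 1 := hu.trans_le (min_le_right _ _)
  rw [h2] at h1
  have h4 : Fu u = (Fu u - 1 + (u - 0) / 2) + (1 - u / 2) := by ring
  rw [h4]
  have h5 : ‖u / 2‖ ≤ 1 / 2 := by
    rw [norm_div]
    simp
    linarith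
  calc _ ≤ ‖Fu u - 1 + (u - 0) / 2‖ + ‖1 - u / 2‖ := norm_add_le _ _
    _ ≤ 1 / 2 * ‖u - 0‖ + (‖(1 : ℂ)‖ + ‖u / 2‖) := add_le_add h1 (norm_sub_le _ _)
    _ ≤ 1 / 2 * 1 + (1 + 1 / 2) := by
        rw [sub_zero, norm_one]
        gcongr
    _ = 2 := by norm_num

theorem Ap_int (k : Fin 6) (j : Fin 2) : ∃ δ > 0, ∀ p : Fin 3 → ℂ, ‖p‖ < δ →
    IntegrableOn (Ap k j p) (Ioi 0) := by
  obtain ⟨δ, hδ, hδ1, h⟩ := Fu_bound
  refine ⟨δ / 3, by positivity, fun p hp => ?_⟩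
  have hj : (j : ℕ) ≤ 1 := by omega
  refine Integrable.mono' ((int1 j hj).mul_const 2) (Ap_meas k j p).aestronglyMeasurable ?_
  refine (ae_restrict_mem measurableSet_Ioi).mono fun t ht => ?_
  have ht' : 0 < t := ht
  have h1 : ‖ell k t p‖ < δ := by
    calc ‖ell k t p‖ ≤ ‖p‖ * mm t := norm_ell k t ht' p
      _ ≤ ‖p‖ * 3 := by
        gcongr
        exact mm_le t ht'
      _ < δ := by linarith
  rw [Ap_eq k j p t (h1.trans_le hδ1), norm_mul, norm_mul, norm_pow, norm_rho, one_pow, one_mul,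
    Complex.norm_real, Real.norm_of_nonneg (by have := J_pos t; positivity)]
  have h2 := h _ h1
  have := J_pos t
  gcongr

theorem Dr_eq (k : Fin 6) (j : Fin 2) (w : Fin 3 → ℂ) :
    Dr k j w = ∫ t in Ioi (0 : ℝ), -(1 / 2) * (rho k ^ ((j : ℕ) + 1) *
      ((t ^ (j : ℕ) * J t : ℝ) : ℂ) * ell k t w) ∧
    IntegrableOn (fun t : ℝ => -(1 / 2) * (rho k ^ ((j : ℕ) + 1) *
      ((t ^ (j : ℕ) * J t : ℝ) : ℂ) * ell k t w)) (Ioi 0) := by
  have hj : (j : ℕ) ≤ 1 := by omega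
  have hi : ∀ i : Fin 3, Integrable (fun t : ℝ => (-(1 / 2) * rho k ^ ((j : ℕ) + i + 3) * w i) *
      ((t ^ ((j : ℕ) + i + 2) * J t ^ 3 : ℝ) : ℂ)) (volume.restrict (Ioi 0)) := fun i =>
    (int3 ((j : ℕ) + i + 2) (by omega)).ofReal.const_mul _
  have h1 : ∀ t : ℝ, -(1 / 2) * (rho k ^ ((j : ℕ) + 1) *
      ((t ^ (j : ℕ) * J t : ℝ) : ℂ) * ell k t w) = ∑ i : Fin 3,
      (-(1 / 2) * rho k ^ ((j : ℕ) + i + 3) * w i) *
      ((t ^ ((j : ℕ) + i + 2) * J t ^ 3 : ℝ) : ℂ) := by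
    intro t
    rw [Fin.sum_univ_three]
    unfold ell
    push_cast
    simp only [Fin.val_zero, Fin.val_one, Fin.val_two]
    ring
  constructor
  · simp_rw [h1]
    rw [integral_finsetSum _ (fun i _ => hi i)]
    simp only [Dr, _root_.sum_apply, _root_.smul_apply,
      ContinuousLinearMap.proj_apply, smul_eq_mul]
    refine Finset.sum_congr rfl fun i _ => ?_
    rw [integral_const_mul, integral_complex_ofReal, ← Bs_eq]
    ring
  · simp_rw [h1]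
    exact integrable_finsetSum _ (fun i _ => hi i)

theorem Lr_strict (k : Fin 6) (j : Fin 2) : HasStrictFDerivAt (fun p => Lr p k j) (Dr k j) 0 := by
  have hj : (j : ℕ) ≤ 1 := by omega
  obtain ⟨δ₁, hδ₁, hint⟩ := Ap_int k j
  have hmi : IntegrableOn (fun t : ℝ => t ^ (j : ℕ) * J t * mm t) (Ioi 0) := by
    have h2 := (int3 ((j : ℕ) + 2) (by omega)).add ((int3 ((j : ℕ) + 3) (by omega)).add
      (int3 ((j : ℕ) + 4) (by omega)))
    refine h2.congr (Eventually.of_forall fun t => ?_)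
    simp only [Pi.add_apply, mm]
    ring
  obtain ⟨C, hC⟩ : ∃ C, C = ∫ t in Ioi (0 : ℝ), t ^ (j : ℕ) * J t * mm t := ⟨_, rfl⟩
  have hC0 : 0 ≤ C := by
    rw [hC]
    refine setIntegral_nonneg measurableSet_Ioi fun t ht => ?_
    have ht' : 0 < t := ht
    have := J_pos t
    unfold mm
    positivity
  refine HasStrictFDerivAt.of_isLittleO (Asymptotics.isLittleO_iff.mpr fun c hc => ?_)
  obtain ⟨δ₂, hδ₂, hF⟩ := Fu_est (c / (C + 1)) (by positivity)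
  rw [Metric.eventually_nhds_iff]
  refine ⟨min δ₁ (min (δ₂ / 3) (1 / 3)), by positivity, fun {x} hx => ?_⟩
  obtain ⟨p, q⟩ := x
  rw [Prod.dist_eq, max_lt_iff] at hx
  simp only [dist_zero_right, lt_min_iff] at hx
  obtain ⟨⟨hp1, hp2, hp3⟩, hq1, hq2, hq3⟩ := hx
  have hb : ∀ (r : Fin 3 → ℂ), ‖r‖ < δ₂ / 3 → ‖r‖ < 1 / 3 → ∀ t, 0 < t →
      ‖ell k t r‖ < δ₂ ∧ ‖ell k t r‖ < 1 := by
    intro r h1 h2 t ht
    have h3 : ‖ell k t r‖ ≤ ‖r‖ * 3 := (norm_ell k t ht r).trans (by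
      gcongr
      exact mm_le t ht)
    constructor <;> linarith
  have e1 : Lr p k j - Lr q k j - Dr k j (p - q) =
      ∫ t in Ioi (0 : ℝ), (Ap k j p t - Ap k j q t - -(1 / 2) * (rho k ^ ((j : ℕ) + 1) *
      ((t ^ (j : ℕ) * J t : ℝ) : ℂ) * ell k t (p - q))) := by
    have e3 := integral_sub (μ := volume.restrict (Ioi 0)) (f := fun t => Ap k j p t - Ap k j q t)
      (g := fun t => -(1 / 2) * (rho k ^ ((j : ℕ) + 1) *
      ((t ^ (j : ℕ) * J t : ℝ) : ℂ) * ell k t (p - q))) ((hint p hp1).sub (hint q hq1))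
      (Dr_eq k j (p - q)).2
    have e4 := integral_sub (μ := volume.restrict (Ioi 0)) (f := fun t => Ap k j p t)
      (g := fun t => Ap k j q t) (hint p hp1) (hint q hq1)
    rw [e3, e4, ← (Dr_eq k j (p - q)).1]
    rfl
  show ‖Lr p k j - Lr q k j - Dr k j (p - q)‖ ≤ c * ‖p - q‖
  rw [e1]
  calc _ ≤ ∫ t in Ioi (0 : ℝ), c / (C + 1) * ‖p - q‖ * (t ^ (j : ℕ) * J t * mm t) := by
        refine norm_integral_le_of_norm_le (hmi.const_mul _) ?_
        refine (ae_restrict_mem measurableSet_Ioi).mono fun t ht => ?_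
        have ht' : 0 < t := ht
        have hJ := J_pos t
        obtain ⟨a1, a2⟩ := hb p hp2 hp3 t ht'
        obtain ⟨b1, b2⟩ := hb q hq2 hq3 t ht'
        rw [Ap_eq k j p t a2, Ap_eq k j q t b2]
        have e2 : rho k ^ ((j : ℕ) + 1) * ((t ^ (j : ℕ) * J t : ℝ) : ℂ) * Fu (ell k t p) -
            rho k ^ ((j : ℕ) + 1) * ((t ^ (j : ℕ) * J t : ℝ) : ℂ) * Fu (ell k t q) -
            -(1 / 2) * (rho k ^ ((j : ℕ) + 1) *
              ((t ^ (j : ℕ) * J t : ℝ) : ℂ) * ell k t (p - q)) =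
            rho k ^ ((j : ℕ) + 1) * ((t ^ (j : ℕ) * J t : ℝ) : ℂ) *
              (Fu (ell k t p) - Fu (ell k t q) + (ell k t p - ell k t q) / 2) := by
          rw [← ell_sub]
          ring
        rw [e2, norm_mul, norm_mul, norm_pow, norm_rho, one_pow, one_mul, Complex.norm_real,
          Real.norm_of_nonneg (by positivity)]
        have h3 := hF _ _ a1 b1
        rw [ell_sub] at h3 ⊢
        have h4 := norm_ell k t ht' (p - q)
        have h5 : 0 ≤ c / (C + 1) := by positivity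
        calc t ^ (j : ℕ) * J t * ‖Fu (ell k t p) - Fu (ell k t q) + ell k t (p - q) / 2‖
            ≤ t ^ (j : ℕ) * J t * (c / (C + 1) * (‖p - q‖ * mm t)) := by
              refine mul_le_mul_of_nonneg_left (h3.trans ?_) (by positivity)
              exact mul_le_mul_of_nonneg_left h4 h5
          _ = _ := by ring
    _ = c / (C + 1) * ‖p - q‖ * C := by rw [integral_const_mul, ← hC]
    _ = c * ‖p - q‖ * (C / (C + 1)) := by ring
    _ ≤ c * ‖p - q‖ * 1 := by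
        gcongr
        rw [div_le_one (by positivity)]
        linarith
    _ = c * ‖p - q‖ := mul_one _

end Pool.Agent.J4.H67.AS.NStrict
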