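import Pool.Agent.J4.H67.AS.Defs
set_option autoImplicit false

/-!
Explicit `2 × 2` matrices: the periods of `y ^ 2 = 1 - x ^ 6`.
-/

namespace Pool.Agent.J4.H67.AS.NTransfer

open MeasureTheory Set
open scoped ComplexConjugate Topology

/-- value of `Lr` at `0` (piece Strict: `Lr_zero`) -/
noncomputable def L0 (k : Fin 6) (j : Fin 2) : ℂ := rho k ^ ((j : ℕ) + 1) * el

theorem zt_sq : zt ^ 2 = zt - 1 := by
  have h3 : Real.sqrt 3 * Real.sqrt 3 = 3 := Real.mul_self_sqrt (by norm_num)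
  apply Complex.ext
  · simp [zt, pow_two, Complex.mul_re]; linarith
  · simp [zt, pow_two, Complex.mul_im]; linarith

theorem w0_sq : w0 ^ 2 = zt := by
  have h3 : Real.sqrt 3 * Real.sqrt 3 = 3 := Real.mul_self_sqrt (by norm_num)
  apply Complex.ext
  · simp [zt, w0, pow_two, Complex.mul_re]; linarith
  · simp [zt, w0, pow_two, Complex.mul_im]; linarith

theorem conj_zt : conj zt = 1 - zt := by
  apply Complex.ext
  · simp [zt]; norm_num
  · simp [zt]

theorem conj_w0 : conj w0 * w0 = 1 := by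
  have h3 : Real.sqrt 3 * Real.sqrt 3 = 3 := Real.mul_self_sqrt (by norm_num)
  apply Complex.ext
  · simp [w0, Complex.mul_re]; linarith
  · simp [w0, Complex.mul_im]; ring

theorem T0_eq : T0 = !![zt - 1 / 2, 1 / 2; 1 / 2, zt - 1 / 2] := by
  ext i j
  fin_cases i <;> fin_cases j
  · apply Complex.ext <;> simp [T0, zt]
  · simp [T0]
  · simp [T0]
  · apply Complex.ext <;> simp [T0, zt]

/-- the scalar factor -/
noncomputable def al : ℂ := el * w0 * (1 - 2 * zt)

theorem Pm_L0 : Pm L0 = al • !![1, 1; w0, -w0] := by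
  have h1 := zt_sq
  have h3 : zt ^ 4 = -zt := by linear_combination (zt ^ 2 + zt) * h1
  have h2 : zt ^ 5 = 1 - zt := by linear_combination zt * h3 - h1
  ext i j
  fin_cases i <;> fin_cases j <;> simp [Pm, L0, rho, zk, al, mul_pow]
  · linear_combination el * w0 * h2
  · linear_combination el * w0 * (h3 - h1)
  · linear_combination el * w0 ^ 2 * ((zt ^ 5 + 1 - zt) * h2 )
  · linear_combination el * w0 ^ 2 * ((zt ^ 4 - zt) * h3 + h1 - h3)

theorem Qm_L0 : Qm L0 = Pm L0 * T0 := by
  rw [Pm_L0, T0_eq]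
  have h1 := zt_sq
  have h3 : zt ^ 3 = -1 := by linear_combination (zt + 1) * h1
  have h5 : zt ^ 5 = 1 - zt := by linear_combination zt ^ 2 * h3 - h1
  ext i j
  fin_cases i <;> fin_cases j <;>
    simp [Qm, L0, rho, zk, al, mul_pow, Matrix.mul_apply, Fin.sum_univ_two]
  · linear_combination el * w0 * h1
  · linear_combination el * w0 * (2 * h1 - h3 + h5)
  · linear_combination el * w0 ^ 2 * (2 * h1 - zt * h3)
  · linear_combination el * w0 ^ 2 * (-h1 - (zt ^ 3 - 1) * h3 + (zt ^ 5 + 1 - zt) * h5)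

theorem al_conj : conj al * al = 3 * (el : ℂ) ^ 2 := by
  have h1 := zt_sq
  have h2 := conj_w0
  have h3 : conj al = el * conj w0 * (2 * zt - 1) := by
    simp only [al, map_mul, map_sub, map_one, Complex.conj_ofReal, conj_zt, map_ofNat]
    ring
  rw [h3, al]
  linear_combination (-(el : ℂ) ^ 2 * (2 * zt - 1) ^ 2) * h2 - 4 * (el : ℂ) ^ 2 * h1

theorem w0_ne : w0 ≠ 0 := by
  intro h
  have := conj_w0
  rw [h, mul_zero] at this
  exact zero_ne_one this

theorem al_ne (hpos : 0 < el) : al ≠ 0 := by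
  intro h
  have h1 := al_conj
  rw [h, mul_zero] at h1
  have h2 : (el : ℂ) ≠ 0 := by exact_mod_cast hpos.ne'
  exact mul_ne_zero three_ne_zero (pow_ne_zero 2 h2) h1.symm

theorem Pm_inv (hpos : 0 < el) : (Pm L0)⁻¹ = (1 / (2 * al)) • !![1, conj w0; 1, -conj w0] := by
  refine Matrix.inv_eq_right_inv ?_
  have h1 := conj_w0
  have h2 := al_ne hpos
  rw [Pm_L0, Matrix.smul_mul, Matrix.mul_smul, smul_smul]
  ext i j
  fin_cases i <;> fin_cases j <;> simp
  · field_simp; norm_num
  · field_simp; linear_combination 2 * h1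

theorem transfer (hpos : 0 < el) (X : Matrix (Fin 2) (Fin 2) ℂ) (hX : X.IsHermitian) :
    IsUnit (Pm L0).det ∧ ((X 0 0 ≠ X 1 1 ∨ (X 0 1).im ≠ 0) → (((Pm L0)⁻¹).conjTranspose * X * (Pm L0)⁻¹) 0 1 ≠ 0) ∧
      ∃ c : ℝ, 0 < c ∧ ((Pm L0)⁻¹).conjTranspose * (Pm L0)⁻¹ = (c : ℂ) • 1 := by
  have h1 := conj_w0
  have h2 := al_ne hpos
  have h3 := al_conj
  have hc : conj al ≠ 0 := (map_ne_zero _).2 h2
  have hc2 : (starRingEnd ℂ) 2 = 2 := map_ofNat _ 2
  refine ⟨?_, fun hX2 => ?_, 1 / (6 * el ^ 2), by positivity, ?_⟩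
  · rw [Pm_L0, isUnit_iff_ne_zero, Matrix.det_smul, Matrix.det_fin_two]
    simp only [Matrix.of_apply, Matrix.cons_val', Matrix.cons_val_zero, Matrix.cons_val_one,
      Matrix.cons_val_fin_one, Fintype.card_fin]
    refine mul_ne_zero (pow_ne_zero _ h2) ?_
    intro h0
    apply w0_ne
    linear_combination -h0 / 2
  · rw [Pm_inv hpos]
    have h10 : X 1 0 = conj (X 0 1) := (hX.apply 1 0).symm
    have e : ((((1 / (2 * al)) • !![1, conj w0; 1, -conj w0]).conjTranspose * X *
        ((1 / (2 * al)) • !![1, conj w0; 1, -conj w0])) 0 1 : ℂ) =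
        conj w0 / (4 * (conj al * al)) * (X 0 0 - X 1 1 - (X 0 1 - conj (X 0 1))) := by
      simp [Matrix.mul_apply, Fin.sum_univ_two, Matrix.conjTranspose_apply, h10, hc2]
      field_simp
      ring
    rw [e]
    refine mul_ne_zero (div_ne_zero ((map_ne_zero _).2 w0_ne) (mul_ne_zero (by norm_num) (mul_ne_zero hc h2))) ?_
    intro h0
    have r0 : (X 0 0).im = 0 := by
      have := hX.apply 0 0
      exact Complex.conj_eq_iff_im.1 this
    have r1 : (X 1 1).im = 0 := by
      have := hX.apply 1 1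
      exact Complex.conj_eq_iff_im.1 this
    have i0 := congrArg Complex.im h0
    have i1 := congrArg Complex.re h0
    simp at i0 i1
    rcases hX2 with h5 | h5
    · exact h5 (Complex.ext (by linarith) (by rw [r0, r1]))
    · apply h5
      linarith
  · rw [Pm_inv hpos]
    have h6 : (((1 / (6 * el ^ 2) : ℝ)) : ℂ) = 1 / (2 * (conj al * al)) := by
      rw [h3]
      push_cast
      ring
    rw [h6]
    ext i j
    fin_cases i <;> fin_cases j <;>
      simp [Matrix.mul_apply, Fin.sum_univ_two, Matrix.conjTranspose_apply, hc2]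
    · field_simp; norm_num
    · field_simp; linear_combination 2 * h1

end Pool.Agent.J4.H67.AS.NTransfer
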