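import Pool.Agent.J4.H67.AS.Cycle
import Pool.Agent.J4.H67.AS.RiemRel
import Pool.Agent.J4.H67.AS.Base67
import Pool.Agent.J4.H67.AS.Open
import Pool.Agent.J4.H67.AS.Map
import Pool.Agent.J4.H67.AS.LrLa
import Pool.Agent.J4.H67.AS.Dual
import Pool.Agent.J4.H67.AS.Transfer
import Pool.Agent.J4.H67.AS.Lattice
import Pool.Agent.J4.H67.AS.Approx
import Pool.Agent.J4.H67.AS.Roots
import Pool.Agent.J4.H67.AS.Strict
set_option autoImplicit false

/-!
Assembly.
-/

namespace Pool.Agent.J4.H67.AS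

open MeasureTheory Set Filter
open scoped ComplexConjugate Topology

/-! ### periods -/

lemma hper_of {a : Fin 6 → ℂ} (ha : Near a) (hne : ∀ k j, La a k j ≠ La a (k + 1) j) {Λ : AddSubgroup (Fin 2 → ℂ)}
    (M : Matrix (Fin 2) (Fin 2) ℂ) (hP : ∀ c, (fun r => (M * Pm (La a)) r c) ∈ Λ) (hQ : ∀ c, (fun r => (M * Qm (La a)) r c) ∈ Λ)
    (k l : Fin 6) : M.mulVec (fun j => 2 * (ga a k j 0 - ga a l j 0)) ∈ Λ := by
  have hh : ∀ k j, 2 * ga a (k + 1) j 0 = -(La a k j + La a (k + 1) j) := fun k j => half ha k j (hne k j)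
  have f1 : (0 : Fin 6) + 1 = 1 := rfl
  have f2 : (1 : Fin 6) + 1 = 2 := rfl
  have f3 : (2 : Fin 6) + 1 = 3 := rfl
  have f4 : (3 : Fin 6) + 1 = 4 := rfl
  have f5 : (4 : Fin 6) + 1 = 5 := rfl
  have f6 : (5 : Fin 6) + 1 = 0 := rfl
  have h0 := hh 5
  have h1 := hh 0
  have h2 := hh 1
  have h3 := hh 2
  have h4 := hh 3
  have h5 := hh 4
  rw [f1] at h1
  rw [f2] at h2
  rw [f3] at h3
  rw [f4] at h4
  rw [f5] at h5
  rw [f6] at h0
  have P0 := hP 0
  have P1 := hP 1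
  have Q0 := hQ 0
  have Q1 := hQ 1
  have key : ∀ k, M.mulVec (fun j => 2 * (ga a k j 0 - ga a 0 j 0)) ∈ Λ := by
    intro k
    fin_cases k
    · have e : M.mulVec (fun j => 2 * (ga a 0 j 0 - ga a 0 j 0)) = 0 := by
        simp only [sub_self, mul_zero]
        exact Matrix.mulVec_zero M
      show M.mulVec (fun j => 2 * (ga a 0 j 0 - ga a 0 j 0)) ∈ Λ
      rw [e]
      exact Λ.zero_mem
    · show M.mulVec (fun j => 2 * (ga a 1 j 0 - ga a 0 j 0)) ∈ Λ
      convert P0 using 1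
      ext r
      simp only [Matrix.mulVec, dotProduct, Fin.sum_univ_two, Matrix.mul_apply, Pm, Matrix.of_apply, Matrix.cons_val_zero,
        Matrix.cons_val_one, Matrix.cons_val', Matrix.cons_val_fin_one]
      linear_combination M r 0 * (h1 0 - h0 0) + M r 1 * (h1 1 - h0 1)
    · show M.mulVec (fun j => 2 * (ga a 2 j 0 - ga a 0 j 0)) ∈ Λ
      convert Λ.add_mem P0 Q0 using 1
      ext r
      simp only [Matrix.mulVec, dotProduct, Fin.sum_univ_two, Matrix.mul_apply, Pm, Qm, Matrix.of_apply, Matrix.cons_val_zero,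
        Matrix.cons_val_one, Matrix.cons_val', Matrix.cons_val_fin_one, Pi.add_apply]
      linear_combination M r 0 * (h2 0 - h0 0) + M r 1 * (h2 1 - h0 1)
    · show M.mulVec (fun j => 2 * (ga a 3 j 0 - ga a 0 j 0)) ∈ Λ
      convert Λ.add_mem Q1 Q0 using 1
      ext r
      simp only [Matrix.mulVec, dotProduct, Fin.sum_univ_two, Matrix.mul_apply, Pm, Qm, Matrix.of_apply, Matrix.cons_val_zero,
        Matrix.cons_val_one, Matrix.cons_val', Matrix.cons_val_fin_one, Pi.add_apply]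
      linear_combination M r 0 * (h3 0 - h0 0) + M r 1 * (h3 1 - h0 1)
    · show M.mulVec (fun j => 2 * (ga a 4 j 0 - ga a 0 j 0)) ∈ Λ
      convert Λ.sub_mem (Λ.add_mem Q1 Q0) P1 using 1
      ext r
      simp only [Matrix.mulVec, dotProduct, Fin.sum_univ_two, Matrix.mul_apply, Pm, Qm, Matrix.of_apply, Matrix.cons_val_zero,
        Matrix.cons_val_one, Matrix.cons_val', Matrix.cons_val_fin_one, Pi.add_apply, Pi.sub_apply]
      linear_combination M r 0 * (h4 0 - h0 0) + M r 1 * (h4 1 - h0 1)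
    · show M.mulVec (fun j => 2 * (ga a 5 j 0 - ga a 0 j 0)) ∈ Λ
      convert Λ.sub_mem Q0 P1 using 1
      ext r
      simp only [Matrix.mulVec, dotProduct, Fin.sum_univ_two, Matrix.mul_apply, Pm, Qm, Matrix.of_apply, Matrix.cons_val_zero,
        Matrix.cons_val_one, Matrix.cons_val', Matrix.cons_val_fin_one, Pi.add_apply, Pi.sub_apply]
      linear_combination M r 0 * (h5 0 - h0 0) + M r 1 * (h5 1 - h0 1)
  have e : M.mulVec (fun j => 2 * (ga a k j 0 - ga a l j 0)) =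
      M.mulVec (fun j => 2 * (ga a k j 0 - ga a 0 j 0)) - M.mulVec (fun j => 2 * (ga a l j 0 - ga a 0 j 0)) := by
    rw [← Matrix.mulVec_sub]
    congr 1
    ext j
    simp only [Pi.sub_apply]
    ring
  rw [e]
  exact Λ.sub_mem (key k) (key l)

/-! ### small parameters -/

lemma zt_pow_ne (j : Fin 2) : zt ^ ((j : ℕ) + 1) ≠ 1 := by
  intro h
  have hj : (j : ℕ) = 0 ∨ (j : ℕ) = 1 := by omega
  rcases hj with hj | hj <;> rw [hj] at h
  · rw [zero_add, pow_one] at h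
    have := congrArg Complex.re h
    simp [zt] at this
  · rw [show 1 + 1 = 2 from rfl, zt2] at h
    have := congrArg Complex.re h
    simp at this
    norm_num at this

lemma Lr_zero_ne (k : Fin 6) (j : Fin 2) : Lr 0 k j ≠ Lr 0 (k + 1) j := by
  rw [NStrict.Lr_zero, NStrict.Lr_zero, rho_succ, mul_pow]
  intro h
  have h1 : (el : ℂ) ≠ 0 := by exact_mod_cast NStrict.el_pos.ne'
  have h2 := mul_right_cancel₀ h1 h
  have h3 := pow_ne_zero ((j : ℕ) + 1) (rho_ne k)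
  have h4 : 1 * rho k ^ ((j : ℕ) + 1) = zt ^ ((j : ℕ) + 1) * rho k ^ ((j : ℕ) + 1) := by rw [one_mul]; exact h2
  exact zt_pow_ne j (mul_right_cancel₀ h3 h4).symm

lemma Lr_continuousAt (k : Fin 6) (j : Fin 2) : ContinuousAt (fun p => Lr p k j) 0 :=
  (NStrict.Lr_strict k j).continuousAt

lemma eventually_ne : ∀ᶠ p in 𝓝 (0 : Fin 3 → ℂ), ∀ k j, Lr p k j ≠ Lr p (k + 1) j := by
  rw [eventually_all]
  intro k
  rw [eventually_all]
  intro j
  have h := (Lr_continuousAt k j).sub (Lr_continuousAt (k + 1) j)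
  have h2 := h.eventually_ne (sub_ne_zero.2 (Lr_zero_ne k j))
  filter_upwards [h2] with p hp
  exact sub_ne_zero.1 hp

/-- good roots for small parameters -/
lemma eventually_roots (η : ℝ) (hη : 0 < η) : ∀ᶠ p in 𝓝 (0 : Fin 3 → ℂ), ∃ a : Fin 6 → ℂ, (∀ k, ‖a k - zk k‖ < η) ∧
    Near a ∧ Lr p = La a ∧ ∀ k j, La a k j ≠ La a (k + 1) j := by
  obtain ⟨δ, hδ, h⟩ := NRoots.exists_roots (min η (1 / 50)) (lt_min hη (by norm_num))
  have h1 : ∀ᶠ p in 𝓝 (0 : Fin 3 → ℂ), ‖p‖ < δ := by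
    have := Metric.ball_mem_nhds (0 : Fin 3 → ℂ) hδ
    filter_upwards [this] with p hp
    simpa using hp
  have h2 : ∀ᶠ p in 𝓝 (0 : Fin 3 → ℂ), ‖p‖ < 1 / 10 := by
    have := Metric.ball_mem_nhds (0 : Fin 3 → ℂ) (show (0 : ℝ) < 1 / 10 by norm_num)
    filter_upwards [this] with p hp
    simpa using hp
  filter_upwards [h1, h2, eventually_ne] with p hp1 hp2 hp3
  obtain ⟨a, ha, hP⟩ := h p hp1
  have hn : Near a := fun k => (ha k).le.trans (min_le_right _ _)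
  have hL : Lr p = La a := by
    funext k j
    exact NLrLa.Lr_eq_La hn hp2.le hP k j
  refine ⟨a, fun k => (ha k).trans_le (min_le_left _ _), hn, hL, ?_⟩
  intro k j
  rw [← hL]
  exact hp3 k j

lemma eventually_riem : ∀ᶠ p in 𝓝 (0 : Fin 3 → ℂ), Riem (Lr p) := by
  filter_upwards [eventually_roots 1 one_pos] with p hp
  obtain ⟨a, -, hn, hL, hne⟩ := hp
  rw [hL]
  exact riem hn fun k => hne k 0

lemma Lr_zero_eq : Lr 0 = NTransfer.L0 := by
  funext k j
  exact NStrict.Lr_zero k j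

/-! ### the functional -/

/-- the transformation matrix -/
noncomputable def Mt (R : Matrix (Fin 2) (Fin 2) ℂ) (p : Fin 3 → ℂ) (v : Fin 2 → Fin 2 → ℝ) : Matrix (Fin 2) (Fin 2) ℂ :=
  R * (Matrix.of v).map Complex.ofReal * (Pm (Lr p))⁻¹

lemma Pm_continuousAt : ContinuousAt (fun p => Pm (Lr p)) (0 : Fin 3 → ℂ) := by
  have h : ∀ k j, ContinuousAt (fun p => Lr p k j) (0 : Fin 3 → ℂ) := Lr_continuousAt
  apply continuousAt_pi.2
  intro i
  apply continuousAt_pi.2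
  intro j
  fin_cases i <;> fin_cases j <;> simp [Pm] <;> exact (h _ _).sub (h _ _)

lemma inv_continuousAt {A : Matrix (Fin 2) (Fin 2) ℂ} (hA : IsUnit A.det) :
    ContinuousAt (fun A : Matrix (Fin 2) (Fin 2) ℂ => A⁻¹) A := by
  have h1 : ContinuousAt (fun A : Matrix (Fin 2) (Fin 2) ℂ => (A.det)⁻¹ • A.adjugate) A :=
    ContinuousAt.smul (ContinuousAt.inv₀ (Continuous.matrix_det continuous_id).continuousAt hA.ne_zero)
      (Continuous.matrix_adjugate continuous_id).continuousAt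
  refine h1.congr (Eventually.of_forall fun B => ?_)
  simp only [Matrix.inv_def, Ring.inverse_eq_inv']

lemma Mt_continuousAt (R : Matrix (Fin 2) (Fin 2) ℂ) (v : Fin 2 → Fin 2 → ℝ) :
    ContinuousAt (fun q : (Fin 3 → ℂ) × (Fin 2 → Fin 2 → ℝ) => Mt R q.1 q.2) (0, v) := by
  have hdet : IsUnit (Pm (Lr 0)).det := by
    rw [Lr_zero_eq]
    exact (NTransfer.transfer NStrict.el_pos 0 (by simp)).1
  have h0 : ContinuousAt (fun q : (Fin 3 → ℂ) × (Fin 2 → Fin 2 → ℝ) => Pm (Lr q.1)) (0, v) :=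
    Tendsto.comp (g := fun p => Pm (Lr p)) (y := 𝓝 0) Pm_continuousAt continuousAt_fst
  have h1 : ContinuousAt (fun q : (Fin 3 → ℂ) × (Fin 2 → Fin 2 → ℝ) => (Pm (Lr q.1))⁻¹) (0, v) :=
    Tendsto.comp (g := fun A : Matrix (Fin 2) (Fin 2) ℂ => A⁻¹) (inv_continuousAt hdet) h0
  have h2 : Continuous (fun q : (Fin 3 → ℂ) × (Fin 2 → Fin 2 → ℝ) => R * (Matrix.of q.2).map Complex.ofReal) := by
    apply Continuous.matrix_mul continuous_const
    apply continuous_pi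
    intro i
    apply continuous_pi
    intro j
    simp only [Matrix.map_apply, Matrix.of_apply]
    fun_prop
  exact h2.continuousAt.mul h1

/-- the pairing with a hermitian form -/
noncomputable def Ps (H : Matrix (Fin 2) (Fin 2) ℂ) (M W : Matrix (Fin 2) (Fin 2) ℂ) : ℂ :=
  (M.conjTranspose * H * M * W).trace

lemma Ps_cont (H : Matrix (Fin 2) (Fin 2) ℂ) : Continuous (fun q : Matrix (Fin 2) (Fin 2) ℂ × Matrix (Fin 2) (Fin 2) ℂ => Ps H q.1 q.2) := by
  unfold Ps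
  apply Continuous.matrix_trace
  apply Continuous.matrix_mul _ continuous_snd
  apply Continuous.matrix_mul _ continuous_fst
  apply Continuous.matrix_mul _ continuous_const
  exact Continuous.matrix_conjTranspose continuous_fst

lemma Ps_continuousAt (H R : Matrix (Fin 2) (Fin 2) ℂ) (v : Fin 2 → Fin 2 → ℝ)
    (W : (Fin 6 → ℂ) → Matrix (Fin 2) (Fin 2) ℂ) (hW : ContinuousAt W zk) :
    ContinuousAt (fun q : ((Fin 3 → ℂ) × (Fin 2 → Fin 2 → ℝ)) × (Fin 6 → ℂ) => Ps H (Mt R q.1.1 q.1.2) (W q.2))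
      ((0, v), zk) := by
  have h1 : ContinuousAt (fun q : ((Fin 3 → ℂ) × (Fin 2 → Fin 2 → ℝ)) × (Fin 6 → ℂ) => Mt R q.1.1 q.1.2) ((0, v), zk) :=
    ContinuousAt.comp (f := fun q : ((Fin 3 → ℂ) × (Fin 2 → Fin 2 → ℝ)) × (Fin 6 → ℂ) => q.1) (x := ((0, v), zk))
      (g := fun q : (Fin 3 → ℂ) × (Fin 2 → Fin 2 → ℝ) => Mt R q.1 q.2) (Mt_continuousAt R v) continuousAt_fst
  have h2 : ContinuousAt (fun q : ((Fin 3 → ℂ) × (Fin 2 → Fin 2 → ℝ)) × (Fin 6 → ℂ) => W q.2) ((0, v), zk) :=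
    ContinuousAt.comp (f := fun q : ((Fin 3 → ℂ) × (Fin 2 → Fin 2 → ℝ)) × (Fin 6 → ℂ) => q.2) (x := ((0, v), zk))
      (g := W) hW continuousAt_snd
  exact ContinuousAt.comp (x := ((0, v), zk))
    (f := fun q : ((Fin 3 → ℂ) × (Fin 2 → Fin 2 → ℝ)) × (Fin 6 → ℂ) => (Mt R q.1.1 q.1.2, W q.2))
    (g := fun q : Matrix (Fin 2) (Fin 2) ℂ × Matrix (Fin 2) (Fin 2) ℂ => Ps H q.1 q.2)
    (Ps_cont H).continuousAt (h1.prodMk h2)

lemma trace_eq (H M W : Matrix (Fin 2) (Fin 2) ℂ) (c : ℂ) : (H * (c • (M * W * M.conjTranspose))).trace = c * Ps H M W := by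
  unfold Ps
  rw [Matrix.mul_smul, Matrix.trace_smul, smul_eq_mul]
  congr 1
  rw [show H * (M * W * M.conjTranspose) = (H * (M * W)) * M.conjTranspose by simp only [Matrix.mul_assoc],
    Matrix.trace_mul_comm]
  simp only [Matrix.mul_assoc]

/-- the two kinds of cycles, at the base point -/
lemma exists_kind (XC : Matrix (Fin 2) (Fin 2) ℂ) (hXC : XC.IsHermitian) (h : XC 0 1 ≠ 0 ∨ ∃ c : ℝ, c ≠ 0 ∧ XC = (c : ℂ) • 1) :
    ∃ (W : (Fin 6 → ℂ) → Matrix (Fin 2) (Fin 2) ℂ) (c : ℂ), c ≠ 0 ∧ ContinuousAt W zk ∧ (XC * W zk).trace ≠ 0 ∧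
      ∀ (a : Fin 6 → ℂ), Near a → ∀ (Λ : AddSubgroup (Fin 2 → ℂ)) (M : Matrix (Fin 2) (Fin 2) ℂ),
        (∀ k l, M.mulVec (fun j => 2 * (ga a k j 0 - ga a l j 0)) ∈ Λ) →
        ∃ l : List (CurveFn Λ), (l.map CurveFn.div).sum = 0 ∧
          (l.map CurveFn.reg).sum = c • (M * W a * M.conjTranspose) := by
  rcases h with h | ⟨c, hc, hX⟩
  · obtain ⟨i, hi⟩ := NB67.base_ne XC hXC h
    refine ⟨fun a => Um a i - Um a (i + 3), 4, by norm_num, ?_, hi, ?_⟩
    · have hU : ∀ i, ContinuousAt (fun a => Um a i) zk := by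
        intro i
        apply continuousAt_pi.2
        intro m
        apply continuousAt_pi.2
        intro n
        exact NCont.U_cont i m n
      exact (hU i).sub (hU (i + 3))
    · intro a ha Λ M hper
      exact exists_cycle ha M (fun i => NMap.exists_map ha (Pp a) (fun x => Pp_eval x) Λ M hper i) hper i (i + 3)
  · refine ⟨fun a => U0m a, 2, by norm_num, ?_, ?_, ?_⟩
    · apply continuousAt_pi.2
      intro m
      apply continuousAt_pi.2
      intro n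
      exact NCont.U0_cont m n
    · rw [hX]
      exact NB67.base0_ne c hc
    · intro a ha Λ M hper
      obtain ⟨u, hu, -⟩ := NMap.exists_map ha (Pp a) (fun x => Pp_eval x) Λ M hper 0
      exact exists_cycle0 ha M u hu

lemma map_ofReal_transpose (B : Matrix (Fin 2) (Fin 2) ℝ) :
    (B.map Complex.ofReal).transpose = (B.map Complex.ofReal).conjTranspose := by
  ext i j
  simp [Matrix.conjTranspose_apply]

lemma exists_int (A : Matrix (Fin 2) (Fin 2) ℚ) : ∃ D : ℕ, 0 < D ∧ ∀ E : ℕ, ∃ n : Matrix (Fin 2) (Fin 2) ℤ,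
    n.map (fun z : ℤ => (z : ℂ)) = ((D * E : ℕ) : ℂ) • A.map (fun q : ℚ => (q : ℂ)) := by
  refine ⟨∏ i, ∏ j, (A i j).den, ?_, ?_⟩
  · exact Finset.prod_pos fun i _ => Finset.prod_pos fun j _ => (A i j).den_pos
  · intro E
    have h : ∀ i j, ∃ n : ℤ, (n : ℂ) = (((∏ i, ∏ j, (A i j).den) * E : ℕ) : ℂ) * (A i j : ℂ) := by
      intro i j
      have hd : (A i j).den ∣ (∏ i, ∏ j, (A i j).den) :=
        (Finset.dvd_prod_of_mem (fun j => (A i j).den) (Finset.mem_univ j)).trans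
          (Finset.dvd_prod_of_mem (fun i => ∏ j, (A i j).den) (Finset.mem_univ i))
      obtain ⟨m, hm⟩ := hd
      refine ⟨m * E * (A i j).num, ?_⟩
      rw [hm]
      have h1 : (A i j : ℂ) * ((A i j).den : ℂ) = ((A i j).num : ℂ) := by
        have := Rat.mul_den_eq_num (A i j)
        exact_mod_cast this
      push_cast
      rw [← h1]
      ring
    choose n hn using h
    refine ⟨Matrix.of n, ?_⟩
    ext i j
    simp only [Matrix.map_apply, Matrix.of_apply, Matrix.smul_apply, smul_eq_mul]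
    exact hn i j

lemma mem_of_int {Λ : AddSubgroup (Fin 2 → ℂ)} (A : Matrix (Fin 2) (Fin 2) ℂ) (hA : ∀ j, (fun i => A i j) ∈ Λ)
    (n : Matrix (Fin 2) (Fin 2) ℤ) (c : Fin 2) : (fun i => (A * n.map (fun z : ℤ => (z : ℂ))) i c) ∈ Λ := by
  have e : (fun i => (A * n.map (fun z : ℤ => (z : ℂ))) i c) = n 0 c • (fun i => A i 0) + n 1 c • (fun i => A i 1) := by
    ext i
    simp only [Matrix.mul_apply, Fin.sum_univ_two, Matrix.map_apply, Pi.add_apply, Pi.smul_apply]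
    rw [zsmul_eq_mul, zsmul_eq_mul]
    ring
  rw [e]
  exact Λ.add_mem (Λ.zsmul_mem (hA 0) _) (Λ.zsmul_mem (hA 1) _)

/-- **The main step**: every nonzero hermitian form is detected by a cycle. -/
theorem core (Λ : AddSubgroup (Fin 2 → ℂ)) (hΛ : IsAbelian Λ) (H : Matrix (Fin 2) (Fin 2) ℂ) (hH : H.IsHermitian)
    (hH0 : H ≠ 0) :
    ∃ l : List (CurveFn Λ), (l.map CurveFn.div).sum = 0 ∧ (H * (l.map CurveFn.reg).sum).trace ≠ 0 := by
  obtain ⟨R, Sm, N, hN, hR, hRΛ, hSΛ, hsym, hpos⟩ := NLattice.exists_symplectic Λ hΛ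
  obtain ⟨Z, hZ⟩ : ∃ Z, Z = R⁻¹ * Sm := ⟨_, rfl⟩
  rw [← hZ] at hsym hpos
  have hSm : R * Z = Sm := by
    rw [hZ, ← Matrix.mul_assoc, Matrix.mul_nonsing_inv R hR, Matrix.one_mul]
  set NH := R.conjTranspose * H * R with hNH
  have hNHh : NH.IsHermitian := Matrix.isHermitian_conjTranspose_mul_mul R hH
  have hRinv : R * R⁻¹ = 1 := Matrix.mul_nonsing_inv R hR
  have hNH0 : NH ≠ 0 := by
    intro h
    apply hH0
    have h1 : (R⁻¹).conjTranspose * NH * R⁻¹ = H := by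
      rw [hNH]
      calc (R⁻¹).conjTranspose * (R.conjTranspose * H * R) * R⁻¹ = (R * R⁻¹).conjTranspose * H * (R * R⁻¹) := by
            rw [Matrix.conjTranspose_mul]; simp only [Matrix.mul_assoc]
        _ = H := by rw [hRinv]; simp
    rw [← h1, h]
    simp
  obtain ⟨B, hB, hBY, hX⟩ := NApprox.exists_good_B (Z.map Complex.im) hpos NH hNHh hNH0
  simp only at hX
  set Bc := B.map Complex.ofReal with hBc
  set X := Bc.transpose * NH * Bc with hXdef
  have hBct : Bc.transpose = Bc.conjTranspose := map_ofReal_transpose B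
  have hXh : X.IsHermitian := by
    rw [hXdef, hBct]
    exact Matrix.isHermitian_conjTranspose_mul_mul Bc hNHh
  obtain ⟨hP0, htr1, c0, hc0, htr2⟩ := NTransfer.transfer NStrict.el_pos X hXh
  set P0 := Pm NTransfer.L0 with hP0def
  set XC := (P0⁻¹).conjTranspose * X * P0⁻¹ with hXC
  have hXCh : XC.IsHermitian := Matrix.isHermitian_conjTranspose_mul_mul _ hXh
  have hkind : XC 0 1 ≠ 0 ∨ ∃ c : ℝ, c ≠ 0 ∧ XC = (c : ℂ) • 1 := by
    rcases hX with h | h | ⟨c, hc, h⟩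
    · exact Or.inl (htr1 (Or.inl h))
    · exact Or.inl (htr1 (Or.inr h))
    · right
      refine ⟨c * c0, mul_ne_zero hc hc0.ne', ?_⟩
      rw [hXC, h, Matrix.mul_smul, Matrix.mul_one, Matrix.smul_mul, htr2, smul_smul]
      push_cast
      rfl
  obtain ⟨W, c, hc, hWc, hW0, hW⟩ := exists_kind XC hXCh hkind
  -- continuity
  obtain ⟨v0, hv0⟩ : ∃ v0 : Fin 2 → Fin 2 → ℝ, Matrix.of v0 = B := ⟨fun i j => B i j, rfl⟩
  have hM0eq : Mt R 0 v0 = R * Bc * P0⁻¹ := by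
    unfold Mt
    rw [Lr_zero_eq, hv0]
  have hPs0 : Ps H (Mt R 0 v0) (W zk) ≠ 0 := by
    have e : (Mt R 0 v0).conjTranspose * H * Mt R 0 v0 = XC := by
      rw [hM0eq, hXC, hXdef, hNH, hBct]
      simp only [Matrix.conjTranspose_mul, Matrix.mul_assoc]
    unfold Ps
    rw [e]
    exact hW0
  have hcont : ContinuousAt (fun q : ((Fin 3 → ℂ) × (Fin 2 → Fin 2 → ℝ)) × (Fin 6 → ℂ) => Ps H (Mt R q.1.1 q.1.2) (W q.2))
      ((0, v0), zk) := Ps_continuousAt H R v0 W hWc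
  have hev := hcont.eventually_ne hPs0
  obtain ⟨δ, hδ, hball⟩ := Metric.eventually_nhds_iff_ball.1 hev
  have hv0' : ∀ i j, v0 i j = B i j := fun i j => by rw [← hv0]; rfl
  have hmain : ∀ (p : Fin 3 → ℂ) (v : Fin 2 → Fin 2 → ℝ) (a : Fin 6 → ℂ), ‖p‖ < δ → (∀ i j, |v i j - B i j| < δ) →
      (∀ k, ‖a k - zk k‖ < δ) → Ps H (Mt R p v) (W a) ≠ 0 := by
    intro p v a hp hv ha
    apply hball ((p, v), a)
    rw [Metric.mem_ball, Prod.dist_eq, Prod.dist_eq]
    refine max_lt (max_lt ?_ ?_) ?_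
    · simpa using hp
    · rw [dist_pi_lt_iff hδ]
      intro i
      rw [dist_pi_lt_iff hδ]
      intro j
      rw [Real.dist_eq]
      have h := hv i j
      rw [← hv0'] at h
      exact h
    · rw [dist_pi_lt_iff hδ]
      intro k
      rw [dist_eq_norm]
      exact ha k
  obtain ⟨δ', hδ', hroots⟩ := Metric.eventually_nhds_iff_ball.1 (eventually_roots δ hδ)
  obtain ⟨η, hη, hopen⟩ := NOpen.open_map NStrict.el_pos NStrict.Bs_pos NStrict.Lr_zero NStrict.Lr_strict eventually_riem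
    (min δ δ') (lt_min hδ hδ')
  obtain ⟨B', S', hB', hS', hBB, hT⟩ := NApprox.exists_rational Z hsym B hB hBY (min δ η) (lt_min hδ hη)
  set Bq := B'.map (fun q : ℚ => (q : ℂ)) with hBq
  set Sq := S'.map (fun q : ℚ => (q : ℂ)) with hSq
  set T := Sq + Bq⁻¹ * Z * (Bq⁻¹).transpose with hTdef
  have hTsym : T.IsSymm := by
    rw [hTdef]
    have h1 : Sq.IsSymm := by
      rw [Matrix.IsSymm, hSq, ← Matrix.transpose_map, hS'.eq]
    apply h1.add
    rw [Matrix.IsSymm, Matrix.transpose_mul, Matrix.transpose_mul, Matrix.transpose_transpose, hsym.eq, Matrix.mul_assoc]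
  obtain ⟨p, hp, hPdet, hQ⟩ := hopen T hTsym fun i j => (hT i j).trans_le (min_le_right _ _)
  obtain ⟨a, haδ, hn, hLa, hne⟩ := hroots p (by simpa using hp.trans_le (min_le_right _ _))
  set v : Fin 2 → Fin 2 → ℝ := fun i j => (B' i j : ℝ) with hv
  have hfin := hmain p v a (hp.trans_le (min_le_left _ _)) (fun i j => (hBB i j).trans_le (min_le_left _ _)) haδ
  have hvB : (Matrix.of v).map Complex.ofReal = Bq := by
    ext i j
    simp [hv, hBq]
  have hBqdet : IsUnit Bq.det := by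
    have h1 : Bq.det = ((B'.det : ℚ) : ℂ) := by
      have := (algebraMap ℚ ℂ).map_det B'
      simp only [eq_ratCast] at this
      rw [this]
      rfl
    rw [h1, isUnit_iff_ne_zero]
    exact_mod_cast hB'
  set M1 := Mt R p v with hM1
  have hM1P : M1 * Pm (Lr p) = R * Bq := by
    rw [hM1, Mt, hvB, Matrix.mul_assoc, Matrix.nonsing_inv_mul _ hPdet, Matrix.mul_one]
  have hM1Q : M1 * Qm (Lr p) = R * (Bq * Sq) + Sm * (Bq⁻¹).transpose := by
    rw [hQ, ← Matrix.mul_assoc, hM1P, hTdef, Matrix.mul_add, ← hSm]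
    congr 1
    · rw [Matrix.mul_assoc]
    · calc R * Bq * (Bq⁻¹ * Z * (Bq⁻¹).transpose) = R * ((Bq * Bq⁻¹) * Z) * (Bq⁻¹).transpose := by
            simp only [Matrix.mul_assoc]
        _ = _ := by rw [Matrix.mul_nonsing_inv _ hBqdet, Matrix.one_mul]
  -- denominators
  have hBqinv : Bq⁻¹ = (B'⁻¹).map (fun q : ℚ => (q : ℂ)) := by
    apply Matrix.inv_eq_right_inv
    have h1 : B' * B'⁻¹ = 1 := Matrix.mul_nonsing_inv _ (isUnit_iff_ne_zero.2 hB')
    have h2 := congrArg (fun A : Matrix (Fin 2) (Fin 2) ℚ => A.map (Rat.castHom ℂ)) h1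
    simp only [Matrix.map_mul, Matrix.map_one _ (map_zero (Rat.castHom ℂ)) (map_one (Rat.castHom ℂ))] at h2
    exact h2
  have hBSq : Bq * Sq = (B' * S').map (fun q : ℚ => (q : ℂ)) := by
    have h2 : (B' * S').map (Rat.castHom ℂ) = B'.map (Rat.castHom ℂ) * S'.map (Rat.castHom ℂ) := Matrix.map_mul
    exact h2.symm
  obtain ⟨D1, hD1, h1⟩ := exists_int B'
  obtain ⟨D2, hD2, h2⟩ := exists_int (B' * S')
  obtain ⟨D3, hD3, h3⟩ := exists_int (B'⁻¹.transpose)
  obtain ⟨n1, hn1⟩ := h1 (D2 * D3 * N)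
  obtain ⟨n2, hn2⟩ := h2 (D1 * D3 * N)
  obtain ⟨n3, hn3⟩ := h3 (D1 * D2)
  set D : ℕ := D1 * D2 * D3 * N with hD
  have hD0 : (D : ℂ) ≠ 0 := by
    have : 0 < D := by positivity
    exact_mod_cast this.ne'
  set M := (D : ℂ) • M1 with hM
  have hMP : M * Pm (La a) = R * n1.map (fun z : ℤ => (z : ℂ)) := by
    rw [← hLa, hM, Matrix.smul_mul, hM1P, hn1, Matrix.mul_smul, hD]
    congr 1
    push_cast
    ring
  have hMQ : M * Qm (La a) = R * n2.map (fun z : ℤ => (z : ℂ)) + ((N : ℂ) • Sm) * n3.map (fun z : ℤ => (z : ℂ)) := by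
    rw [← hLa, hM, Matrix.smul_mul, hM1Q, hn2, hn3, Matrix.mul_smul, Matrix.mul_smul, Matrix.smul_mul, smul_smul, smul_add,
      hBSq, hBqinv, Matrix.transpose_map, hD]
    congr 2
    · push_cast
      ring
    · push_cast
      ring
  have hPΛ : ∀ c, (fun r => (M * Pm (La a)) r c) ∈ Λ := by
    intro c
    rw [hMP]
    exact mem_of_int R hRΛ n1 c
  have hQΛ : ∀ c, (fun r => (M * Qm (La a)) r c) ∈ Λ := by
    intro c
    rw [hMQ]
    exact Λ.add_mem (mem_of_int R hRΛ n2 c) (mem_of_int ((N : ℂ) • Sm) (fun j => by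
      simpa only [Matrix.smul_apply, smul_eq_mul] using hSΛ j) n3 c)
  obtain ⟨l, hl1, hl2⟩ := hW a hn Λ M (hper_of hn hne M hPΛ hQΛ)
  refine ⟨l, hl1, ?_⟩
  rw [hl2, trace_eq]
  apply mul_ne_zero hc
  have e : Ps H M (W a) = (D : ℂ) ^ 2 * Ps H M1 (W a) := by
    unfold Ps
    rw [hM, Matrix.conjTranspose_smul, RCLike.star_def, map_natCast]
    simp only [Matrix.smul_mul, Matrix.mul_smul, smul_smul, Matrix.trace_smul, smul_eq_mul]
    ring
  rw [e]
  exact mul_ne_zero (pow_ne_zero 2 hD0) hfin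

/-- **Density.** -/
theorem density (Λ : AddSubgroup (Fin 2 → ℂ)) (hΛ : IsAbelian Λ) :
    closure (Submodule.span ℚ {R : Matrix (Fin 2) (Fin 2) ℂ | ∃ l : List (CurveFn Λ), (l.map CurveFn.div).sum = 0 ∧
      R = (l.map CurveFn.reg).sum} : Set (Matrix (Fin 2) (Fin 2) ℂ)) = {R | R.IsHermitian} := by
  apply NDual.dense_of_pairing
  · rintro R ⟨l, -, rfl⟩
    exact sum_hermitian l
  · intro H hH hH0
    obtain ⟨l, hl1, hl2⟩ := core Λ hΛ H hH hH0
    exact ⟨_, ⟨l, hl1, rfl⟩, hl2⟩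

end Pool.Agent.J4.H67.AS
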