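import Pool.Agent.J4.H67.AS.Defs
set_option autoImplicit false

/-!
Elementary geometry of the sectors `S k`.
-/

namespace Pool.Agent.J4.H67.AS

open Set

lemma sqrt3_sq : Real.sqrt 3 * Real.sqrt 3 = 3 := Real.mul_self_sqrt (by norm_num)
lemma sqrt3_gt : 17 / 10 < Real.sqrt 3 := by
  rw [show (17 / 10 : ℝ) = Real.sqrt ((17 / 10) ^ 2) by rw [Real.sqrt_sq (by norm_num)]]
  exact Real.sqrt_lt_sqrt (by norm_num) (by norm_num)
lemma sqrt3_lt : Real.sqrt 3 < 7 / 4 := by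
  rw [show (7 / 4 : ℝ) = Real.sqrt ((7 / 4) ^ 2) by rw [Real.sqrt_sq (by norm_num)]]
  exact Real.sqrt_lt_sqrt (by norm_num) (by norm_num)
lemma sqrt3_gt' : 173 / 100 < Real.sqrt 3 := by
  rw [show (173 / 100 : ℝ) = Real.sqrt ((173 / 100) ^ 2) by rw [Real.sqrt_sq (by norm_num)]]
  exact Real.sqrt_lt_sqrt (by norm_num) (by norm_num)

lemma zt2 : zt ^ 2 = ⟨-1 / 2, Real.sqrt 3 / 2⟩ := by
  rw [pow_two]
  apply Complex.ext <;> simp [zt]
  · nlinarith [sqrt3_sq]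
  · ring

lemma zt3 : zt ^ 3 = -1 := by
  rw [pow_succ, zt2]
  apply Complex.ext <;> simp [zt]
  · nlinarith [sqrt3_sq]
  · ring

lemma zt4 : zt ^ 4 = ⟨-1 / 2, -Real.sqrt 3 / 2⟩ := by
  rw [pow_succ, zt3]
  apply Complex.ext <;> simp [zt]
  · ring
  · ring

lemma zt5 : zt ^ 5 = ⟨1 / 2, -Real.sqrt 3 / 2⟩ := by
  rw [show zt ^ 5 = zt ^ 3 * zt ^ 2 by ring, zt3, zt2]
  apply Complex.ext <;> simp
  · ring
  · ring

lemma zt6 : zt ^ 6 = 1 := by
  rw [show zt ^ 6 = zt ^ 3 * zt ^ 3 by ring, zt3]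
  ring

lemma w0_sqr : w0 ^ 2 = zt := by
  rw [pow_two]
  apply Complex.ext <;> simp [w0, zt]
  · nlinarith [sqrt3_sq]
  · ring

lemma w0_six : w0 ^ 6 = -1 := by
  rw [show w0 ^ 6 = (w0 ^ 2) ^ 3 by ring, w0_sqr, zt3]

lemma norm_zt : ‖zt‖ = 1 := by
  have h : ‖zt‖ ^ 6 = 1 := by rw [← norm_pow, zt6, norm_one]
  exact (pow_eq_one_iff_of_nonneg (norm_nonneg _) (by norm_num)).1 h

lemma norm_w0 : ‖w0‖ = 1 := by
  have h : ‖w0‖ ^ 6 = 1 := by rw [← norm_pow, w0_six, norm_neg, norm_one]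
  exact (pow_eq_one_iff_of_nonneg (norm_nonneg _) (by norm_num)).1 h

lemma nrm_zk (k : Fin 6) : ‖zk k‖ = 1 := by rw [zk, norm_pow, norm_zt, one_pow]
lemma nrm_rho (k : Fin 6) : ‖rho k‖ = 1 := by rw [rho, norm_mul, norm_w0, nrm_zk, one_mul]
lemma zt_ne : zt ≠ 0 := by rw [← norm_ne_zero_iff, norm_zt]; norm_num
lemma w0_ne : w0 ≠ 0 := by rw [← norm_ne_zero_iff, norm_w0]; norm_num
lemma zk_ne (k : Fin 6) : zk k ≠ 0 := by rw [← norm_ne_zero_iff, nrm_zk]; norm_num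
lemma rho_ne (k : Fin 6) : rho k ≠ 0 := by rw [← norm_ne_zero_iff, nrm_rho]; norm_num

lemma zk_sub (j k : Fin 6) : zk j = zt ^ ((j - k : Fin 6) : ℕ) * zk k := by
  have h : ∀ j k : Fin 6, (j : ℕ) = ((j - k : Fin 6) : ℕ) + k ∨ (j : ℕ) + 6 = ((j - k : Fin 6) : ℕ) + k := by decide
  unfold zk
  rw [← pow_add]
  rcases h j k with h | h
  · rw [← h]
  · rw [← h, pow_add, zt6, mul_one]

lemma zk_succ (k : Fin 6) : zk (k + 1) = zt * zk k := by
  have := zk_sub (k + 1) k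
  rwa [add_sub_cancel_left, show ((1 : Fin 6) : ℕ) = 1 from rfl, pow_one] at this

lemma zk_pow_six (k : Fin 6) : zk k ^ 6 = 1 := by
  rw [zk, ← pow_mul, mul_comm, pow_mul, zt6, one_pow]

lemma rho_six (k : Fin 6) : rho k ^ 6 = -1 := by
  rw [rho, mul_pow, w0_six, zk_pow_six, mul_one]

lemma rho_succ (k : Fin 6) : rho (k + 1) = zt * rho k := by
  rw [rho, rho, zk_succ]; ring

lemma rho_div_zk (k : Fin 6) : rho k / zk k = w0 := by
  rw [rho, mul_div_assoc, div_self (zk_ne k), mul_one]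

lemma rho_div_zk_succ (k : Fin 6) : rho k / zk (k + 1) = ⟨Real.sqrt 3 / 2, -1 / 2⟩ := by
  rw [div_eq_iff (zk_ne (k + 1)), zk_succ, rho]
  have : w0 = (⟨Real.sqrt 3 / 2, -1 / 2⟩ : ℂ) * zt := by
    apply Complex.ext <;> simp [w0, zt]
    · ring
    · nlinarith [sqrt3_sq]
  rw [this]
  ring

lemma abs_re_sub {b c : ℂ} {r : ℝ} (h : ‖b - c‖ ≤ r) : |b.re - c.re| ≤ r :=
  (by simpa using Complex.abs_re_le_norm (b - c) : |b.re - c.re| ≤ ‖b - c‖).trans h

lemma abs_im_sub {b c : ℂ} {r : ℝ} (h : ‖b - c‖ ≤ r) : |b.im - c.im| ≤ r :=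
  (by simpa using Complex.abs_im_le_norm (b - c) : |b.im - c.im| ≤ ‖b - c‖).trans h

lemma dir (m : ℕ) (h1 : 1 ≤ m) (h5 : m ≤ 5) (b : ℂ) (hb : ‖b - zt ^ m‖ ≤ 1 / 50) :
    b.re - b.im ≤ -13 / 40 ∨ b.re + b.im ≤ -13 / 40 := by
  have hr := abs_le.1 (abs_re_sub hb)
  have hi := abs_le.1 (abs_im_sub hb)
  have s1 := sqrt3_gt'
  interval_cases m
  · left
    simp only [pow_one, zt] at hr hi
    linarith [hr.2, hi.1]
  · left
    rw [zt2] at hr hi
    simp only at hr hi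
    linarith [hr.2, hi.1]
  · left
    rw [zt3] at hr hi
    simp at hr hi
    linarith [hr.2, hi.1]
  · right
    rw [zt4] at hr hi
    simp only at hr hi
    linarith [hr.2, hi.2]
  · right
    rw [zt5] at hr hi
    simp only at hr hi
    linarith [hr.2, hi.2]

/-- the position of the other roots seen from the sector `S k` -/
lemma dir' {a : Fin 6 → ℂ} (ha : Near a) {k j : Fin 6} (hj : j ≠ k) :
    (a j / zk k).re - (a j / zk k).im ≤ -13 / 40 ∨ (a j / zk k).re + (a j / zk k).im ≤ -13 / 40 := by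
  have hv : ((j - k : Fin 6) : ℕ) ≠ 0 := by
    intro h
    apply hj
    have : j - k = 0 := Fin.ext h
    exact sub_eq_zero.1 this
  refine dir ((j - k : Fin 6) : ℕ) (Nat.one_le_iff_ne_zero.2 hv) (by omega) _ ?_
  have h := ha j
  rw [zk_sub j k] at h
  have : a j / zk k - zt ^ ((j - k : Fin 6) : ℕ) = (a j - zt ^ ((j - k : Fin 6) : ℕ) * zk k) / zk k := by
    rw [sub_div, mul_div_assoc, div_self (zk_ne k), mul_one]
  rw [this, norm_div, nrm_zk, div_one]
  exact h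

lemma near_norm {a : Fin 6 → ℂ} (ha : Near a) (k : Fin 6) : 49 / 50 ≤ ‖a k‖ ∧ ‖a k‖ ≤ 51 / 50 := by
  have h := ha k
  have h1 := norm_sub_norm_le (zk k) (a k)
  have h2 := norm_sub_norm_le (a k) (zk k)
  rw [norm_sub_rev] at h1
  rw [nrm_zk] at h1 h2
  constructor <;> linarith

lemma near_ne {a : Fin 6 → ℂ} (ha : Near a) (k : Fin 6) : a k ≠ 0 := by
  rw [← norm_pos_iff]
  linarith [(near_norm ha k).1]

lemma mem_S {k : Fin 6} {x : ℂ} : x ∈ S k ↔ |(x / zk k).im| < (x / zk k).re + 1 / 4 := Iff.rfl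

lemma one_sub_mem_slit {a : Fin 6 → ℂ} (ha : Near a) {k j : Fin 6} (hj : j ≠ k) {x : ℂ} (hx : x ∈ S k) :
    1 - x / a j ∈ Complex.slitPlane := by
  rw [Complex.mem_slitPlane_iff]
  by_contra hcon
  push_neg at hcon
  obtain ⟨h1, h2⟩ := hcon
  have h3 : x / a j = ((x / a j).re : ℂ) := by
    apply Complex.ext
    · simp
    · simp only [Complex.sub_im, Complex.one_im, zero_sub, neg_eq_zero] at h2
      simp [h2]
  set t := (x / a j).re with ht
  have ht1 : 1 ≤ t := by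
    simp only [Complex.sub_re, Complex.one_re] at h1
    linarith
  have h4 : x = t * a j := (div_eq_iff (near_ne ha j)).1 h3
  rw [mem_S, h4, mul_div_assoc, Complex.re_ofReal_mul, Complex.im_ofReal_mul, abs_lt] at hx
  rcases dir' ha hj with h | h <;> nlinarith [hx.1, hx.2]

/-- uniform lower bound for the distance from the other roots -/
lemma sep {a : Fin 6 → ℂ} (ha : Near a) {k j : Fin 6} (hj : j ≠ k) {x : ℂ} (hx : x ∈ S k) :
    1 / 100 * (1 + ‖x‖) ≤ ‖1 - x / a j‖ := by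
  have ha0 := near_ne ha j
  obtain ⟨n1, n2⟩ := near_norm ha j
  have e1 : ‖1 - x / a j‖ * ‖a j‖ = ‖x - a j‖ := by
    rw [← norm_mul, sub_mul, one_mul, div_mul_cancel₀ _ ha0, norm_sub_rev]
  have e2 : ‖x - a j‖ = ‖x / zk k - a j / zk k‖ := by
    rw [← sub_div, norm_div, nrm_zk, div_one]
  have hx' := abs_lt.1 (mem_S.1 hx)
  have r1 := Complex.abs_re_le_norm (x / zk k - a j / zk k)
  have r2 := Complex.abs_im_le_norm (x / zk k - a j / zk k)
  rw [← e2] at r1 r2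
  have r1' := abs_le.1 r1
  have r2' := abs_le.1 r2
  simp only [Complex.sub_re, Complex.sub_im] at r1' r2'
  have h3 : 3 / 80 ≤ ‖x - a j‖ := by
    rcases dir' ha hj with h | h
    · linarith [hx'.1, hx'.2, r1'.1, r1'.2, r2'.1, r2'.2]
    · linarith [hx'.1, hx'.2, r1'.1, r1'.2, r2'.1, r2'.2]
  have h4 : ‖x‖ - ‖a j‖ ≤ ‖x - a j‖ := norm_sub_norm_le _ _
  have h5 : 1 / 60 * (1 + ‖x‖) ≤ ‖x - a j‖ := by
    by_cases hx1 : ‖x‖ ≤ 11 / 10
    · linarith
    · push_neg at hx1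
      linarith
  rw [← e1] at h5
  have h6 : ‖1 - x / a j‖ * ‖a j‖ ≤ ‖1 - x / a j‖ * (51 / 50) := mul_le_mul_of_nonneg_left n2 (norm_nonneg _)
  have h7 := norm_nonneg x
  linarith

lemma zero_mem_S (k : Fin 6) : (0 : ℂ) ∈ S k := by
  rw [mem_S]; norm_num

lemma root_mem_S {a : Fin 6 → ℂ} (ha : Near a) (k : Fin 6) : a k ∈ S k := by
  have h : ‖a k / zk k - 1‖ ≤ 1 / 50 := by
    have : a k / zk k - 1 = (a k - zk k) / zk k := by rw [sub_div, div_self (zk_ne k)]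
    rw [this, norm_div, nrm_zk, div_one]
    exact ha k
  have hr := abs_le.1 (abs_re_sub h)
  have hi := abs_im_sub h
  rw [Complex.one_im, sub_zero] at hi
  rw [Complex.one_re] at hr
  rw [mem_S]
  linarith [hr.1]

lemma convex_S (k : Fin 6) : Convex ℝ (S k) := by
  intro x hx y hy s t hs ht hst
  rw [mem_S] at hx hy ⊢
  have e : (s • x + t • y) / zk k = s • (x / zk k) + t • (y / zk k) := by
    simp only [Complex.real_smul]; ring
  rw [e]
  simp only [Complex.add_re, Complex.add_im, Complex.real_smul, Complex.re_ofReal_mul, Complex.im_ofReal_mul]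
  rw [abs_lt] at hx hy ⊢
  have hs1 : s = 1 - t := by linarith
  subst hs1
  rcases eq_or_lt_of_le ht with h0 | h0
  · subst_vars
    constructor <;> nlinarith [hx.1, hx.2]
  · rcases eq_or_lt_of_le hs with h1 | h1
    · have : t = 1 := by linarith
      subst this
      constructor <;> nlinarith [hy.1, hy.2]
    · constructor <;> nlinarith [mul_pos h0 (by linarith [hy.1] : 0 < (y / zk k).im + ((y / zk k).re + 1 / 4)),
        mul_pos h0 (by linarith [hy.2] : 0 < ((y / zk k).re + 1 / 4) - (y / zk k).im),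
        mul_pos h1 (by linarith [hx.1] : 0 < (x / zk k).im + ((x / zk k).re + 1 / 4)),
        mul_pos h1 (by linarith [hx.2] : 0 < ((x / zk k).re + 1 / 4) - (x / zk k).im)]

lemma isOpen_S (k : Fin 6) : IsOpen (S k) := by
  have h1 : Continuous fun x : ℂ => |(x / zk k).im| :=
    (Complex.continuous_im.comp (continuous_id.div_const _)).abs
  have h2 : Continuous fun x : ℂ => (x / zk k).re + 1 / 4 :=
    (Complex.continuous_re.comp (continuous_id.div_const _)).add continuous_const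
  exact isOpen_lt h1 h2

lemma ray_mem (k : Fin 6) {t : ℝ} (ht : 0 ≤ t) : rho k * t ∈ S k := by
  rw [mem_S]
  have e : rho k * t / zk k = (t : ℂ) * w0 := by
    rw [mul_comm, mul_div_assoc, rho_div_zk]
  rw [e, Complex.re_ofReal_mul, Complex.im_ofReal_mul]
  simp only [w0]
  rw [abs_of_nonneg (by positivity)]
  nlinarith [sqrt3_gt]

lemma ray_mem' (k : Fin 6) {t : ℝ} (ht : 0 ≤ t) : rho k * t ∈ S (k + 1) := by
  rw [mem_S]
  have e : rho k * t / zk (k + 1) = (t : ℂ) * ⟨Real.sqrt 3 / 2, -1 / 2⟩ := by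
    rw [mul_comm, mul_div_assoc, rho_div_zk_succ]
  rw [e, Complex.re_ofReal_mul, Complex.im_ofReal_mul]
  simp only
  rw [abs_lt]
  constructor <;> nlinarith [sqrt3_gt]

lemma exists_mem_S (x : ℂ) : ∃ k, x ∈ S k := by
  obtain ⟨k, -, hk⟩ := Finset.exists_max_image Finset.univ (fun k : Fin 6 => (x / zk k).re) Finset.univ_nonempty
  refine ⟨k, ?_⟩
  have h1 := hk (k + 1) (Finset.mem_univ _)
  have h2 := hk (k - 1) (Finset.mem_univ _)
  have e2 : zk k = zt * zk (k - 1) := by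
    have := zk_succ (k - 1)
    rwa [sub_add_cancel] at this
  set z := x / zk k with hz
  have e1 : x / zk (k + 1) = z * ⟨1 / 2, -Real.sqrt 3 / 2⟩ := by
    rw [zk_succ, hz, div_eq_iff (mul_ne_zero zt_ne (zk_ne k))]
    have : (⟨1 / 2, -Real.sqrt 3 / 2⟩ : ℂ) * zt = 1 := by
      rw [← zt5, ← pow_succ, zt6]
    calc x = x / zk k * zk k := (div_mul_cancel₀ _ (zk_ne k)).symm
      _ = x / zk k * (⟨1 / 2, -Real.sqrt 3 / 2⟩ * zt) * zk k := by rw [this, mul_one]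
      _ = _ := by ring
  have e3 : x / zk (k - 1) = z * zt := by
    rw [hz, e2, div_eq_iff (zk_ne (k - 1))]
    have := zk_ne (k - 1)
    have := zt_ne
    field_simp
  rw [e1] at h1
  rw [e3] at h2
  simp only [Complex.mul_re, zt] at h1 h2
  rw [mem_S, ← hz, abs_lt]
  have s1 := sqrt3_gt
  have hre : 0 ≤ z.re := by nlinarith
  have hs0 : 0 < Real.sqrt 3 := by linarith
  constructor <;> nlinarith

end Pool.Agent.J4.H67.AS
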