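import Pool.Agent.J4.H67.AS.FDefs
import Pool.Agent.J4.H67.AS.Cont
import Pool.Agent.J4.H67.AS.Geom
set_option autoImplicit false

/-!
The polynomial with roots `a j`, and the computation of the regulator in terms of `U`, `U0`.
-/

namespace Pool.Agent.J4.H67.AS

open MeasureTheory Set Polynomial
open scoped ComplexConjugate

variable {a : Fin 6 → ℂ}

/-- the polynomial `∏ (1 - X / a j)` -/
noncomputable def Pp (a : Fin 6 → ℂ) : ℂ[X] := ∏ j, (1 - C (a j)⁻¹ * X)

lemma Pp_eval (x : ℂ) : (Pp a).eval x = Pa a x := by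
  unfold Pp Pa
  rw [eval_prod]
  apply Finset.prod_congr rfl
  intro j _
  simp only [eval_sub, eval_one, eval_mul, eval_C, eval_X]
  rw [div_eq_mul_inv, mul_comm]

lemma Pp_eq (h0 : ∀ j, a j ≠ 0) : Pp a = C (∏ j, (-(a j)⁻¹)) * ∏ j, (X - C (a j)) := by
  unfold Pp
  rw [map_prod, ← Finset.prod_mul_distrib]
  apply Finset.prod_congr rfl
  intro j _
  rw [mul_sub, ← C_mul, neg_mul, inv_mul_cancel₀ (h0 j)]
  simp only [map_neg, C_1]
  ring

lemma Pp_const_ne (h0 : ∀ j, a j ≠ 0) : ∏ j, (-(a j)⁻¹) ≠ 0 :=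
  Finset.prod_ne_zero_iff.2 fun j _ => neg_ne_zero.2 (inv_ne_zero (h0 j))

lemma Pp_natDegree (h0 : ∀ j, a j ≠ 0) : (Pp a).natDegree = 6 := by
  rw [Pp_eq h0, natDegree_C_mul (Pp_const_ne h0), natDegree_prod_of_monic _ _ fun j _ => monic_X_sub_C _]
  simp

lemma Pp_squarefree (h0 : ∀ j, a j ≠ 0) (hinj : Function.Injective a) : Squarefree (Pp a) := by
  have h1 : Squarefree (∏ j, (X - C (a j))) := (separable_prod_X_sub_C_iff.2 hinj).squarefree
  rw [Pp_eq h0]
  have hu : IsUnit (C (∏ j, (-(a j)⁻¹))) := isUnit_C.2 (isUnit_iff_ne_zero.2 (Pp_const_ne h0))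
  intro x hx
  exact h1 x (hu.dvd_mul_left.1 hx)

lemma Pp_root (h0 : ∀ j, a j ≠ 0) (i : Fin 6) : (Pp a).eval (a i) = 0 := by
  rw [Pp_eval, Pa]
  apply Finset.prod_eq_zero (Finset.mem_univ i)
  rw [div_self (h0 i), sub_self]

lemma near_inj (ha : Near a) : Function.Injective a := by
  intro j l h
  by_contra hne
  have := NCont.Contaux.near_sep ha hne
  rw [h, sub_self, norm_zero] at this
  norm_num at this

lemma integrable_SS (a : Fin 6 → ℂ) : Integrable (NCont.Contaux.SS a) := by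
  unfold NCont.Contaux.SS
  exact integrable_finsetSum _ fun i _ => REG.integrable_G0_sub (a i)

lemma integrable_U0 (ha : Near a) (m n : Fin 2) :
    Integrable (fun x : ℂ => x ^ (m : ℕ) * conj x ^ (n : ℕ) / (‖Pa a x‖ : ℂ)) := by
  refine ((integrable_SS a).const_mul (10 ^ 8)).mono' (NCont.Contaux.meas_int a m n).aestronglyMeasurable ?_
  filter_upwards [NCont.Contaux.ae_ne a] with x hx
  rw [NCont.Contaux.norm_int]
  have h := NCont.Contaux.major ha hx 0 (w := 1) (by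
    rw [abs_one]
    exact NCont.Contaux.one_le_wg (norm_pos_iff.2 (sub_ne_zero.2 (hx 0)))) m n
  rwa [abs_one, one_mul] at h

lemma integrable_U (ha : Near a) (i : Fin 6) (m n : Fin 2) :
    Integrable (fun x : ℂ => (Real.log ‖x - a i‖ : ℂ) * (x ^ (m : ℕ) * conj x ^ (n : ℕ) / (‖Pa a x‖ : ℂ))) := by
  refine ((integrable_SS a).const_mul (10 ^ 8)).mono'
    ((Complex.measurable_ofReal.comp (Real.measurable_log.comp (by fun_prop))).mul
      (NCont.Contaux.meas_int a m n)).aestronglyMeasurable ?_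
  filter_upwards [NCont.Contaux.ae_ne a] with x hx
  rw [norm_mul, NCont.Contaux.norm_int, Complex.norm_real, Real.norm_eq_abs]
  exact NCont.Contaux.major ha hx i (NCont.Contaux.log_le_wg (norm_pos_iff.2 (sub_ne_zero.2 (hx i)))) m n

/-- matrix of the integrals `U0` -/
noncomputable def U0m (a : Fin 6 → ℂ) : Matrix (Fin 2) (Fin 2) ℂ := Matrix.of fun m n => U0 a m n

/-- matrix of the integrals `U` -/
noncomputable def Um (a : Fin 6 → ℂ) (i : Fin 6) : Matrix (Fin 2) (Fin 2) ℂ := Matrix.of fun m n => U a i m n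

variable {Λ : AddSubgroup (Fin 2 → ℂ)}

lemma expand (M : Matrix (Fin 2) (Fin 2) ℂ) (x : ℂ) (i j : Fin 2) :
    M.mulVec ![1, x] i * conj (M.mulVec ![1, x] j) =
      ∑ m : Fin 2, ∑ n : Fin 2, M i m * conj (M j n) * (x ^ (m : ℕ) * conj x ^ (n : ℕ)) := by
  simp only [Matrix.mulVec, dotProduct, Fin.sum_univ_two, Matrix.cons_val_zero, Matrix.cons_val_one, map_add, map_mul,
    map_one, Fin.val_zero, Fin.val_one, pow_zero, pow_one]
  ring

/-- general form of the regulator -/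
lemma reg_general (M : Matrix (Fin 2) (Fin 2) ℂ) (φ : ℂ → ℝ) (P : ℂ → ℂ) (W : Matrix (Fin 2) (Fin 2) ℂ)
    (hint : ∀ m n : Fin 2, Integrable fun x : ℂ => (φ x : ℂ) * (x ^ (m : ℕ) * conj x ^ (n : ℕ) / (‖P x‖ : ℂ)))
    (hW : ∀ m n : Fin 2, W m n = ∫ x : ℂ, (φ x : ℂ) * (x ^ (m : ℕ) * conj x ^ (n : ℕ) / (‖P x‖ : ℂ))) :
    (Matrix.of fun i j => 2 * ∫ x : ℂ, (φ x : ℂ) * (M.mulVec ![1, x] i * conj (M.mulVec ![1, x] j)) / (‖P x‖ : ℂ)) =
      (2 : ℂ) • (M * W * M.conjTranspose) := by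
  ext i j
  simp only [Matrix.of_apply, Matrix.smul_apply, smul_eq_mul]
  congr 1
  have e1 : ∀ x : ℂ, (φ x : ℂ) * (M.mulVec ![1, x] i * conj (M.mulVec ![1, x] j)) / (‖P x‖ : ℂ) =
      ∑ m : Fin 2, ∑ n : Fin 2, (M i m * conj (M j n)) * ((φ x : ℂ) * (x ^ (m : ℕ) * conj x ^ (n : ℕ) / (‖P x‖ : ℂ))) := by
    intro x
    rw [expand]
    simp only [Fin.sum_univ_two]
    ring
  simp only [e1]
  rw [integral_finsetSum _ fun m _ => integrable_finsetSum _ fun n _ => (hint m n).const_mul _]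
  have e2 : ∀ m : Fin 2, ∫ x : ℂ, ∑ n : Fin 2, (M i m * conj (M j n)) * ((φ x : ℂ) * (x ^ (m : ℕ) * conj x ^ (n : ℕ) / (‖P x‖ : ℂ)))
      = ∑ n : Fin 2, (M i m * conj (M j n)) * W m n := by
    intro m
    rw [integral_finsetSum _ fun n _ => (hint m n).const_mul _]
    apply Finset.sum_congr rfl
    intro n _
    rw [integral_const_mul, hW]
  simp only [e2]
  simp only [Matrix.mul_apply, Fin.sum_univ_two, Matrix.conjTranspose_apply, RCLike.star_def]
  ring

/-- the regulator is hermitian -/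
lemma reg_hermitian (Z : CurveFn Λ) : Z.reg.IsHermitian := by
  ext i j
  simp only [Matrix.conjTranspose_apply, CurveFn.reg, Matrix.of_apply, RCLike.star_def, map_mul, Complex.conj_ofNat]
  congr 1
  rw [← integral_conj]
  congr 1
  ext x
  simp only [map_div₀, map_mul, Complex.conj_ofReal, Complex.conj_conj]
  ring

lemma sum_hermitian (l : List (CurveFn Λ)) : (l.map CurveFn.reg).sum.IsHermitian := by
  induction l with
  | nil => simp
  | cons Z l ih =>
    rw [List.map_cons, List.sum_cons]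
    exact (reg_hermitian Z).add ih

end Pool.Agent.J4.H67.AS
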